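import Pool.Agent.CRH.Lower

/-!
# Invariance of the colours under isomorphisms, the theorem in its final form
-/

namespace Pool.Agent.CRH

open Finset
open scoped symmDiff

theorem col_iso {V V' : Type} [Fintype V] [Fintype V'] {G : SimpleGraph V} {G' : SimpleGraph V'}
    (e : G ≃g G') (k : ℕ) : ∀ v, col G' k (e v) = col G k v := by
  classical
  induction k with
  | zero => intro v; rfl
  | succ k ih =>
    intro v
    simp only [col]
    congr 1
    · exact ih v
    · have h1 : (univ.filter fun y => G'.Adj (e v) y) =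
          (univ.filter fun y => G.Adj v y).map e.toEquiv.toEmbedding := by
        ext y
        simp only [mem_filter, mem_univ, true_and, mem_map_equiv]
        have := e.map_rel_iff' (a := v) (b := e.toEquiv.symm y)
        rw [← this]
        simp
      have h2 : ((univ.filter fun y => G'.Adj (e v) y).val.map (col G' k)) =
          ((univ.filter fun y => G.Adj v y).val.map (col G k)) := by
        rw [h1, Finset.map_val, Multiset.map_map]
        apply Multiset.map_congr rfl
        intro y _
        exact ih y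
      convert h2 using 2

theorem hist_iso {V V' : Type} [Fintype V] [Fintype V'] {G : SimpleGraph V} {G' : SimpleGraph V'}
    (e : G ≃g G') (k : ℕ) : hist G k = hist G' k := by
  unfold hist
  have h1 : (univ : Finset V') = (univ : Finset V).map e.toEquiv.toEmbedding := by
    rw [Finset.map_univ_equiv]
  rw [h1, Finset.map_val, Multiset.map_map]
  apply Multiset.map_congr rfl
  intro y _
  exact (col_iso e k y).symm

theorem aut_trivial {V : Type} [Fintype V] {G : SimpleGraph V} {k : ℕ}
    (h : Function.Injective (col G k)) (e : G ≃g G) (v : V) : e v = v :=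
  h (col_iso e k v)

open scoped Classical in
theorem exists_aut {V : Type} {G : SimpleGraph V} {u v : V} (huv : u ≠ v)
    (hu : ∀ y, ¬ G.Adj u y) (hv : ∀ y, ¬ G.Adj v y) : ∃ e : G ≃g G, e u ≠ u := by
  refine ⟨⟨Equiv.swap u v, ?_⟩, ?_⟩
  · intro a b
    have hu' : ∀ y, ¬ G.Adj y u := fun y h => hu y h.symm
    have hv' : ∀ y, ¬ G.Adj y v := fun y h => hv y h.symm
    by_cases ha : a = u
    · subst ha
      rw [Equiv.swap_apply_left]
      exact ⟨fun h => (hv _ h).elim, fun h => (hu _ h).elim⟩
    by_cases ha' : a = v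
    · subst ha'
      rw [Equiv.swap_apply_right]
      exact ⟨fun h => (hu _ h).elim, fun h => (hv _ h).elim⟩
    by_cases hb : b = u
    · subst hb
      rw [Equiv.swap_apply_left]
      exact ⟨fun h => (hv' _ h).elim, fun h => (hu' _ h).elim⟩
    by_cases hb' : b = v
    · subst hb'
      rw [Equiv.swap_apply_right]
      exact ⟨fun h => (hu' _ h).elim, fun h => (hv' _ h).elim⟩
    rw [Equiv.swap_apply_of_ne_of_ne ha ha', Equiv.swap_apply_of_ne_of_ne hb hb']
  · show Equiv.swap u v u ≠ u
    rw [Equiv.swap_apply_left]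
    exact huv.symm

/-- The graph `G` on `n` vertices is solved by colour refinement: after `n` rounds all vertices have
different colours, a graph `G'` on the same vertex set is isomorphic to `G` if and only if the multisets
of the colours after `n + 1` rounds agree, and `G` has no automorphism except the identity. -/
def Solved {n : ℕ} (G : SimpleGraph (Fin n)) : Prop :=
  Function.Injective (col G n) ∧
  (∀ G' : SimpleGraph (Fin n), Nonempty (G ≃g G') ↔ hist G (n + 1) = hist G' (n + 1)) ∧
  ∀ (σ : G ≃g G) (v : Fin n), σ v = v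

theorem upper (A : ℕ) : ∃ C : ℕ, ∀ n : ℕ, 2 ≤ n → ∀ x : Sym2 (Fin n) → ℝ,
    (∀ e, 0 ≤ x e) → (∀ e, x e ≤ 1) →
    (∀ v : Fin n, C * Real.log n ≤ ∑ u ∈ univ.erase v, min (x s(v, u)) (1 - x s(v, u))) →
    1 - 1 / (n : ℝ) ^ A ≤ prob x Solved := by
  obtain ⟨C, hC⟩ := partA A
  refine ⟨C, fun n hn x h0 h1 hd => ?_⟩
  have h2 := hC n hn x h0 h1 hd
  have h3 := prob_add_not x (fun G : SimpleGraph (Fin n) => Solved G)
  have h4 : prob x (fun G : SimpleGraph (Fin n) => ¬ Solved G) ≤
      prob x (fun G => ¬ Function.Injective (col G n)) := by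
    apply prob_mono x h0 h1
    intro G hG h
    apply hG
    refine ⟨h, fun G' => ⟨?_, fun hh => identifies G G' n h hh⟩, fun σ v => aut_trivial h σ v⟩
    rintro ⟨e⟩
    exact hist_iso e (n + 1)
  linarith

theorem lower (n : ℕ) (hn : 2 ≤ n) (x : Sym2 (Fin n) → ℝ) (h0 : ∀ e, 0 ≤ x e)
    (h1 : ∀ e, x e ≤ 1 / 2)
    (hd : ∀ v : Fin n, ∑ u ∈ univ.erase v, x s(v, u) ≤ Real.log n / 4) :
    prob x (fun G : SimpleGraph (Fin n) => (∃ k, Function.Injective (col G k)) ∨
      ∀ (σ : G ≃g G) (v : Fin n), σ v = v) ≤ (2 + Real.log n) / Real.sqrt n := by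
  have h2 := few_isolated x h0 h1 (by simpa using hn) (by simpa using hd)
  rw [Fintype.card_fin] at h2
  refine le_trans (prob_mono x h0 (fun e => by linarith [h1 e]) ?_) h2
  intro G hG
  by_contra hcon
  push Not at hcon
  unfold isoNum at hcon
  obtain ⟨u, hu, v, hv, huv⟩ := Finset.one_lt_card.mp hcon
  simp only [mem_filter, mem_univ, true_and] at hu hv
  rcases hG with ⟨k, hk⟩ | hS
  · exact huv (hk (not_injective_of_isolated _ hu hv k))
  · obtain ⟨e, he⟩ := exists_aut huv hu hv
    exact he (hS e u)

end Pool.Agent.CRH
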