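import Pool.Agent.CRH.Defs

/-!
# MODULE CfgEx: configurations exist

Paper proof. (1) If `S i`, `i : ι`, are finite sets with at least `|ι|` elements each, there is an
injective choice `f i ∈ S i` (Hall: `Finset.all_card_le_biUnion_card_iff_exists_injective`: for a
nonempty finset `I` of indices the union has at least `|ι| ≥ #I` elements).
(2) For `x` take `S (i, c) = {y | H.Adj (w i) y} \ (range w ∪ range w')`, which has at least
`s m + 2 s + N - 2 s ≥ s m` elements. (3) For `z y` take an injection of `Fin N` into
`{v | H.Adj (x y) v} \ (range x ∪ range w ∪ range w')`, which has at least `N` elements.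
-/

namespace Pool.Agent.CRH

open Finset

/-- Injective choices from large finite sets. -/
theorem cfg_choice {ι V : Type} [Fintype ι] [DecidableEq V] (S : ι → Finset V)
    (h : ∀ i, Fintype.card ι ≤ (S i).card) :
    ∃ f : ι → V, Function.Injective f ∧ ∀ i, f i ∈ S i := by
  rw [← Finset.all_card_le_biUnion_card_iff_exists_injective]
  intro I
  rcases I.eq_empty_or_nonempty with rfl | ⟨i, hi⟩
  · simp
  · calc I.card ≤ Fintype.card ι := Finset.card_le_univ I
      _ ≤ (S i).card := h i
      _ ≤ (I.biUnion S).card := Finset.card_le_card (Finset.subset_biUnion_of_mem S hi)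

theorem cfg_exists {V : Type} [Fintype V] [DecidableEq V] (H : SimpleGraph V) (s m N : ℕ)
    (w w' : Fin s → V) (hw : Function.Injective w) (hw' : Function.Injective w')
    (hd : ∀ i j, w i ≠ w' j) (hdeg : ∀ v, s * m + 2 * s + N ≤ dg H v) :
    ∃ (x : Fin s × Fin m → V) (z : Fin s × Fin m → Fin N → V), IsCfg H s m N w w' x z := by
  classical
  have hdg : ∀ v, dg H v = (univ.filter fun y => H.Adj v y).card := by
    intro v
    unfold dg
    congr
  have himg : ∀ u : Fin s → V, (univ.image u).card ≤ s := by
    intro u
    exact Finset.card_image_le.trans (by simp)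
  -- the points `x`
  obtain ⟨x, hx, hxS⟩ := cfg_choice (ι := Fin s × Fin m)
    (fun y => (univ.filter fun v => H.Adj (w y.1) v) \ (univ.image w ∪ univ.image w')) (by
      intro y
      have h1 := hdeg (w y.1)
      rw [hdg] at h1
      have h2 := Finset.le_card_sdiff (univ.image w ∪ univ.image w')
        (univ.filter fun v => H.Adj (w y.1) v)
      have h3 := Finset.card_union_le (univ.image w) (univ.image w')
      have h4 := himg w
      have h5 := himg w'
      rw [Fintype.card_prod, Fintype.card_fin, Fintype.card_fin]
      omega)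
  have hximg : (univ.image x).card ≤ s * m := by
    refine Finset.card_image_le.trans ?_
    rw [Finset.card_univ, Fintype.card_prod, Fintype.card_fin, Fintype.card_fin]
  -- the points `z`
  have hz : ∀ y : Fin s × Fin m, ∃ f : Fin N → V, Function.Injective f ∧
      ∀ l, f l ∈ (univ.filter fun v => H.Adj (x y) v) \
        (univ.image x ∪ (univ.image w ∪ univ.image w')) := by
    intro y
    refine cfg_choice (ι := Fin N) _ fun _ => ?_
    have h1 := hdeg (x y)
    rw [hdg] at h1
    have h2 := Finset.le_card_sdiff (univ.image x ∪ (univ.image w ∪ univ.image w'))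
      (univ.filter fun v => H.Adj (x y) v)
    have h3 := Finset.card_union_le (univ.image w) (univ.image w')
    have h6 := Finset.card_union_le (univ.image x) (univ.image w ∪ univ.image w')
    have h4 := himg w
    have h5 := himg w'
    rw [Fintype.card_fin]
    omega
  choose z hz1 hz2 using hz
  have hxS' : ∀ y, H.Adj (w y.1) (x y) ∧ (∀ i, x y ≠ w i) ∧ ∀ i, x y ≠ w' i := by
    intro y
    have h1 := hxS y
    simp only [mem_sdiff, mem_filter, mem_univ, true_and, mem_union, mem_image, not_or,
      not_exists] at h1
    exact ⟨h1.1, fun i h => h1.2.1 i h.symm, fun i h => h1.2.2 i h.symm⟩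
  have hzS' : ∀ y l, H.Adj (x y) (z y l) ∧ (∀ y', z y l ≠ x y') ∧ (∀ i, z y l ≠ w i) ∧
      ∀ i, z y l ≠ w' i := by
    intro y l
    have h1 := hz2 y l
    simp only [mem_sdiff, mem_filter, mem_univ, true_and, mem_union, mem_image, not_or,
      not_exists] at h1
    exact ⟨h1.1, fun i h => h1.2.1 i h.symm, fun i h => h1.2.2.1 i h.symm,
      fun i h => h1.2.2.2 i h.symm⟩
  exact ⟨x, z,
    { winj := hw
      w'inj := hw'
      ww' := hd
      xinj := hx
      zinj := hz1
      hx := fun y => (hxS' y).1
      hz := fun y l => (hzS' y l).1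
      xw := fun y i => (hxS' y).2.1 i
      xw' := fun y i => (hxS' y).2.2 i
      zx := fun y l y' => (hzS' y l).2.1 y'
      zw := fun y l i => (hzS' y l).2.2.1 i
      zw' := fun y l i => (hzS' y l).2.2.2 i }⟩

end Pool.Agent.CRH
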