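import Mathlib

/-!
# Colour refinement on random perturbations along an arbitrary host graph: definitions

`gr G₀ H a` is the graph which has the bit `a e` on every pair `e` of `H` and agrees with `G₀` on all
other pairs.  `Pr S` is the probability of the event `S` for independent fair bits.
-/

namespace Pool.Agent.CRH

open Finset

/-- The possible colours after `k` rounds of colour refinement. -/
def Col : ℕ → Type
  | 0 => Unit
  | k + 1 => Col k × Multiset (Col k)

open scoped Classical in
/-- The colour of a vertex after `k` rounds of colour refinement (one-dimensional Weisfeiler-Leman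
algorithm): at first all colours are equal, the next colour of `v` is the pair consisting of the
present colour of `v` and the multiset of the present colours of the neighbours of `v`. -/
noncomputable def col {V : Type} [Fintype V] (G : SimpleGraph V) : (k : ℕ) → V → Col k
  | 0, _ => ()
  | k + 1, v => (col G k v, (univ.filter fun y => G.Adj v y).val.map (col G k))

/-- The multiset of all colours after `k` rounds. -/
noncomputable def hist {V : Type} [Fintype V] (G : SimpleGraph V) (k : ℕ) : Multiset (Col k) :=
  (univ : Finset V).val.map (col G k)

open scoped Classical in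
/-- The graph with the bits `a` on the pairs of `H`, equal to `G₀` on all other pairs. -/
def gr {V : Type} (G₀ H : SimpleGraph V) (a : Sym2 V → Bool) : SimpleGraph V where
  Adj u v := if H.Adj u v then a s(u, v) = true else G₀.Adj u v
  symm := ⟨by
    intro u v h
    rw [H.adj_comm, Sym2.eq_swap, G₀.adj_comm] at h
    exact h⟩
  loopless := ⟨by
    intro u h
    rw [if_neg (H.loopless.irrefl u)] at h
    exact G₀.loopless.irrefl u h⟩

open scoped Classical in
/-- probability of an event for independent fair bits indexed by `β` -/
noncomputable def Pr {β : Type} [Fintype β] (S : (β → Bool) → Prop) : ℝ :=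
  ((univ.filter fun a => S a).card : ℝ) / 2 ^ Fintype.card β

open scoped Classical in
/-- number of vertices `y` adjacent to `u` with `P y` -/
noncomputable def nb {V : Type} [Fintype V] (G : SimpleGraph V) (u : V) (P : V → Prop) : ℕ :=
  (univ.filter fun y => G.Adj u y ∧ P y).card

open scoped Classical in
/-- degree of a vertex -/
noncomputable def dg {V : Type} [Fintype V] (G : SimpleGraph V) (u : V) : ℕ :=
  (univ.filter fun y => G.Adj u y).card

/-- The partition of the vertices into the fibres of `f` is equitable. -/
def Eqt {V : Type} [Fintype V] (G : SimpleGraph V) (f : V → V) : Prop :=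
  ∀ u v, f u = f v → ∀ c, nb G u (fun y => f y = c) = nb G v (fun y => f y = c)

/-- Two families `w, w'` of `s` vertices, for each `i` vertices `x (i, c)`, `c < m`, adjacent to
`w i` in `H`, and `N` vertices `z y l` adjacent to `x y` in `H`, in general position. -/
structure IsCfg {V : Type} (H : SimpleGraph V) (s m N : ℕ) (w w' : Fin s → V)
    (x : Fin s × Fin m → V) (z : Fin s × Fin m → Fin N → V) : Prop where
  winj : Function.Injective w
  w'inj : Function.Injective w'
  ww' : ∀ i j, w i ≠ w' j
  xinj : Function.Injective x
  zinj : ∀ y, Function.Injective (z y)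
  hx : ∀ y, H.Adj (w y.1) (x y)
  hz : ∀ y l, H.Adj (x y) (z y l)
  xw : ∀ y i, x y ≠ w i
  xw' : ∀ y i, x y ≠ w' i
  zx : ∀ y l y', z y l ≠ x y'
  zw : ∀ y l i, z y l ≠ w i
  zw' : ∀ y l i, z y l ≠ w' i

/-- degree of `x y` without the link from `w y.1` -/
noncomputable def D {V : Type} [Fintype V] {s m : ℕ} (G : SimpleGraph V) (w : Fin s → V)
    (x : Fin s × Fin m → V) (y : Fin s × Fin m) : ℕ :=
  nb G (x y) (fun v => v ≠ w y.1)

/-- the link pairs -/
def lk {V : Type} {s m : ℕ} (w : Fin s → V) (x : Fin s × Fin m → V) (y : Fin s × Fin m) : Sym2 V :=
  s(w y.1, x y)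

open scoped Classical in
/-- number of different values of `(i, D)` -/
noncomputable def tot {V : Type} [Fintype V] {s m : ℕ} (G : SimpleGraph V) (w : Fin s → V)
    (x : Fin s × Fin m → V) : ℕ :=
  (univ.image fun y : Fin s × Fin m => (y.1, D G w x y)).card

end Pool.Agent.CRH
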