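import Pool.Agent.CRH.Defs

/-!
# MODULE Point: point probabilities of the symmetric binomial distribution

Paper proof. (1) `(centralBinom n)^2 * (2n+1) ≤ 16^n` by induction: `centralBinom (n+1) * (n+1) =
2 (2n+1) centralBinom n` (`Nat.succ_mul_centralBinom_succ`), so
`centralBinom(n+1)^2 (2n+3) (n+1)^2 = 4 (2n+1)^2 (2n+3) centralBinom(n)^2
  ≤ 4 (2n+1)(2n+3) 16^n ≤ 16^(n+1) (n+1)^2` because `(2n+1)(2n+3) ≤ 4 (n+1)^2`.
(2) The number of `ζ : Fin (2N') → Bool` with exactly `k` true bits is `choose (2N') k ≤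
centralBinom N'` (`Nat.choose_le_centralBinom`). So its square times `(16 m)^2` is at most
`centralBinom(N')^2 (2N'+1) ≤ 16^N' = (2^(2N'))^2`, i.e. the number times `16 m` is at most
`2^(2N')`.
-/

namespace Pool.Agent.CRH

open Finset

theorem point_centralBinom (n : ℕ) : (Nat.centralBinom n) ^ 2 * (2 * n + 1) ≤ 16 ^ n := by
  induction n with
  | zero => simp
  | succ n ih =>
    have h1 := Nat.succ_mul_centralBinom_succ n
    have h2 : ((n + 1) ^ 2) * ((Nat.centralBinom (n + 1)) ^ 2 * (2 * (n + 1) + 1)) ≤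
        ((n + 1) ^ 2) * 16 ^ (n + 1) := by
      calc ((n + 1) ^ 2) * ((Nat.centralBinom (n + 1)) ^ 2 * (2 * (n + 1) + 1))
          = ((n + 1) * Nat.centralBinom (n + 1)) ^ 2 * (2 * n + 3) := by ring
        _ = (2 * (2 * n + 1) * n.centralBinom) ^ 2 * (2 * n + 3) := by rw [h1]
        _ = (4 * (2 * n + 1) * (2 * n + 3)) * (n.centralBinom ^ 2 * (2 * n + 1)) := by ring
        _ ≤ (4 * (2 * n + 1) * (2 * n + 3)) * 16 ^ n := Nat.mul_le_mul_left _ ih
        _ ≤ (16 * (n + 1) ^ 2) * 16 ^ n := Nat.mul_le_mul_right _ (by nlinarith)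
        _ = ((n + 1) ^ 2) * 16 ^ (n + 1) := by ring
    exact Nat.le_of_mul_le_mul_left h2 (by positivity)

theorem point_card (M k : ℕ) : (univ.filter fun ζ : Fin M → Bool =>
    (univ.filter fun l => ζ l = true).card = k).card ≤ M.choose k := by
  have h : (powersetCard k (univ : Finset (Fin M))).card = M.choose k := by
    rw [card_powersetCard, card_univ, Fintype.card_fin]
  rw [← h]
  apply card_le_card_of_injOn (fun ζ => univ.filter fun l => ζ l = true)
  · intro ζ hζ
    rw [mem_coe, mem_filter] at hζ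
    rw [mem_coe, mem_powersetCard]
    exact ⟨subset_univ _, hζ.2⟩
  · intro ζ _ ξ _ hx
    funext l
    have h1 : (l ∈ univ.filter fun l => ζ l = true) ↔ (l ∈ univ.filter fun l => ξ l = true) := by
      have h2 : (univ.filter fun l => ζ l = true) = (univ.filter fun l => ξ l = true) := hx
      rw [h2]
    simp only [mem_filter, mem_univ, true_and] at h1
    cases h3 : ζ l <;> cases h4 : ξ l <;> simp_all

theorem point (m N' : ℕ) (hm : 0 < m) (hN : (16 * m) ^ 2 ≤ 2 * N' + 1) (k : ℕ) :
    Pr (fun ζ : Fin (2 * N') → Bool => (univ.filter fun l => ζ l = true).card = k)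
      ≤ 1 / (16 * m) := by
  unfold Pr
  have hmR : (0 : ℝ) < 16 * m := by
    have : (0 : ℝ) < m := by exact_mod_cast hm
    positivity
  rw [div_le_div_iff₀ (by positivity) hmR, one_mul, Fintype.card_fin]
  have hcard : (univ.filter fun ζ : Fin (2 * N') → Bool =>
      (univ.filter fun l => ζ l = true).card = k).card ≤ Nat.centralBinom N' :=
    (point_card (2 * N') k).trans (Nat.choose_le_centralBinom k N')
  have hmain : Nat.centralBinom N' * (16 * m) ≤ 2 ^ (2 * N') := by
    have h1 : (Nat.centralBinom N' * (16 * m)) ^ 2 ≤ (2 ^ (2 * N')) ^ 2 := by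
      calc (Nat.centralBinom N' * (16 * m)) ^ 2
          = Nat.centralBinom N' ^ 2 * (16 * m) ^ 2 := by ring
        _ ≤ Nat.centralBinom N' ^ 2 * (2 * N' + 1) := Nat.mul_le_mul_left _ hN
        _ ≤ 16 ^ N' := point_centralBinom N'
        _ = (2 ^ (2 * N')) ^ 2 := by
            rw [← pow_mul, show (16 : ℕ) = 2 ^ 4 by norm_num, ← pow_mul]
            congr 1
            ring
    exact (Nat.pow_le_pow_iff_left (by norm_num)).1 h1
  have h2 : (univ.filter fun ζ : Fin (2 * N') → Bool =>
      (univ.filter fun l => ζ l = true).card = k).card * (16 * m) ≤ 2 ^ (2 * N') :=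
    (Nat.mul_le_mul_right _ hcard).trans hmain
  have h3 : (((univ.filter fun ζ : Fin (2 * N') → Bool =>
      (univ.filter fun l => ζ l = true).card = k).card * (16 * m) : ℕ) : ℝ) ≤
      ((2 ^ (2 * N') : ℕ) : ℝ) := by exact_mod_cast h2
  push_cast at h3
  refine le_trans (le_of_eq ?_) h3
  congr
  exact Subsingleton.elim _ _

end Pool.Agent.CRH
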