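import Pool.Agent.CRH.Prob
import Pool.Agent.CRH.Point

/-!
# MODULE Diversity: many different values

`Y = Fin s × Fin m`, `val ζ y = base y + #{l | ζ (y, l) = true}` (independent for different `y`).
The theorem says: with probability `≥ 1 - 2^(-sm)` the pairs `(y.1, val y)` take at least `sm/2`
different values.

Paper proof. If `s * m = 0` the event is empty. Let `m > 0`.
For `r : Y → Option (Fin m)` let `E_r` be the event: for all `y`, `c` with `r y = some c` we have
`r (y.1, c) = none` and `val y = val (y.1, c)`. Let `k r = #{y | r y ≠ none}`.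
(a) If `2 * #image < s m` then `E_r` holds for some `r` with `s m < 2 * k r`: choose for each value
`(i, d)` of the map `y ↦ (y.1, val y)` one representative, put `r y = none` for representatives and
`r y = some c` if `(y.1, c)` is the representative of the class of `y` and `(y.1,c) ≠ y`. Then the
number of `y` with `r y = none` is `#image`, so `k r = s m - #image` and `2 k r > s m`.
(b) `Pr (E_r) ≤ (1/(16 m))^(k r)`. If `r y = some c` and `r (y.1,c) ≠ none` for some `y, c` the event
is empty. Otherwise fix all bits `ζ (y, l)` with `r y = none` (use `Pr_fiber` with the inclusion `j` of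
the `(y, l)`, `r y ≠ none`, or count directly): then for each `y` with `r y ≠ none` the count
`#{l | ζ (y,l) = true}` has to be one given number `k_y`; the number of `ζ` on
`{y | r y ≠ none} × Fin (2N')` with this property is the product over these `y` of the numbers for one
`y`, each at most `2^(2N') / (16 m)` by `point`.
(c) Union bound: `Pr ≤ ∑_{r : s m < 2 k r} (1/(16 m))^(k r)
  ≤ 4^(-s m) * ∑_r 16^(k r) (1/(16 m))^(k r)` (as `16^(k r) ≥ 4^(s m)` if `2 k r > s m`)
`= 4^(-s m) * ∑_r (1/m)^(k r) = 4^(-s m) * ∏_y (1 + m * (1/m)) = 4^(-s m) * 2^(s m) = 2^(-s m)`.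
(`∑_r ∏_y F(r y) = ∏_y ∑_o F(o)`: `Finset.prod_univ_sum` / `Fintype.piFinset`.)
-/

namespace Pool.Agent.CRH

open Finset

theorem dv_Pr_card {β : Type} [Fintype β] [Fintype (β → Bool)] (S : (β → Bool) → Prop)
    [DecidablePred S] :
    Pr S = ((univ.filter fun a => S a).card : ℝ) / 2 ^ Fintype.card β := by
  unfold Pr
  congr 2
  congr 1
  ext a
  simp only [mem_filter, mem_univ, true_and]

open scoped Classical in
/-- Independence of blocks of bits. -/
theorem dv_Pr_pi {I L : Type} [Fintype I] [Fintype L] (P : I → (L → Bool) → Prop) :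
    Pr (fun η : I × L → Bool => ∀ y, P y (fun l => η (y, l))) = ∏ y, Pr (P y) := by
  rw [dv_Pr_card]
  simp_rw [dv_Pr_card (P _)]
  rw [Finset.prod_div_distrib, Finset.prod_const, Finset.card_univ]
  have h1 : (univ.filter (fun η : I × L → Bool => ∀ y, P y (fun l => η (y, l)))).card =
      ∏ y, (univ.filter (fun ζ : L → Bool => P y ζ)).card := by
    rw [← Fintype.card_piFinset]
    apply Finset.card_bij (fun η _ => fun y l => η (y, l))
    · intro η hη
      rw [Fintype.mem_piFinset]
      intro y
      simp only [mem_filter, mem_univ, true_and] at hη ⊢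
      exact hη y
    · intro η _ η' _ h
      funext ⟨y, l⟩
      exact congrFun (congrFun h y) l
    · intro θ hθ
      refine ⟨fun yl => θ yl.1 yl.2, ?_, rfl⟩
      simp only [mem_filter, mem_univ, true_and]
      intro y
      have := Fintype.mem_piFinset.1 hθ y
      simpa using this
  rw [h1, Fintype.card_prod, pow_mul', ← pow_mul]
  push_cast
  rfl

/-- the value of `y` -/
noncomputable def dvVal {s m N' : ℕ} (base : Fin s × Fin m → ℕ)
    (ζ : (Fin s × Fin m) × Fin (2 * N') → Bool) (y : Fin s × Fin m) : ℕ :=
  base y + (univ.filter fun l => ζ (y, l) = true).card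

/-- the event attached to a pattern -/
def dvE {s m N' : ℕ} (base : Fin s × Fin m → ℕ) (r : Fin s × Fin m → Option (Fin m))
    (ζ : (Fin s × Fin m) × Fin (2 * N') → Bool) : Prop :=
  ∀ y c, r y = some c → r (y.1, c) = none ∧ dvVal base ζ y = dvVal base ζ (y.1, c)

open scoped Classical in
theorem dv_exists {s m N' : ℕ} (base : Fin s × Fin m → ℕ)
    (ζ : (Fin s × Fin m) × Fin (2 * N') → Bool)
    (h : 2 * (univ.image fun y : Fin s × Fin m => (y.1, dvVal base ζ y)).card < s * m) :
    ∃ r : Fin s × Fin m → Option (Fin m), dvE base r ζ ∧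
      s * m < 2 * (univ.filter fun y => r y ≠ none).card := by
  have hne : Nonempty (Fin s × Fin m) := by
    have hpos : 0 < s * m := by omega
    have hs : 0 < s := Nat.pos_of_mul_pos_right hpos
    have hm : 0 < m := Nat.pos_of_mul_pos_left hpos
    exact ⟨⟨0, hs⟩, ⟨0, hm⟩⟩
  set f : Fin s × Fin m → Fin s × ℕ := fun y => (y.1, dvVal base ζ y) with hf
  set rep : Fin s × Fin m → Fin s × Fin m := fun y => Function.invFun f (f y) with hrep
  have h1 : ∀ y, f (rep y) = f y := fun y => Function.invFun_eq ⟨y, rfl⟩
  have h2 : ∀ y, rep (rep y) = rep y := by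
    intro y
    show Function.invFun f (f (rep y)) = _
    rw [h1]
  have h3 : ∀ y, (rep y).1 = y.1 := fun y => (Prod.ext_iff.1 (h1 y)).1
  have h4 : ∀ y, dvVal base ζ (rep y) = dvVal base ζ y := fun y => (Prod.ext_iff.1 (h1 y)).2
  refine ⟨fun y => if rep y = y then none else some (rep y).2, ?_, ?_⟩
  · intro y c hc
    beta_reduce at hc ⊢
    by_cases hy : rep y = y
    · rw [if_pos hy] at hc
      exact absurd hc (by simp)
    · rw [if_neg hy] at hc
      have hc' : (rep y).2 = c := by simpa using hc
      have h5 : (y.1, c) = rep y := by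
        rw [← hc', ← h3 y]
      refine ⟨?_, ?_⟩
      · simp only [h5, h2, if_true]
      · rw [h5, h4]
  · have h6 : (univ.filter fun y => rep y = y).card ≤ (univ.image f).card := by
      apply Finset.card_le_card_of_injOn f
      · intro y _
        exact Finset.mem_coe.2 (Finset.mem_image_of_mem f (mem_univ y))
      · intro y hy y' hy' hyy
        simp only [coe_filter, mem_univ, true_and, Set.mem_ofPred_eq] at hy hy'
        have : rep y = rep y' := by
          show Function.invFun f (f y) = Function.invFun f (f y')
          rw [hyy]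
        rw [← hy, ← hy', this]
    have h7 : (univ.filter fun y => (if rep y = y then (none : Option (Fin m)) else
        some (rep y).2) ≠ none) = univ.filter fun y => ¬ rep y = y := by
      ext y
      simp only [mem_filter, mem_univ, true_and]
      by_cases hy : rep y = y
      · simp [hy]
      · simp [hy]
    rw [h7]
    have h8 := Finset.card_filter_add_card_filter_not (s := (univ : Finset (Fin s × Fin m)))
      (fun y => rep y = y)
    rw [Finset.card_univ, Fintype.card_prod, Fintype.card_fin, Fintype.card_fin] at h8
    omega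

open scoped Classical in
theorem dv_prob {s m N' : ℕ} (hm : 0 < m) (hN : (16 * m) ^ 2 ≤ 2 * N' + 1)
    (base : Fin s × Fin m → ℕ) (r : Fin s × Fin m → Option (Fin m)) :
    Pr (fun ζ : (Fin s × Fin m) × Fin (2 * N') → Bool => dvE base r ζ) ≤
      (1 / (16 * m)) ^ (univ.filter fun y => r y ≠ none).card := by
  by_cases hval : ∀ y c, r y = some c → r (y.1, c) = none
  · let I := {y : Fin s × Fin m // r y ≠ none}
    let j : I × Fin (2 * N') → (Fin s × Fin m) × Fin (2 * N') := fun yl => (yl.1.1, yl.2)
    have hj : Function.Injective j := by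
      rintro ⟨y, l⟩ ⟨y', l'⟩ h
      simp only [j, Prod.mk.injEq] at h
      obtain ⟨h1, h2⟩ := h
      exact Prod.ext (Subtype.ext h1) h2
    apply Pr_fiber j hj
    intro a
    -- the prescribed counts
    let kk : I → ℕ := fun y => match r y.1 with
      | none => 0
      | some c => dvVal base a (y.1.1, c) - base y.1
    have hcard : (univ.filter fun y => r y ≠ none).card = Fintype.card I := by
      show _ = Fintype.card {y : Fin s × Fin m // r y ≠ none}
      rw [Fintype.card_subtype]
    have hstep : Pr (fun η : I × Fin (2 * N') → Bool => dvE base r (Function.extend j η a)) ≤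
        Pr (fun η : I × Fin (2 * N') → Bool => ∀ y : I,
          (univ.filter fun l => η (y, l) = true).card = kk y) := by
      apply Pr_mono
      intro η hη y
      obtain ⟨c, hc⟩ := Option.ne_none_iff_exists'.1 y.2
      obtain ⟨h1, h2⟩ := hη y.1 c hc
      have h3 : kk y = dvVal base a (y.1.1, c) - base y.1 := by
        simp only [kk, hc]
      have h4 : dvVal base (Function.extend j η a) y.1 =
          base y.1 + (univ.filter fun l => η (y, l) = true).card := by
        unfold dvVal
        congr 2
        ext l
        simp only [mem_filter, mem_univ, true_and]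
        have : Function.extend j η a (y.1, l) = η (y, l) := hj.extend_apply η a (y, l)
        rw [this]
      have h5 : dvVal base (Function.extend j η a) (y.1.1, c) = dvVal base a (y.1.1, c) := by
        unfold dvVal
        congr 2
        ext l
        simp only [mem_filter, mem_univ, true_and]
        have : Function.extend j η a ((y.1.1, c), l) = a ((y.1.1, c), l) := by
          apply Function.extend_apply'
          rintro ⟨⟨y', l'⟩, h6⟩
          simp only [j, Prod.mk.injEq] at h6
          apply y'.2
          rw [h6.1]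
          exact h1
        rw [this]
      rw [h3, ← h5, ← h2, h4]
      omega
    refine hstep.trans ?_
    have hpi := dv_Pr_pi (fun (y : I) (ζ : Fin (2 * N') → Bool) =>
      (univ.filter fun l => ζ l = true).card = kk y)
    rw [hpi, hcard, ← Finset.card_univ, ← Finset.prod_const]
    apply Finset.prod_le_prod
    · intro y _
      exact Pr_nonneg _
    · intro y _
      exact point m N' hm hN (kk y)
  · have : Pr (fun ζ : (Fin s × Fin m) × Fin (2 * N') → Bool => dvE base r ζ) = 0 := by
      rw [dv_Pr_card]
      have h0 : (univ.filter fun ζ : (Fin s × Fin m) × Fin (2 * N') → Bool => dvE base r ζ) = ∅ := by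
        rw [Finset.filter_eq_empty_iff]
        intro ζ _ hζ
        exact hval (fun y c hc => (hζ y c hc).1)
      rw [h0]
      simp
    rw [this]
    positivity

open scoped Classical in
theorem dv_sum {s m : ℕ} (hm : 0 < m) :
    ∑ r : Fin s × Fin m → Option (Fin m),
      (1 / (m : ℝ)) ^ (univ.filter fun y => r y ≠ none).card = 2 ^ (s * m) := by
  have h1 : ∀ r : Fin s × Fin m → Option (Fin m),
      (1 / (m : ℝ)) ^ (univ.filter fun y => r y ≠ none).card =
        ∏ y, (if r y ≠ none then (1 / (m : ℝ)) else 1) := by
    intro r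
    rw [Finset.prod_ite, Finset.prod_const, Finset.prod_const_one, mul_one]
  simp_rw [h1]
  have h2 := (Finset.prod_univ_sum (fun _ : Fin s × Fin m => (univ : Finset (Option (Fin m))))
    (fun _ o => (if o ≠ none then (1 / (m : ℝ)) else 1))).symm
  rw [Fintype.piFinset_univ] at h2
  rw [h2]
  have h3 : ∑ o : Option (Fin m), (if o ≠ none then (1 / (m : ℝ)) else 1) = 2 := by
    rw [Fintype.sum_option]
    simp only [ne_eq, not_true_eq_false, if_false, reduceCtorEq, not_false_eq_true, if_true,
      Finset.sum_const, Finset.card_univ, Fintype.card_fin, nsmul_eq_mul]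
    have : (m : ℝ) ≠ 0 := by positivity
    field_simp
    norm_num
  rw [h3, Finset.prod_const, Finset.card_univ, Fintype.card_prod, Fintype.card_fin,
    Fintype.card_fin]

open scoped Classical in
theorem diversity (s m N' : ℕ) (hN : (16 * m) ^ 2 ≤ 2 * N' + 1) (base : Fin s × Fin m → ℕ) :
    Pr (fun ζ : (Fin s × Fin m) × Fin (2 * N') → Bool =>
      2 * (univ.image fun y : Fin s × Fin m =>
        (y.1, base y + (univ.filter fun l => ζ (y, l) = true).card)).card < s * m)
      ≤ (1 / 2) ^ (s * m) := by
  rcases Nat.eq_zero_or_pos (s * m) with h0 | hpos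
  · rw [h0, pow_zero]
    exact Pr_le_one _
  have hm : 0 < m := Nat.pos_of_mul_pos_left hpos
  have hmR : (0 : ℝ) < m := by exact_mod_cast hm
  set R : Finset (Fin s × Fin m → Option (Fin m)) :=
    univ.filter (fun r => s * m < 2 * (univ.filter fun y => r y ≠ none).card) with hR
  have hstep : Pr (fun ζ : (Fin s × Fin m) × Fin (2 * N') → Bool =>
      2 * (univ.image fun y : Fin s × Fin m =>
        (y.1, base y + (univ.filter fun l => ζ (y, l) = true).card)).card < s * m) ≤
      Pr (fun ζ : (Fin s × Fin m) × Fin (2 * N') → Bool => ∃ r ∈ R, dvE base r ζ) := by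
    apply Pr_mono
    intro ζ hζ
    obtain ⟨r, h1, h2⟩ := dv_exists base ζ hζ
    exact ⟨r, Finset.mem_filter.2 ⟨mem_univ _, h2⟩, h1⟩
  refine hstep.trans ((Pr_union R _).trans ?_)
  have hbd : ∀ r ∈ R, Pr (fun ζ : (Fin s × Fin m) × Fin (2 * N') → Bool => dvE base r ζ) ≤
      (1 / 4) ^ (s * m) * (1 / (m : ℝ)) ^ (univ.filter fun y => r y ≠ none).card := by
    intro r hr
    have hr' := (Finset.mem_filter.1 hr).2
    refine (dv_prob hm hN base r).trans ?_
    set k := (univ.filter fun y => r y ≠ none).card with hk
    have e1 : (1 / (16 * (m : ℝ))) ^ k = (1 / 4) ^ (2 * k) * (1 / (m : ℝ)) ^ k := by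
      rw [pow_mul, ← mul_pow]
      congr 1
      field_simp
      norm_num
    rw [e1]
    apply mul_le_mul_of_nonneg_right _ (by positivity)
    exact pow_le_pow_of_le_one (by norm_num) (by norm_num) hr'.le
  refine (Finset.sum_le_sum hbd).trans ?_
  rw [← Finset.mul_sum]
  have h5 : ∑ r ∈ R, (1 / (m : ℝ)) ^ (univ.filter fun y => r y ≠ none).card ≤ 2 ^ (s * m) := by
    rw [← dv_sum (s := s) hm]
    apply Finset.sum_le_sum_of_subset_of_nonneg (Finset.subset_univ _)
    intro r _ _
    positivity
  refine (mul_le_mul_of_nonneg_left h5 (by positivity)).trans (le_of_eq ?_)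
  rw [← mul_pow]
  norm_num

end Pool.Agent.CRH
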