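import Pool.Agent.CRH.Defs

/-!
# MODULE Flip: uniformly random subset = uniformly random bits

Let `F` be a finset of non-loops (`F ⊆ H.edgeFinset` for some graph `H`), `H' = fromEdgeSet F`. For
`a : Sym2 V → Bool` let `S(a) = {e ∈ F | a e = true ↔ e ∉ G₀.edgeSet}`; then
`gr G₀ H' a = G₀ ∆ fromEdgeSet (S(a))` (check adjacency of `u ≠ v`: outside `F` both are `G₀.Adj u v`; for
`s(u,v) ∈ F`: left `a s(u,v) = true`, right `G₀.Adj u v xor s(u,v) ∈ S(a)`). Each `S ⊆ F` is `S(a)` for
exactly `2^(|Sym2 V| - #F)` bit vectors `a` (the bits in `F` are determined, the others free). Hence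
the formula.
-/

namespace Pool.Agent.CRH

open Finset
open scoped symmDiff

open scoped Classical in
/-- the flipped pairs -/
noncomputable def flT {V : Type} [Fintype V] [DecidableEq V] (G₀ : SimpleGraph V)
    (F : Finset (Sym2 V)) (a : Sym2 V → Bool) : Finset (Sym2 V) :=
  F.filter (fun e => a e = true ↔ e ∉ G₀.edgeSet)

theorem fl_gr {V : Type} [Fintype V] [DecidableEq V] (G₀ : SimpleGraph V) (F : Finset (Sym2 V))
    (hF : ∀ e ∈ F, ¬ e.IsDiag) (a : Sym2 V → Bool) :
    gr G₀ (SimpleGraph.fromEdgeSet (F : Set (Sym2 V))) a =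
      G₀ ∆ SimpleGraph.fromEdgeSet (flT G₀ F a : Set (Sym2 V)) := by
  classical
  ext u v
  rw [symmDiff_def]
  simp only [SimpleGraph.sup_adj, SimpleGraph.sdiff_adj, SimpleGraph.fromEdgeSet_adj, gr,
    Finset.mem_coe]
  by_cases hmem : s(u, v) ∈ F
  · have huv : u ≠ v := by
      intro h
      exact hF _ hmem (by rw [h]; exact Sym2.mk_isDiag_iff.2 rfl)
    have hT : s(u, v) ∈ flT G₀ F a ↔ (a s(u, v) = true ↔ ¬ G₀.Adj u v) := by
      unfold flT
      rw [Finset.mem_filter, SimpleGraph.mem_edgeSet]
      exact ⟨fun h => h.2, fun h => ⟨hmem, h⟩⟩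
    rw [if_pos ⟨hmem, huv⟩, hT]
    by_cases h1 : G₀.Adj u v <;> by_cases h2 : a s(u, v) = true <;> simp [h1, h2, huv]
  · have hT : s(u, v) ∉ flT G₀ F a := by
      unfold flT
      rw [Finset.mem_filter]
      exact fun h => hmem h.1
    rw [if_neg (fun h => hmem h.1)]
    simp [hT]

open scoped Classical in
theorem fl_card {V : Type} [Fintype V] [DecidableEq V] (G₀ : SimpleGraph V) (F S : Finset (Sym2 V))
    (hS : S ⊆ F) : (univ.filter fun a : Sym2 V → Bool => flT G₀ F a = S).card =
      2 ^ (Fᶜ : Finset (Sym2 V)).card := by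
  have hT : ∀ a : Sym2 V → Bool, flT G₀ F a = S → ∀ e ∈ F,
      ((a e = true ↔ e ∉ G₀.edgeSet) ↔ e ∈ S) := by
    intro a ha e he
    rw [← ha, flT, Finset.mem_filter]
    exact ⟨fun h => ⟨he, h⟩, fun h => h.2⟩
  rw [← Finset.card_powerset]
  apply Finset.card_nbij' (fun a : Sym2 V → Bool => (Fᶜ : Finset (Sym2 V)).filter (fun e => a e = true))
    (fun (B : Finset (Sym2 V)) (e : Sym2 V) =>
      if e ∈ F then decide (e ∈ S ↔ e ∉ G₀.edgeSet) else decide (e ∈ B))
  · intro a _
    rw [Finset.mem_coe, Finset.mem_powerset]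
    exact Finset.filter_subset _ _
  · intro B _
    rw [Finset.mem_coe, Finset.mem_filter]
    refine ⟨Finset.mem_univ _, ?_⟩
    ext e
    unfold flT
    rw [Finset.mem_filter]
    constructor
    · rintro ⟨he, h⟩
      beta_reduce at h
      rw [if_pos he, decide_eq_true_iff] at h
      tauto
    · intro he
      refine ⟨hS he, ?_⟩
      beta_reduce
      rw [if_pos (hS he), decide_eq_true_iff]
      tauto
  · intro a ha
    rw [Finset.mem_coe, Finset.mem_filter] at ha
    funext e
    by_cases he : e ∈ F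
    · have h1 := hT a ha.2 e he
      simp only [if_pos he]
      by_cases h2 : a e = true
      · rw [h2, decide_eq_true_iff]
        rw [← h1]
        simp [h2]
      · have h3 : a e = false := by simpa using h2
        rw [h3, decide_eq_false_iff_not, ← h1]
        simp [h3]
    · simp only [if_neg he]
      by_cases h2 : a e = true
      · rw [h2, decide_eq_true_iff, Finset.mem_filter]
        exact ⟨Finset.mem_compl.2 he, h2⟩
      · have h3 : a e = false := by simpa using h2
        rw [h3, decide_eq_false_iff_not, Finset.mem_filter]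
        exact fun h => h2 h.2
  · intro B hB
    rw [Finset.mem_coe, Finset.mem_powerset] at hB
    ext e
    rw [Finset.mem_filter, Finset.mem_compl]
    constructor
    · rintro ⟨he, h⟩
      beta_reduce at h
      rw [if_neg he, decide_eq_true_iff] at h
      exact h
    · intro he
      have he' := Finset.mem_compl.1 (hB he)
      refine ⟨he', ?_⟩
      beta_reduce
      rw [if_neg he', decide_eq_true_iff]
      exact he

open scoped Classical in
theorem flip {V : Type} [Fintype V] [DecidableEq V] (G₀ : SimpleGraph V) (F : Finset (Sym2 V))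
    (hF : ∀ e ∈ F, ¬ e.IsDiag) (Φ : SimpleGraph V → Prop) :
    (∑ S ∈ F.powerset,
        (if Φ (G₀ ∆ SimpleGraph.fromEdgeSet (S : Set (Sym2 V))) then (1 : ℝ) else 0)) / 2 ^ F.card =
      Pr (fun a : Sym2 V → Bool =>
        Φ (gr G₀ (SimpleGraph.fromEdgeSet (F : Set (Sym2 V))) a)) := by
  have h1 : ((univ.filter fun a : Sym2 V → Bool =>
      Φ (gr G₀ (SimpleGraph.fromEdgeSet (F : Set (Sym2 V))) a)).card : ℝ) =
      (∑ S ∈ F.powerset,
        (if Φ (G₀ ∆ SimpleGraph.fromEdgeSet (S : Set (Sym2 V))) then (1 : ℝ) else 0)) *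
        2 ^ (Fᶜ : Finset (Sym2 V)).card := by
    rw [Finset.card_eq_sum_card_fiberwise (f := fun a => flT G₀ F a) (t := F.powerset)]
    · push_cast
      rw [Finset.sum_mul]
      apply Finset.sum_congr rfl
      intro S hS
      rw [Finset.mem_powerset] at hS
      rw [Finset.filter_filter]
      by_cases hΦ : Φ (G₀ ∆ SimpleGraph.fromEdgeSet (S : Set (Sym2 V)))
      · rw [if_pos hΦ, one_mul]
        have h2 : (univ.filter fun a : Sym2 V → Bool =>
            Φ (gr G₀ (SimpleGraph.fromEdgeSet (F : Set (Sym2 V))) a) ∧ flT G₀ F a = S) =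
            univ.filter fun a : Sym2 V → Bool => flT G₀ F a = S := by
          apply Finset.filter_congr
          intro a _
          constructor
          · exact fun h => h.2
          · intro h
            refine ⟨?_, h⟩
            rw [fl_gr G₀ F hF, h]
            exact hΦ
        rw [h2, fl_card G₀ F S hS]
        push_cast
        rfl
      · rw [if_neg hΦ, zero_mul]
        have h2 : (univ.filter fun a : Sym2 V → Bool =>
            Φ (gr G₀ (SimpleGraph.fromEdgeSet (F : Set (Sym2 V))) a) ∧ flT G₀ F a = S) = ∅ := by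
          apply Finset.filter_eq_empty_iff.2
          rintro a _ ⟨h3, h4⟩
          rw [fl_gr G₀ F hF, h4] at h3
          exact hΦ h3
        rw [h2]
        simp
    · intro a _
      rw [Finset.mem_coe, Finset.mem_powerset]
      exact Finset.filter_subset _ _
  have h4 : Pr (fun a : Sym2 V → Bool =>
        Φ (gr G₀ (SimpleGraph.fromEdgeSet (F : Set (Sym2 V))) a)) =
        ((univ.filter fun a : Sym2 V → Bool =>
      Φ (gr G₀ (SimpleGraph.fromEdgeSet (F : Set (Sym2 V))) a)).card : ℝ) /
        2 ^ Fintype.card (Sym2 V) := by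
    unfold Pr
    congr 2
    congr 1
    ext b
    simp only [mem_filter, mem_univ, true_and]
  rw [h4, h1]
  have h3 : Fintype.card (Sym2 V) = F.card + (Fᶜ : Finset (Sym2 V)).card :=
    (Finset.card_add_card_compl F).symm
  rw [h3, pow_add]
  field_simp

end Pool.Agent.CRH
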