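import Pool.Agent.CRH.Defs

/-!
# MODULE Group: a counting lemma

Paper proof. For each value `c ∈ J.image g` choose a representative `y_c ∈ J` with `g y_c = c` and let
`P` be the set of the representatives (`#P = #(J.image g)`). The map `η ↦ (t η, η restricted to the
complement of P)` is injective on `{η | S η}`: let `S η`, `S η'`, `t η = t η'` and `η = η'` off `P`.
Then `η = η'` off `J`, so for every `c` the numbers of `y ∈ J` with `g y = c` and `η y = true` resp.
`η' y = true` are equal. In the group `g y = c` of `J` only the element `y_c` may have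
`η y_c ≠ η' y_c`, all other elements have the same bits, so `η y_c = η' y_c`. So `η = η'`.
Hence `#{η | S η} ≤ |T| * 2^(|Y| - #P)`.
-/

namespace Pool.Agent.CRH

open Finset

open scoped Classical in
theorem Pr_group {Y T ι : Type} [Fintype Y] [Fintype T] (S : (Y → Bool) → Prop)
    (t : (Y → Bool) → T) (J : Finset Y) (g : Y → ι)
    (h : ∀ η η' : Y → Bool, S η → S η' → t η = t η' → (∀ y, y ∉ J → η y = η' y) →
      ∀ c, (J.filter fun y => g y = c ∧ η y = true).card
        = (J.filter fun y => g y = c ∧ η' y = true).card) :
    Pr S ≤ Fintype.card T * (1 / 2) ^ (J.image g).card := by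
  obtain ⟨P, hPJ, hPinj, hPim⟩ := Finset.exists_subset_injOn_image_eq_of_surjOn (f := g)
    J (J.image g) (by
      intro c hc
      rw [Finset.mem_coe, Finset.mem_image] at hc
      obtain ⟨y, hy, rfl⟩ := hc
      exact ⟨y, hy, rfl⟩)
  have hPcard : (J.image g).card = P.card := by
    rw [← hPim]
    exact Finset.card_image_of_injOn hPinj
  have hinj : Set.InjOn (fun η : Y → Bool => ((t η, fun y : {y : Y // y ∉ P} => η y) :
      T × ({y : Y // y ∉ P} → Bool))) (univ.filter fun η : Y → Bool => S η) := by
    intro η hη η' hη' heq
    simp only [coe_filter, mem_univ, true_and, Set.mem_ofPred_eq] at hη hη'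
    simp only [Prod.mk.injEq] at heq
    obtain ⟨ht, hr⟩ := heq
    have hoff : ∀ y, y ∉ P → η y = η' y := fun y hy => congrFun hr ⟨y, hy⟩
    have hcnt := h η η' hη hη' ht (fun y hy => hoff y (fun hyP => hy (hPJ hyP)))
    funext y
    by_cases hy : y ∈ P
    · have hc := hcnt (g y)
      have key : ∀ θ : Y → Bool, (J.filter fun z => g z = g y ∧ θ z = true).card =
          ((J.erase y).filter fun z => g z = g y ∧ θ z = true).card +
            (if θ y = true then 1 else 0) := by
        intro θ
        have hJ : J = insert y (J.erase y) := (Finset.insert_erase (hPJ hy)).symm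
        conv_lhs => rw [hJ]
        rw [Finset.filter_insert]
        by_cases hθ : θ y = true
        · rw [if_pos ⟨rfl, hθ⟩, if_pos hθ, Finset.card_insert_of_notMem]
          simp
        · rw [if_neg (fun hh => hθ hh.2), if_neg hθ, add_zero]
      have hsame : ((J.erase y).filter fun z => g z = g y ∧ η z = true) =
          ((J.erase y).filter fun z => g z = g y ∧ η' z = true) := by
        apply Finset.filter_congr
        intro z hz
        rw [Finset.mem_erase] at hz
        constructor
        · rintro ⟨h1, h2⟩
          refine ⟨h1, ?_⟩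
          rw [← hoff z (fun hzP => hz.1 (hPinj hzP hy h1))]
          exact h2
        · rintro ⟨h1, h2⟩
          refine ⟨h1, ?_⟩
          rw [hoff z (fun hzP => hz.1 (hPinj hzP hy h1))]
          exact h2
      rw [key η, key η', hsame] at hc
      have hc' := Nat.add_left_cancel hc
      cases h1 : η y <;> cases h2 : η' y <;> simp [h1, h2] at hc' ⊢
    · exact hoff y hy
  have hcard : (univ.filter fun η : Y → Bool => S η).card ≤
      Fintype.card T * 2 ^ Fintype.card {y : Y // y ∉ P} := by
    have h1 := Finset.card_le_card_of_injOn (t := (univ : Finset (T × ({y : Y // y ∉ P} → Bool))))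
      _ (fun _ _ => Finset.mem_coe.2 (Finset.mem_univ _)) hinj
    rw [Finset.card_univ, Fintype.card_prod, Fintype.card_fun, Fintype.card_bool] at h1
    exact h1
  have hcompl : Fintype.card {y : Y // y ∉ P} + P.card = Fintype.card Y := by
    have h1 : Fintype.card {y : Y // y ∉ P} = Fintype.card Y - P.card := by
      rw [Fintype.card_subtype_compl, Fintype.card_coe]
    rw [h1]
    exact Nat.sub_add_cancel (Finset.card_le_univ P)
  unfold Pr
  rw [div_le_iff₀ (by positivity), hPcard, ← hcompl, pow_add]
  have h2 : (1 / 2 : ℝ) ^ P.card * 2 ^ P.card = 1 := by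
    rw [← mul_pow]
    norm_num
  calc ((univ.filter fun η : Y → Bool => S η).card : ℝ)
      ≤ (Fintype.card T : ℝ) * 2 ^ Fintype.card {y : Y // y ∉ P} := by exact_mod_cast hcard
    _ = (Fintype.card T : ℝ) * 2 ^ Fintype.card {y : Y // y ∉ P} *
        ((1 / 2 : ℝ) ^ P.card * 2 ^ P.card) := by rw [h2, mul_one]
    _ = Fintype.card T * (1 / 2) ^ P.card * (2 ^ Fintype.card {y : Y // y ∉ P} * 2 ^ P.card) := by
        ring

end Pool.Agent.CRH
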