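import Pool.Agent.CRH.Defs

/-!
# MODULE Ident: a discrete colouring identifies the graph

Paper proof. From `hist G (k+1) = hist G' (k+1)` there is a permutation `σ` of `V` with
`col G' (k+1) (σ v) = col G (k+1) v` for all `v` (`Multiset.map_univ_eq_iff` or similar). So
`col G' k (σ v) = col G k v` (first component) and `col G' k` is injective too. By the second
component, for all `u`: `{col G k y | y ∈ N_G(u)} = {col G' k y' | y' ∈ N_G'(σ u)}` as multisets. Hence
`G.Adj u v` iff `col G k v` is in the left multiset (injectivity of `col G k`) iff `col G' k (σ v)` is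
in the right multiset iff `G'.Adj (σ u) (σ v)`.
-/

namespace Pool.Agent.CRH

open Finset

theorem exists_perm_of_map_eq {V C : Type} [Fintype V] (f g : V → C)
    (h : (univ : Finset V).val.map f = (univ : Finset V).val.map g) :
    ∃ σ : Equiv.Perm V, ∀ v, g (σ v) = f v := by
  classical
  have hc : ∀ c, Fintype.card {v // f v = c} = Fintype.card {v // g v = c} := by
    intro c
    have h1 := congrArg (Multiset.count c) h
    rw [Multiset.count_map, Multiset.count_map] at h1
    rw [Fintype.card_subtype, Fintype.card_subtype]
    have e1 : (univ.filter fun v => f v = c) = univ.filter fun v => c = f v :=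
      Finset.filter_congr (fun v _ => eq_comm)
    have e2 : (univ.filter fun v => g v = c) = univ.filter fun v => c = g v :=
      Finset.filter_congr (fun v _ => eq_comm)
    rw [e1, e2]
    exact h1
  exact ⟨Equiv.ofFiberEquiv (fun c => Fintype.equivOfCardEq (hc c)),
    fun v => Equiv.ofFiberEquiv_map _ v⟩

theorem identifies {V : Type} [Fintype V] (G G' : SimpleGraph V) (k : ℕ)
    (hinj : Function.Injective (col G k)) (h : hist G (k + 1) = hist G' (k + 1)) :
    Nonempty (G ≃g G') := by
  classical
  unfold hist at h
  obtain ⟨σ, hσ⟩ := exists_perm_of_map_eq _ _ h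
  have h0 : ∀ v, col G (k + 1) v = col G' (k + 1) (σ v) := fun v => (hσ v).symm
  have h1 : ∀ v, col G k v = col G' k (σ v) := fun v => congrArg Prod.fst (h0 v)
  have h2 : ∀ v, (univ.filter fun y => G.Adj v y).val.map (col G k) =
      (univ.filter fun y => G'.Adj (σ v) y).val.map (col G' k) := fun v => congrArg Prod.snd (h0 v)
  have hinj' : Function.Injective (col G' k) := by
    intro a b hab
    have e1 := h1 (σ.symm a)
    have e2 := h1 (σ.symm b)
    rw [Equiv.apply_symm_apply] at e1 e2
    have e3 : col G k (σ.symm a) = col G k (σ.symm b) := by rw [e1, e2, hab]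
    exact σ.symm.injective (hinj e3)
  have key : ∀ u v, G'.Adj (σ u) (σ v) ↔ G.Adj u v := by
    intro u v
    have a1 : col G k v ∈ (univ.filter fun y => G.Adj u y).val.map (col G k) ↔ G.Adj u v := by
      rw [Multiset.mem_map]
      constructor
      · rintro ⟨y, hy, hyv⟩
        rw [hinj hyv] at hy
        simpa using hy
      · intro huv
        exact ⟨v, by simpa using huv, rfl⟩
    have a2 : col G' k (σ v) ∈ (univ.filter fun y => G'.Adj (σ u) y).val.map (col G' k) ↔
        G'.Adj (σ u) (σ v) := by
      rw [Multiset.mem_map]
      constructor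
      · rintro ⟨y, hy, hyv⟩
        rw [hinj' hyv] at hy
        simpa using hy
      · intro huv
        exact ⟨σ v, by simpa using huv, rfl⟩
    rw [← a1, ← a2, h2 u, h1 v]
  exact ⟨⟨σ, fun {u v} => key u v⟩⟩

end Pool.Agent.CRH
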