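import Pool.Agent.CRH.Uniform
import Pool.Agent.CRH.Ident
import Pool.Agent.CRH.Flip

/-!
# Random graphs with independent edges: reduction to fair bits
-/

namespace Pool.Agent.CRH

open Finset
open scoped symmDiff

open scoped Classical in
/-- the (unordered) pairs of different vertices -/
noncomputable def prs (V : Type) [Fintype V] [DecidableEq V] : Finset (Sym2 V) :=
  univ.filter fun e => ¬ e.IsDiag

open scoped Classical in
/-- The probability of the graph `G` in the model in which every pair `e` of different vertices is an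
edge with probability `x e`, independently for all pairs. -/
noncomputable def mass {V : Type} [Fintype V] [DecidableEq V] (x : Sym2 V → ℝ) (G : SimpleGraph V) : ℝ :=
  ∏ e ∈ prs V, if e ∈ G.edgeSet then x e else 1 - x e

open scoped Classical in
/-- The probability that the random graph with edge probabilities `x e` (independent edges) has
the property `Φ`. -/
noncomputable def prob {V : Type} [Fintype V] [DecidableEq V] (x : Sym2 V → ℝ) (Φ : SimpleGraph V → Prop) : ℝ :=
  ∑ G : SimpleGraph V, if Φ G then mass x G else 0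

open scoped Classical in
/-- the pairs containing `v` -/
noncomputable def inc {V : Type} [Fintype V] [DecidableEq V] (v : V) : Finset (Sym2 V) :=
  (prs V).filter fun e => v ∈ e

/-! ### sums over graphs and sums over sets of pairs -/

theorem mem_prs {V : Type} [Fintype V] [DecidableEq V] (e : Sym2 V) : e ∈ prs V ↔ ¬ e.IsDiag := by
  classical
  simp [prs]

open scoped Classical in
theorem sum_graphs {V : Type} [Fintype V] [DecidableEq V] (f : SimpleGraph V → ℝ) :
    ∑ G : SimpleGraph V, f G =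
      ∑ S ∈ (prs V).powerset, f (SimpleGraph.fromEdgeSet (S : Set (Sym2 V))) := by
  symm
  apply Finset.sum_bij (fun (S : Finset (Sym2 V)) _ => SimpleGraph.fromEdgeSet (S : Set (Sym2 V)))
  · intro S _
    exact Finset.mem_univ _
  · intro S hS T hT h
    have h1 : ∀ S ∈ (prs V).powerset,
        (SimpleGraph.fromEdgeSet (S : Set (Sym2 V))).edgeSet = (S : Set (Sym2 V)) := by
      intro S hS
      rw [SimpleGraph.edgeSet_fromEdgeSet]
      ext e
      simp only [Set.mem_sdiff, mem_coe, Sym2.diagSet, Set.mem_ofPred_eq]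
      constructor
      · exact fun h => h.1
      · intro h
        exact ⟨h, (mem_prs e).mp (Finset.mem_powerset.mp hS h)⟩
    have h2 := h1 S hS
    rw [h, h1 T hT] at h2
    exact_mod_cast h2.symm
  · intro G _
    refine ⟨(prs V).filter fun e => e ∈ G.edgeSet, ?_, ?_⟩
    · rw [Finset.mem_powerset]
      exact Finset.filter_subset _ _
    · ext u v
      rw [SimpleGraph.fromEdgeSet_adj]
      simp only [mem_coe, mem_filter, mem_prs, Sym2.mk_isDiag_iff, SimpleGraph.mem_edgeSet]
      constructor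
      · exact fun h => h.1.2
      · intro h
        exact ⟨⟨h.ne, h⟩, h.ne⟩
  · intro S _
    rfl

theorem mem_edgeSet_fromEdgeSet {V : Type} (S : Set (Sym2 V)) (e : Sym2 V) (he : ¬ e.IsDiag) :
    e ∈ (SimpleGraph.fromEdgeSet S).edgeSet ↔ e ∈ S := by
  rw [SimpleGraph.edgeSet_fromEdgeSet]
  simp only [Set.mem_sdiff, Sym2.diagSet, Set.mem_ofPred_eq]
  exact ⟨fun h => h.1, fun h => ⟨h, he⟩⟩

open scoped Classical in
/-- weight of a set of pairs -/
noncomputable def wt {ι : Type} [DecidableEq ι] (E : Finset ι) (x : ι → ℝ) (S : Finset ι) : ℝ :=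
  (∏ e ∈ S, x e) * ∏ e ∈ E \ S, (1 - x e)

theorem mass_fromEdgeSet {V : Type} [Fintype V] [DecidableEq V] (x : Sym2 V → ℝ) (S : Finset (Sym2 V))
    (hS : S ⊆ prs V) : mass x (SimpleGraph.fromEdgeSet (S : Set (Sym2 V))) = wt (prs V) x S := by
  classical
  unfold mass wt
  have h1 : ∀ e ∈ prs V, (if e ∈ (SimpleGraph.fromEdgeSet (S : Set (Sym2 V))).edgeSet then x e
      else 1 - x e) = if e ∈ S then x e else 1 - x e := by
    intro e he
    have := mem_edgeSet_fromEdgeSet (S : Set (Sym2 V)) e ((mem_prs e).mp he)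
    rw [mem_coe] at this
    by_cases h : e ∈ S
    · rw [if_pos h, if_pos (this.mpr h)]
    · rw [if_neg h, if_neg (fun h' => h (this.mp h'))]
  refine (Finset.prod_congr rfl (g := fun e => if e ∈ S then x e else 1 - x e) ?_).trans ?_
  · intro e he
    convert h1 e he
  rw [Finset.prod_ite]
  congr 1
  · apply Finset.prod_congr _ (fun _ _ => rfl)
    rw [Finset.filter_mem_eq_inter, Finset.inter_eq_right.2 hS]
  · apply Finset.prod_congr _ (fun _ _ => rfl)
    ext e
    simp

theorem wt_nonneg {ι : Type} [DecidableEq ι] (E : Finset ι) (x : ι → ℝ) (h0 : ∀ e, 0 ≤ x e) (h1 : ∀ e, x e ≤ 1)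
    (S : Finset ι) : 0 ≤ wt E x S := by
  unfold wt
  apply mul_nonneg
  · exact Finset.prod_nonneg fun e _ => h0 e
  · exact Finset.prod_nonneg fun e _ => by linarith [h1 e]

open scoped Classical in
theorem sum_wt {ι : Type} [DecidableEq ι] (E : Finset ι) (x : ι → ℝ) : ∑ S ∈ E.powerset, wt E x S = 1 := by
  have h := Finset.prod_add (fun e => x e) (fun e => 1 - x e) E
  unfold wt
  convert h.symm using 1
  rw [Finset.prod_congr rfl (g := fun _ => (1 : ℝ)) (fun e _ => by ring), Finset.prod_const_one]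

theorem mass_nonneg {V : Type} [Fintype V] [DecidableEq V] (x : Sym2 V → ℝ) (h0 : ∀ e, 0 ≤ x e)
    (h1 : ∀ e, x e ≤ 1) (G : SimpleGraph V) : 0 ≤ mass x G := by
  unfold mass
  apply Finset.prod_nonneg
  intro e _
  have := h0 e
  have := h1 e
  split_ifs <;> linarith

theorem sum_mass {V : Type} [Fintype V] [DecidableEq V] (x : Sym2 V → ℝ) : prob x (fun _ => True) = 1 := by
  classical
  unfold prob
  simp only [if_true]
  rw [sum_graphs, ← sum_wt (prs V) x]
  apply Finset.sum_congr rfl
  intro S hS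
  exact mass_fromEdgeSet x S (Finset.mem_powerset.mp hS)

theorem prob_mono {V : Type} [Fintype V] [DecidableEq V] (x : Sym2 V → ℝ) (h0 : ∀ e, 0 ≤ x e) (h1 : ∀ e, x e ≤ 1)
    {Φ Ψ : SimpleGraph V → Prop} (h : ∀ G, Φ G → Ψ G) : prob x Φ ≤ prob x Ψ := by
  classical
  unfold prob
  apply Finset.sum_le_sum
  intro G _
  have h3 := mass_nonneg x h0 h1 G
  split_ifs with ha hb hb
  · exact le_rfl
  · exact absurd (h G ha) hb
  · exact h3
  · exact le_rfl

theorem prob_add_not {V : Type} [Fintype V] [DecidableEq V] (x : Sym2 V → ℝ) (Φ : SimpleGraph V → Prop) :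
    prob x Φ + prob x (fun G => ¬ Φ G) = 1 := by
  classical
  rw [← sum_mass x]
  unfold prob
  rw [← Finset.sum_add_distrib]
  apply Finset.sum_congr rfl
  intro G _
  by_cases h : Φ G <;> simp [h]

/-! ### two step sampling -/

/-- the noise of a pair -/
noncomputable def ns {ι : Type} [DecidableEq ι] (x : ι → ℝ) (e : ι) : ℝ := min (x e) (1 - x e)

open scoped Classical in
/-- the weight of the set `F` of the resampled pairs -/
noncomputable def wF {ι : Type} [DecidableEq ι] (E : Finset ι) (x : ι → ℝ) (F : Finset ι) : ℝ :=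
  (∏ e ∈ F, (2 * ns x e)) * ∏ e ∈ E \ F, (1 - 2 * ns x e)

theorem ns_nonneg {ι : Type} [DecidableEq ι] {x : ι → ℝ} (h0 : ∀ e, 0 ≤ x e) (h1 : ∀ e, x e ≤ 1) (e : ι) :
    0 ≤ ns x e := le_min (h0 e) (by linarith [h1 e])

theorem ns_le {ι : Type} [DecidableEq ι] (x : ι → ℝ) (e : ι) : ns x e ≤ 1 / 2 := by
  unfold ns
  rcases le_total (x e) (1 / 2) with h | h
  · exact le_trans (min_le_left _ _) h
  · exact le_trans (min_le_right _ _) (by linarith)

theorem wF_nonneg {ι : Type} [DecidableEq ι] (E : Finset ι) (x : ι → ℝ) (h0 : ∀ e, 0 ≤ x e) (h1 : ∀ e, x e ≤ 1)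
    (F : Finset ι) : 0 ≤ wF E x F := by
  unfold wF
  apply mul_nonneg
  · exact Finset.prod_nonneg fun e _ => by linarith [ns_nonneg h0 h1 e]
  · exact Finset.prod_nonneg fun e _ => by linarith [ns_le x e]

open scoped Classical in
theorem sum_wF {ι : Type} [DecidableEq ι] (E : Finset ι) (x : ι → ℝ) : ∑ F ∈ E.powerset, wF E x F = 1 := by
  have h := Finset.prod_add (fun e => 2 * ns x e) (fun e => 1 - 2 * ns x e) E
  unfold wF
  convert h.symm using 1
  rw [Finset.prod_congr rfl (g := fun _ => (1 : ℝ)) (fun e _ => by ring), Finset.prod_const_one]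

/-- the most likely graph -/
def base {V : Type} (x : Sym2 V → ℝ) : SimpleGraph V :=
  SimpleGraph.fromEdgeSet {e | 1 / 2 < x e}

open scoped Classical in
/-- indicator -/
noncomputable def ind (P : Prop) : ℝ := if P then 1 else 0

theorem prod_ind {ι : Type} (E : Finset ι) (P : ι → Prop) :
    ∏ e ∈ E, ind (P e) = ind (∀ e ∈ E, P e) := by
  classical
  unfold ind
  split_ifs with h
  · apply Finset.prod_eq_one
    intro e he
    rw [if_pos (h e he)]
  · push Not at h
    obtain ⟨e, he, hP⟩ := h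
    apply Finset.prod_eq_zero he
    rw [if_neg hP]

open scoped Classical in
theorem mass_eq_sum {V : Type} [Fintype V] [DecidableEq V] (x : Sym2 V → ℝ) (G : SimpleGraph V) :
    mass x G = ∑ F ∈ (prs V).powerset, wF (prs V) x F / 2 ^ F.card *
      ind (∀ e ∈ prs V \ F, e ∈ G.edgeSet ↔ e ∈ (base x).edgeSet) := by
  have h := Finset.prod_add (fun e => ns x e)
    (fun e => (1 - 2 * ns x e) * ind (e ∈ G.edgeSet ↔ e ∈ (base x).edgeSet)) (prs V)
  have h1 : mass x G = ∏ e ∈ prs V, (ns x e +
      (1 - 2 * ns x e) * ind (e ∈ G.edgeSet ↔ e ∈ (base x).edgeSet)) := by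
    unfold mass
    apply Finset.prod_congr rfl
    intro e he
    have hb : e ∈ (base x).edgeSet ↔ 1 / 2 < x e :=
      mem_edgeSet_fromEdgeSet _ e ((mem_prs e).mp he)
    unfold ind ns
    rw [hb]
    by_cases hG : e ∈ G.edgeSet <;> by_cases hx : 1 / 2 < x e
    · rw [if_pos hG, if_pos (iff_of_true hG hx), min_eq_right (by linarith)]
      ring
    · rw [if_pos hG, if_neg (by simp only [hG, hx]; simp), min_eq_left (by linarith)]
      ring
    · rw [if_neg hG, if_neg (by simp only [hG, hx]; simp), min_eq_right (by linarith)]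
      ring
    · rw [if_neg hG, if_pos (iff_of_false hG hx), min_eq_left (by linarith)]
      ring
  rw [h1, h]
  apply Finset.sum_congr rfl
  intro F _
  unfold wF
  have h2 : ∏ e ∈ prs V \ F, ((1 - 2 * ns x e) * ind (e ∈ G.edgeSet ↔ e ∈ (base x).edgeSet)) =
      (∏ e ∈ prs V \ F, (1 - 2 * ns x e)) *
        ind (∀ e ∈ prs V \ F, e ∈ G.edgeSet ↔ e ∈ (base x).edgeSet) := by
    rw [Finset.prod_mul_distrib]
    congr 1
    exact prod_ind _ _
  rw [h2, Finset.prod_mul_distrib, Finset.prod_const]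
  field_simp

open scoped Classical in
theorem sum_agree {V : Type} [Fintype V] [DecidableEq V] (G₀ : SimpleGraph V) (F : Finset (Sym2 V))
    (hF : F ⊆ prs V) (Φ : SimpleGraph V → Prop) :
    ∑ G : SimpleGraph V, ind (∀ e ∈ prs V \ F, e ∈ G.edgeSet ↔ e ∈ G₀.edgeSet) * ind (Φ G) =
      ∑ S ∈ F.powerset, ind (Φ (G₀ ∆ SimpleGraph.fromEdgeSet (S : Set (Sym2 V)))) := by
  have h1 : ∑ G : SimpleGraph V, ind (∀ e ∈ prs V \ F, e ∈ G.edgeSet ↔ e ∈ G₀.edgeSet) *
      ind (Φ G) = ∑ G ∈ univ.filter (fun G : SimpleGraph V =>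
        ∀ e ∈ prs V \ F, e ∈ G.edgeSet ↔ e ∈ G₀.edgeSet), ind (Φ G) := by
    rw [Finset.sum_filter]
    apply Finset.sum_congr rfl
    intro G _
    conv_lhs => rw [ind]
    split_ifs <;> simp
  rw [h1]
  symm
  have hadj : ∀ (S : Finset (Sym2 V)) (u v : V),
      (G₀ ∆ SimpleGraph.fromEdgeSet (S : Set (Sym2 V))).Adj u v ↔
        ((G₀.Adj u v ∧ ¬ (s(u, v) ∈ S ∧ u ≠ v)) ∨ ((s(u, v) ∈ S ∧ u ≠ v) ∧ ¬ G₀.Adj u v)) := by
    intro S u v
    rw [symmDiff_def]
    simp only [SimpleGraph.sup_adj, SimpleGraph.sdiff_adj, SimpleGraph.fromEdgeSet_adj, mem_coe]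
  apply Finset.sum_bij (fun (S : Finset (Sym2 V)) _ =>
    G₀ ∆ SimpleGraph.fromEdgeSet (S : Set (Sym2 V)))
  · intro S hS
    rw [Finset.mem_powerset] at hS
    rw [mem_filter]
    refine ⟨mem_univ _, fun e he => ?_⟩
    rw [mem_sdiff, mem_prs] at he
    induction e with
    | _ u v =>
      rw [SimpleGraph.mem_edgeSet, SimpleGraph.mem_edgeSet, hadj]
      have h2 : s(u, v) ∉ S := fun h => he.2 (hS h)
      simp [h2]
  · intro S hS T hT h
    rw [Finset.mem_powerset] at hS hT
    ext e
    induction e with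
    | _ u v =>
      by_cases huv : u = v
      · constructor
        · intro h3
          exact absurd (Sym2.mk_isDiag_iff.mpr huv) ((mem_prs _).mp (hF (hS h3)))
        · intro h3
          exact absurd (Sym2.mk_isDiag_iff.mpr huv) ((mem_prs _).mp (hF (hT h3)))
      · have h2 := hadj S u v
        rw [h, hadj T u v] at h2
        by_cases ha : G₀.Adj u v <;> by_cases hb : s(u, v) ∈ S <;> by_cases hc : s(u, v) ∈ T <;>
          simp_all
  · intro G hG
    rw [mem_filter] at hG
    refine ⟨F.filter fun e => ¬ (e ∈ G.edgeSet ↔ e ∈ G₀.edgeSet), ?_, ?_⟩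
    · rw [Finset.mem_powerset]
      exact Finset.filter_subset _ _
    · ext u v
      rw [hadj]
      simp only [mem_filter, SimpleGraph.mem_edgeSet]
      by_cases huv : u = v
      · subst huv
        simp
      · by_cases hF' : s(u, v) ∈ F
        · by_cases ha : G₀.Adj u v <;> by_cases hb : G.Adj u v <;> simp_all
        · have h2 := hG.2 s(u, v) (by
            rw [mem_sdiff, mem_prs]
            exact ⟨by simpa using huv, hF'⟩)
          rw [SimpleGraph.mem_edgeSet, SimpleGraph.mem_edgeSet] at h2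
          by_cases ha : G₀.Adj u v <;> by_cases hb : G.Adj u v <;> simp_all
  · intro S _
    rfl

theorem flip' {V : Type} [Fintype V] [DecidableEq V] (G₀ : SimpleGraph V) (F : Finset (Sym2 V))
    (hF : F ⊆ prs V) (Φ : SimpleGraph V → Prop) :
    (∑ S ∈ F.powerset, ind (Φ (G₀ ∆ SimpleGraph.fromEdgeSet (S : Set (Sym2 V))))) / 2 ^ F.card =
      Pr (fun a : Sym2 V → Bool =>
        Φ (gr G₀ (SimpleGraph.fromEdgeSet (F : Set (Sym2 V))) a)) := by
  classical
  rw [← flip G₀ F (fun e he => (mem_prs e).mp (hF he)) Φ]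
  rfl

theorem prob_eq {V : Type} [Fintype V] [DecidableEq V] (x : Sym2 V → ℝ)
    (Φ : SimpleGraph V → Prop) :
    prob x Φ = ∑ F ∈ (prs V).powerset, wF (prs V) x F *
      Pr (fun a : Sym2 V → Bool =>
        Φ (gr (base x) (SimpleGraph.fromEdgeSet (F : Set (Sym2 V))) a)) := by
  classical
  unfold prob
  have h1 : ∀ G : SimpleGraph V, (if Φ G then mass x G else 0) =
      ∑ F ∈ (prs V).powerset, wF (prs V) x F / 2 ^ F.card *
        (ind (∀ e ∈ prs V \ F, e ∈ G.edgeSet ↔ e ∈ (base x).edgeSet) * ind (Φ G)) := by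
    intro G
    have h2 : (if Φ G then mass x G else 0) = mass x G * ind (Φ G) := by
      unfold ind
      split_ifs <;> simp
    rw [h2, mass_eq_sum, Finset.sum_mul]
    apply Finset.sum_congr rfl
    intro F _
    ring
  rw [Finset.sum_congr rfl (fun G _ => h1 G), Finset.sum_comm]
  apply Finset.sum_congr rfl
  intro F hF
  rw [Finset.mem_powerset] at hF
  rw [← Finset.mul_sum, ← flip' (base x) F hF Φ, ← sum_agree (base x) F hF Φ]
  ring

end Pool.Agent.CRH
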