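import Pool.Agent.CRH.Defs

/-!
# MODULE Link1: how the graph depends on the link bits

`lk w x y = s(w y.1, x y)`. `G_η = gr G₀ H (Function.extend (lk w x) η a)`, `G = gr G₀ H a`.
Paper proofs. `lk` is injective: if `{w i, x y} = {w i', x y'}` then `x y = x y'` (as `x y ≠ w i'`), so
`y = y'`. `adj_link`: `H.Adj (w y.1) (x y)` and `Function.Injective.extend_apply`. `adj_off`:
`Function.extend_apply'`. `D_link`: for `v ≠ w y.1` the pair `{x y, v}` is not a link
(`{x y, v} = {w i, x y'}` gives `x y = x y'`, `y = y'`, `v = w y.1`, as `x y ≠ w i`). `dg_x`: split the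
neighbours of `x y` into `w y.1` and the others. `dg_other`: no pair at `v` is a link. `dg_w`: the links at
`w i` are the `{w i, x (i, c)}` (`w i ≠ x y'`, `w` injective), so
`dg G_η (w i) = #{v | v not in x(i,·), G.Adj (w i) v} + #{c | η (i, c) = true}`.
`col_two`: `col G 2 u = col G 2 v` means (second component, and level 1 colours `= ((), deg copies of ())`)
that the multisets of the level 1 colours of the neighbours agree, hence the multisets of the degrees of
the neighbours agree (apply the map `(a, s) ↦ s.card` to them), hence the numbers of neighbours `y`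
with `P (dg G y)` agree (`Multiset.countP`).
-/

namespace Pool.Agent.CRH

open Finset

open scoped Classical in
theorem nb_countP {V : Type} [Fintype V] (G : SimpleGraph V) (u : V) (P : ℕ → Prop) :
    nb G u (fun y => P (dg G y)) =
      Multiset.countP P (((univ.filter fun y => G.Adj u y).val.map (col G 1)).map
        (fun p : Col 1 => Multiset.card p.2)) := by
  rw [Multiset.map_map, Multiset.countP_map, nb, Finset.card_def, ← Finset.filter_filter,
    Finset.filter_val]
  congr 1
  apply Multiset.filter_congr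
  intro y _
  have : ((fun p : Col 1 => Multiset.card p.2) ∘ col G 1) y = dg G y := by
    simp [Function.comp, col, dg, Finset.card_def]
  rw [this]

theorem col_two {V : Type} [Fintype V] (G : SimpleGraph V) {u v : V}
    (h : col G 2 u = col G 2 v) (P : ℕ → Prop) :
    nb G u (fun y => P (dg G y)) = nb G v (fun y => P (dg G y)) := by
  classical
  have h2 : (univ.filter fun y => G.Adj u y).val.map (col G 1)
      = (univ.filter fun y => G.Adj v y).val.map (col G 1) := by
    have := congrArg Prod.snd h
    simpa [col] using this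
  rw [nb_countP, nb_countP]
  rw [h2]

section

variable {V : Type} [Fintype V] [DecidableEq V] (G₀ : SimpleGraph V) {H : SimpleGraph V}
  {s m N : ℕ} {w w' : Fin s → V} {x : Fin s × Fin m → V} {z : Fin s × Fin m → Fin N → V}

theorem lk_inj (hc : IsCfg H s m N w w' x z) : Function.Injective (lk w x) := by
  intro y y' h
  unfold lk at h
  rw [Sym2.eq_iff] at h
  rcases h with ⟨_, h⟩ | ⟨h, _⟩
  · exact hc.xinj h
  · exact absurd h.symm (hc.xw y' y.1)

theorem adj_link (hc : IsCfg H s m N w w' x z) (a : Sym2 V → Bool) (η : Fin s × Fin m → Bool)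
    (y : Fin s × Fin m) :
    (gr G₀ H (Function.extend (lk w x) η a)).Adj (w y.1) (x y) ↔ η y = true := by
  have h1 : Function.extend (lk w x) η a s(w y.1, x y) = η y :=
    (lk_inj hc).extend_apply η a y
  simp only [gr, if_pos (hc.hx y), h1]

theorem adj_off (a : Sym2 V → Bool) (η : Fin s × Fin m → Bool) (u v : V)
    (h : ∀ y, s(u, v) ≠ lk w x y) :
    (gr G₀ H (Function.extend (lk w x) η a)).Adj u v ↔ (gr G₀ H a).Adj u v := by
  have h1 : Function.extend (lk w x) η a s(u, v) = a s(u, v) := by
    apply Function.extend_apply'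
    rintro ⟨y, hy⟩
    exact h y hy.symm
  simp only [gr, h1]

theorem nolk_x (hc : IsCfg H s m N w w' x z) (y : Fin s × Fin m) {v : V} (hv : v ≠ w y.1) :
    ∀ y', s(x y, v) ≠ lk w x y' := by
  intro y' h
  unfold lk at h
  rw [Sym2.eq_iff] at h
  rcases h with ⟨h, _⟩ | ⟨h, h'⟩
  · exact hc.xw y y'.1 h
  · have := hc.xinj h
    subst this
    exact hv h'

theorem D_link (hc : IsCfg H s m N w w' x z) (a : Sym2 V → Bool) (η : Fin s × Fin m → Bool)
    (y : Fin s × Fin m) :
    D (gr G₀ H (Function.extend (lk w x) η a)) w x y = D (gr G₀ H a) w x y := by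
  classical
  unfold D nb
  congr 1
  ext v
  simp only [Finset.mem_filter, Finset.mem_univ, true_and]
  constructor
  · rintro ⟨h1, h2⟩
    exact ⟨(adj_off G₀ a η _ _ (nolk_x hc y h2)).1 h1, h2⟩
  · rintro ⟨h1, h2⟩
    exact ⟨(adj_off G₀ a η _ _ (nolk_x hc y h2)).2 h1, h2⟩

theorem dg_x (hc : IsCfg H s m N w w' x z) (a : Sym2 V → Bool) (η : Fin s × Fin m → Bool)
    (y : Fin s × Fin m) :
    dg (gr G₀ H (Function.extend (lk w x) η a)) (x y) =
      D (gr G₀ H a) w x y + (if η y = true then 1 else 0) := by
  classical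
  rw [← D_link G₀ hc a η y]
  set G := gr G₀ H (Function.extend (lk w x) η a) with hG
  have hadj : G.Adj (x y) (w y.1) ↔ η y = true := by
    rw [G.adj_comm]
    exact adj_link G₀ hc a η y
  unfold D nb dg
  refine (Finset.card_filter_add_card_filter_not (fun v => v ≠ w y.1)).symm.trans ?_
  apply congrArg₂ (· + ·)
  · congr 1
    ext v
    simp only [Finset.mem_filter, Finset.mem_univ, true_and]
  split_ifs with h
  · rw [Finset.card_eq_one]
    refine ⟨w y.1, ?_⟩
    ext v
    simp only [Finset.mem_filter, Finset.mem_univ, true_and, Finset.mem_singleton, ne_eq, not_not]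
    constructor
    · exact fun h => h.2
    · rintro rfl
      exact ⟨hadj.2 h, rfl⟩
  · rw [Finset.card_eq_zero, Finset.filter_eq_empty_iff]
    intro v hv h2
    rw [Finset.mem_filter] at hv
    rw [ne_eq, not_not] at h2
    subst h2
    exact h (hadj.1 hv.2)

theorem dg_other (hc : IsCfg H s m N w w' x z) (a : Sym2 V → Bool)
    (η : Fin s × Fin m → Bool) (v : V) (hx : ∀ y, v ≠ x y) (hw : ∀ i, v ≠ w i) :
    dg (gr G₀ H (Function.extend (lk w x) η a)) v = dg (gr G₀ H a) v := by
  classical
  unfold dg
  congr 1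
  apply Finset.filter_congr
  intro u _
  apply adj_off
  intro y h
  unfold lk at h
  rw [Sym2.eq_iff] at h
  rcases h with ⟨h, _⟩ | ⟨h, _⟩
  · exact hw _ h
  · exact hx _ h

theorem nolk_w (hc : IsCfg H s m N w w' x z) (i : Fin s) {v : V} (hv : ∀ c, v ≠ x (i, c)) :
    ∀ y', s(w i, v) ≠ lk w x y' := by
  intro y' h
  unfold lk at h
  rw [Sym2.eq_iff] at h
  rcases h with ⟨h, h'⟩ | ⟨h, _⟩
  · have := hc.winj h
    subst this
    exact hv y'.2 h'
  · exact hc.xw y' i h.symm

/-- the neighbours of `w i` with a property, split into the links and the others -/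
theorem nb_w (hc : IsCfg H s m N w w' x z) (a : Sym2 V → Bool) (η : Fin s × Fin m → Bool)
    (i : Fin s) (P : V → Prop) [DecidablePred P] :
    nb (gr G₀ H (Function.extend (lk w x) η a)) (w i) P =
      nb (gr G₀ H a) (w i) (fun v => (∀ c, v ≠ x (i, c)) ∧ P v)
        + (univ.filter fun c => η (i, c) = true ∧ P (x (i, c))).card := by
  classical
  set G := gr G₀ H (Function.extend (lk w x) η a) with hG
  unfold nb
  refine (Finset.card_filter_add_card_filter_not (fun v => ∀ c, v ≠ x (i, c))).symm.trans ?_
  apply congrArg₂ (· + ·)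
  · congr 1
    ext v
    simp only [Finset.mem_filter, Finset.mem_univ, true_and]
    constructor
    · rintro ⟨⟨h1, h2⟩, h3⟩
      exact ⟨(adj_off G₀ a η _ _ (nolk_w hc i h3)).1 h1, h3, h2⟩
    · rintro ⟨h1, h3, h2⟩
      exact ⟨⟨(adj_off G₀ a η _ _ (nolk_w hc i h3)).2 h1, h2⟩, h3⟩
  · symm
    apply Finset.card_bij (fun c _ => x (i, c))
    · intro c hcm
      rw [Finset.mem_filter] at hcm
      simp only [Finset.mem_filter, Finset.mem_univ, true_and]
      refine ⟨⟨(adj_link G₀ hc a η (i, c)).2 hcm.2.1, hcm.2.2⟩, ?_⟩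
      intro h
      exact h c rfl
    · intro c _ c' _ h
      have := hc.xinj h
      exact (Prod.mk.inj this).2
    · intro v hv
      simp only [Finset.mem_filter, Finset.mem_univ, true_and] at hv
      obtain ⟨⟨h1, h2⟩, h3⟩ := hv
      push Not at h3
      obtain ⟨c, rfl⟩ := h3
      refine ⟨c, ?_, rfl⟩
      rw [Finset.mem_filter]
      exact ⟨Finset.mem_univ _, (adj_link G₀ hc a η (i, c)).1 h1, h2⟩

theorem dg_w (hc : IsCfg H s m N w w' x z) (a : Sym2 V → Bool) (η η' : Fin s × Fin m → Bool)
    (i : Fin s) (h : (univ.filter fun c => η (i, c) = true).card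
      = (univ.filter fun c => η' (i, c) = true).card) :
    dg (gr G₀ H (Function.extend (lk w x) η a)) (w i) =
      dg (gr G₀ H (Function.extend (lk w x) η' a)) (w i) := by
  classical
  have key : ∀ G : SimpleGraph V, dg G (w i) = nb G (w i) (fun _ => True) := by
    intro G
    unfold dg nb
    simp
  rw [key, key, nb_w G₀ hc a η i (fun _ => True), nb_w G₀ hc a η' i (fun _ => True)]
  simp only [and_true]
  rw [h]

end

end Pool.Agent.CRH
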