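import Pool.Agent.CRH.Group
import Pool.Agent.CRH.Link1

/-!
# MODULE Links: the link bits separate the colours

Write `D y = D (gr G₀ H a) w x y`, `G_η = gr G₀ H (Function.extend (lk w x) η a)`, `Y = Fin s × Fin m`.
Paper proof. For `ε ∈ {0, 1}` let `J_ε = {y | D y % 2 = ε}`, `g y = (y.1, D y)`. As
`univ.image g = J_0.image g ∪ J_1.image g`, there is an `ε` with `tot ≤ 2 * #(J_ε.image g)`, so
`s m ≤ 4 * #(J_ε.image g)`, `s m / 4 ≤ #(J_ε.image g)`. Fix it, `J = J_ε`. Apply `Pr_group` with
`t η = fun i => (#{c | η (i, c) = true} : Fin (m+1))`, `|T| = (m+1)^s`. We have to check: let `S η`, `S η'`,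
`t η = t η'`, `η = η'` off `J`; then for all values `(i, d)`:
`#{y ∈ J | g y = (i, d), η y} = #{y ∈ J | g y = (i, d), η' y}`.
If `d % 2 ≠ ε` both sides are `0`. Let `d % 2 = ε`, `b = (d + ε)/2`, and `P e := (e + ε)/2 = b`.
FACT: for every vertex `v`: `P (dg G_η v) ↔ P (dg G_η' v)`. Indeed if `v = x y` with `y ∈ J` then `D y + ε` is
even, so `(D y + ε)/2 = (D y + 1 + ε)/2` and by `dg_x` both sides are `(D y + ε)/2 = b`; if `v = x y`
with `y ∉ J` then `η y = η' y`; if `v = w i'` then `dg_w` and `t η = t η'`; otherwise `dg_other`.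
From `S η` and `col_two`: `nb G_η (w i) (P ∘ dg) = nb G_η (w' i) (P ∘ dg)`, same for `η'`. The pairs at
`w' i` are no links, so with FACT the right sides are equal. So `nb G_η (w i) (P (dg G_η ·)) = nb G_η' (w i)
(P (dg G_η' ·))`. The neighbours `v` of `w i` which are not of the form `x (i, c)` contribute the same
number to both sides (the pair `{w i, v}` is not a link: `adj_off`, and FACT). So
`#{c | η (i,c), P (dg G_η (x (i,c)))} = #{c | η' (i,c), P (dg G_η' (x (i,c)))}`. Those `c` with
`(i, c) ∉ J` contribute the same to both sides, so the same holds with the additional condition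
`(i, c) ∈ J`, and for `(i,c) ∈ J` we have `P (dg (x (i,c))) ↔ (D (i,c) + ε)/2 = (d + ε)/2 ↔ D (i,c) = d`
(both `D (i,c)` and `d` are `≡ ε` mod 2).
-/

namespace Pool.Agent.CRH

open Finset

section

variable {V : Type} [Fintype V] [DecidableEq V] (G₀ : SimpleGraph V) {H : SimpleGraph V}
  {s m N : ℕ} {w w' : Fin s → V} {x : Fin s × Fin m → V} {z : Fin s × Fin m → Fin N → V}

/-- FACT of the header -/
theorem links_fact (hc : IsCfg H s m N w w' x z) (a : Sym2 V → Bool) {ε : ℕ}
    (η η' : Fin s × Fin m → Bool)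
    (ht : ∀ i, (univ.filter fun c => η (i, c) = true).card
      = (univ.filter fun c => η' (i, c) = true).card)
    (hJ : ∀ y, D (gr G₀ H a) w x y % 2 ≠ ε → η y = η' y) (v : V) :
    (dg (gr G₀ H (Function.extend (lk w x) η a)) v + ε) / 2
      = (dg (gr G₀ H (Function.extend (lk w x) η' a)) v + ε) / 2 := by
  by_cases hx : ∃ y, v = x y
  · obtain ⟨y, rfl⟩ := hx
    rw [dg_x G₀ hc a η y, dg_x G₀ hc a η' y]
    by_cases hy : D (gr G₀ H a) w x y % 2 = ε
    · split_ifs <;> omega
    · rw [hJ y hy]
  · push Not at hx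
    by_cases hw : ∃ i, v = w i
    · obtain ⟨i, rfl⟩ := hw
      rw [dg_w G₀ hc a η η' i (ht i)]
    · push Not at hw
      rw [dg_other G₀ hc a η v hx hw, dg_other G₀ hc a η' v hx hw]

/-- the neighbours of `w' i` do not depend on the links -/
theorem nb_w' (hc : IsCfg H s m N w w' x z) (a : Sym2 V → Bool) (η : Fin s × Fin m → Bool)
    (i : Fin s) (P : V → Prop) :
    nb (gr G₀ H (Function.extend (lk w x) η a)) (w' i) P = nb (gr G₀ H a) (w' i) P := by
  classical
  unfold nb
  congr 1
  ext v
  simp only [Finset.mem_filter, Finset.mem_univ, true_and]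
  rw [adj_off G₀ a η (w' i) v]
  intro y h
  unfold lk at h
  rw [Sym2.eq_iff] at h
  rcases h with ⟨h, _⟩ | ⟨h, _⟩
  · exact hc.ww' _ _ h.symm
  · exact hc.xw' _ _ h.symm

/-- the check needed for `Pr_group` -/
theorem links_check (hc : IsCfg H s m N w w' x z) (a : Sym2 V → Bool) {ε : ℕ}
    (η η' : Fin s × Fin m → Bool)
    (hS : ∀ i, col (gr G₀ H (Function.extend (lk w x) η a)) 2 (w i)
         = col (gr G₀ H (Function.extend (lk w x) η a)) 2 (w' i))
    (hS' : ∀ i, col (gr G₀ H (Function.extend (lk w x) η' a)) 2 (w i)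
         = col (gr G₀ H (Function.extend (lk w x) η' a)) 2 (w' i))
    (ht : ∀ i, (univ.filter fun c => η (i, c) = true).card
      = (univ.filter fun c => η' (i, c) = true).card)
    (hJ : ∀ y, D (gr G₀ H a) w x y % 2 ≠ ε → η y = η' y) (i : Fin s) (d : ℕ) (hd : d % 2 = ε) :
    (univ.filter fun c => η (i, c) = true ∧ D (gr G₀ H a) w x (i, c) = d).card
      = (univ.filter fun c => η' (i, c) = true ∧ D (gr G₀ H a) w x (i, c) = d).card := by
  classical
  set G := gr G₀ H (Function.extend (lk w x) η a) with hG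
  set G' := gr G₀ H (Function.extend (lk w x) η' a) with hG'
  have fact := links_fact G₀ hc a η η' ht hJ
  rw [← hG, ← hG'] at fact
  have hP : (fun v => (dg G v + ε) / 2 = (d + ε) / 2) = (fun v => (dg G' v + ε) / 2 = (d + ε) / 2) := by
    funext v
    rw [fact v]
  have h1 : nb G (w i) (fun v => (dg G v + ε) / 2 = (d + ε) / 2)
      = nb G' (w i) (fun v => (dg G v + ε) / 2 = (d + ε) / 2) := by
    have e1 := col_two G (hS i) (fun e => (e + ε) / 2 = (d + ε) / 2)
    have e2 := col_two G' (hS' i) (fun e => (e + ε) / 2 = (d + ε) / 2)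
    have e3 := nb_w' G₀ hc a η i (fun v => (dg G v + ε) / 2 = (d + ε) / 2)
    have e4 := nb_w' G₀ hc a η' i (fun v => (dg G v + ε) / 2 = (d + ε) / 2)
    rw [← hG] at e3
    rw [← hG'] at e4
    rw [e1, e3, ← e4, hP, e2]
  have e5 := nb_w G₀ hc a η i (fun v => (dg G v + ε) / 2 = (d + ε) / 2)
  have e6 := nb_w G₀ hc a η' i (fun v => (dg G v + ε) / 2 = (d + ε) / 2)
  rw [← hG] at e5
  rw [← hG'] at e6
  rw [e5, e6] at h1
  have h2 := Nat.add_left_cancel h1
  -- split by membership in J
  have spl : ∀ θ : Fin s × Fin m → Bool,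
      (univ.filter fun c => θ (i, c) = true ∧ (dg G (x (i, c)) + ε) / 2 = (d + ε) / 2).card
      = (univ.filter fun c => θ (i, c) = true ∧ D (gr G₀ H a) w x (i, c) = d).card
        + (univ.filter fun c => (θ (i, c) = true ∧ (dg G (x (i, c)) + ε) / 2 = (d + ε) / 2)
            ∧ ¬ (D (gr G₀ H a) w x (i, c) % 2 = ε)).card := by
    intro θ
    refine (Finset.card_filter_add_card_filter_not
      (fun c => D (gr G₀ H a) w x (i, c) % 2 = ε)).symm.trans ?_
    apply congrArg₂ (· + ·)
    · congr 1
      ext c
      simp only [Finset.mem_filter, Finset.mem_univ, true_and]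
      have hdg := dg_x G₀ hc a η (i, c)
      rw [← hG] at hdg
      constructor
      · rintro ⟨⟨h3, h4⟩, h5⟩
        refine ⟨h3, ?_⟩
        rw [hdg] at h4
        split_ifs at h4 <;> omega
      · rintro ⟨h3, h4⟩
        refine ⟨⟨h3, ?_⟩, by omega⟩
        rw [hdg]
        split_ifs <;> omega
    · congr 1
      ext c
      simp only [Finset.mem_filter, Finset.mem_univ, true_and]
  have h3 := spl η
  have h4 := spl η'
  have h5 : (univ.filter fun c => (η (i, c) = true ∧ (dg G (x (i, c)) + ε) / 2 = (d + ε) / 2)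
            ∧ ¬ (D (gr G₀ H a) w x (i, c) % 2 = ε))
      = (univ.filter fun c => (η' (i, c) = true ∧ (dg G (x (i, c)) + ε) / 2 = (d + ε) / 2)
            ∧ ¬ (D (gr G₀ H a) w x (i, c) % 2 = ε)) := by
    apply Finset.filter_congr
    intro c _
    constructor
    · rintro ⟨⟨h6, h7⟩, h8⟩
      exact ⟨⟨by rw [← hJ _ h8]; exact h6, h7⟩, h8⟩
    · rintro ⟨⟨h6, h7⟩, h8⟩
      exact ⟨⟨by rw [hJ _ h8]; exact h6, h7⟩, h8⟩
  rw [h5] at h3
  omega

end

theorem links {V : Type} [Fintype V] [DecidableEq V] (G₀ H : SimpleGraph V) {s m N : ℕ}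
    {w w' : Fin s → V} {x : Fin s × Fin m → V} {z : Fin s × Fin m → Fin N → V}
    (hc : IsCfg H s m N w w' x z) (a : Sym2 V → Bool)
    (htot : s * m ≤ 2 * tot (gr G₀ H a) w x) :
    Pr (fun η : Fin s × Fin m → Bool =>
      ∀ i, col (gr G₀ H (Function.extend (lk w x) η a)) 2 (w i)
         = col (gr G₀ H (Function.extend (lk w x) η a)) 2 (w' i))
      ≤ ((m : ℝ) + 1) ^ s * (1 / 2) ^ (s * m / 4) := by
  classical
  set g : Fin s × Fin m → Fin s × ℕ := fun y => (y.1, D (gr G₀ H a) w x y) with hg
  obtain ⟨ε, hε, hcard⟩ : ∃ ε : ℕ, ε ≤ 1 ∧ s * m / 4 ≤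
      ((univ.filter fun y => D (gr G₀ H a) w x y % 2 = ε).image g).card := by
    have h0 : univ.image g = ((univ.filter fun y => D (gr G₀ H a) w x y % 2 = 0).image g)
        ∪ ((univ.filter fun y => D (gr G₀ H a) w x y % 2 = 1).image g) := by
      rw [← Finset.image_union]
      congr 1
      ext y
      simp only [Finset.mem_union, Finset.mem_filter, Finset.mem_univ, true_and, true_iff]
      omega
    have h1 : tot (gr G₀ H a) w x = (univ.image g).card := by
      unfold tot
      congr 1
    have h2 := Finset.card_union_le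
      ((univ.filter fun y => D (gr G₀ H a) w x y % 2 = 0).image g)
      ((univ.filter fun y => D (gr G₀ H a) w x y % 2 = 1).image g)
    rw [← h0, ← h1] at h2
    by_cases h3 : s * m / 4 ≤ ((univ.filter fun y => D (gr G₀ H a) w x y % 2 = 0).image g).card
    · exact ⟨0, by omega, h3⟩
    · refine ⟨1, le_rfl, ?_⟩
      omega
  have hT : Fintype.card (Fin s → Fin (m + 1)) = (m + 1) ^ s := by
    rw [Fintype.card_fun, Fintype.card_fin, Fintype.card_fin]
  have key := Pr_group (T := Fin s → Fin (m + 1)) (fun η : Fin s × Fin m → Bool =>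
      ∀ i, col (gr G₀ H (Function.extend (lk w x) η a)) 2 (w i)
         = col (gr G₀ H (Function.extend (lk w x) η a)) 2 (w' i))
      (fun η i => ⟨(univ.filter fun c => η (i, c) = true).card, by
        have := Finset.card_le_univ (univ.filter fun c => η (i, c) = true)
        rw [Fintype.card_fin] at this
        omega⟩)
      (univ.filter fun y => D (gr G₀ H a) w x y % 2 = ε) g ?_
  · refine key.trans ?_
    rw [hT]
    push_cast
    apply mul_le_mul_of_nonneg_left _ (by positivity)
    apply pow_le_pow_of_le_one (by norm_num) (by norm_num)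
    refine le_trans hcard (le_of_eq ?_)
    congr 1
    ext y
    simp only [mem_image, mem_filter, mem_univ, true_and]
  · intro η η' hS hS' ht hJ c
    obtain ⟨i, d⟩ := c
    have ht' : ∀ i, (univ.filter fun c => η (i, c) = true).card
      = (univ.filter fun c => η' (i, c) = true).card := by
      intro i
      have := congrFun ht i
      exact Fin.mk.inj_iff.1 this
    have hJ' : ∀ y, D (gr G₀ H a) w x y % 2 ≠ ε → η y = η' y := by
      intro y hy
      apply hJ
      simp only [Finset.mem_filter, Finset.mem_univ, true_and]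
      exact hy
    by_cases hd : d % 2 = ε
    · have main := links_check G₀ hc a η η' hS hS' ht' hJ' i d hd
      have conv : ∀ θ : Fin s × Fin m → Bool,
          ((univ.filter fun y => D (gr G₀ H a) w x y % 2 = ε).filter
            fun y => g y = (i, d) ∧ θ y = true).card
          = (univ.filter fun c => θ (i, c) = true ∧ D (gr G₀ H a) w x (i, c) = d).card := by
        intro θ
        symm
        apply Finset.card_bij (fun c _ => (i, c))
        · intro c hcm
          simp only [Finset.mem_filter, Finset.mem_univ, true_and] at hcm ⊢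
          obtain ⟨h1, h2⟩ := hcm
          refine ⟨by rw [h2]; exact hd, ?_, h1⟩
          simp only [hg, h2]
        · intro c _ c' _ h
          exact (Prod.mk.inj h).2
        · rintro ⟨i', c⟩ hy
          simp only [Finset.mem_filter, Finset.mem_univ, true_and, hg, Prod.mk.injEq] at hy
          obtain ⟨_, ⟨h1, h2⟩, h3⟩ := hy
          subst h1
          refine ⟨c, ?_, rfl⟩
          simp only [Finset.mem_filter, Finset.mem_univ, true_and]
          exact ⟨h3, h2⟩
      have hfin := (conv η).trans (main.trans (conv η').symm)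
      refine Eq.trans (Eq.trans ?_ hfin) ?_
      · congr 1
        ext y
        simp only [mem_filter, mem_univ, true_and]
      · congr 1
        ext y
        simp only [mem_filter, mem_univ, true_and]
    · have conv : ∀ θ : Fin s × Fin m → Bool,
          ((univ.filter fun y => D (gr G₀ H a) w x y % 2 = ε).filter
            fun y => g y = (i, d) ∧ θ y = true).card = 0 := by
        intro θ
        rw [Finset.card_eq_zero, Finset.filter_eq_empty_iff]
        rintro y hy ⟨h1, _⟩
        simp only [Finset.mem_filter, Finset.mem_univ, true_and] at hy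
        simp only [hg, Prod.mk.injEq] at h1
        rw [h1.2] at hy
        exact hd hy
      have hfin := (conv η).trans (conv η').symm
      refine Eq.trans (Eq.trans ?_ hfin) ?_
      · congr 1
        ext y
        simp only [mem_filter, mem_univ, true_and]
      · congr 1
        ext y
        simp only [mem_filter, mem_univ, true_and]

end Pool.Agent.CRH
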