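import Pool.Agent.CRH.Upper

/-!
# Below the threshold there are two isolated vertices
-/

namespace Pool.Agent.CRH

open Finset

open scoped Classical in
/-- indicator of disjointness -/
noncomputable def dj {ι : Type} (S T : Finset ι) : ℝ := if Disjoint S T then 1 else 0

theorem dj_union {ι : Type} [DecidableEq ι] (S T U : Finset ι) :
    dj S (T ∪ U) = dj S T * dj S U := by
  classical
  have h : Disjoint S (T ∪ U) ↔ Disjoint S T ∧ Disjoint S U := Finset.disjoint_union_right
  unfold dj
  by_cases ha : Disjoint S T <;> by_cases hb : Disjoint S U <;> simp [ha, hb, h]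

theorem sum_wt_dj {ι : Type} [DecidableEq ι] (E T : Finset ι) (hT : T ⊆ E) (x : ι → ℝ) :
    ∑ S ∈ E.powerset, wt E x S * dj S T = ∏ e ∈ T, (1 - x e) := by
  have h1 : ∀ S ∈ E.powerset, wt E x S * dj S T =
      (∏ e ∈ S, (x e * (if e ∈ T then 0 else 1))) * ∏ e ∈ E \ S, (1 - x e) := by
    intro S _
    have h2 : ∏ e ∈ S, (if e ∈ T then (0 : ℝ) else 1) = dj S T := by
      unfold dj
      split_ifs with h
      · apply Finset.prod_eq_one
        intro e he
        rw [if_neg (Finset.disjoint_left.mp h he)]
      · rw [Finset.not_disjoint_iff] at h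
        obtain ⟨e, he, he'⟩ := h
        apply Finset.prod_eq_zero he
        rw [if_pos he']
    rw [Finset.prod_mul_distrib, h2]
    unfold wt
    ring
  rw [Finset.sum_congr rfl h1, ← Finset.prod_add]
  have h3 : ∀ e ∈ E, x e * (if e ∈ T then (0 : ℝ) else 1) + (1 - x e) =
      if e ∈ T then 1 - x e else 1 := by
    intro e _
    split_ifs <;> ring
  rw [Finset.prod_congr rfl h3, Finset.prod_ite, Finset.prod_const_one, mul_one,
    Finset.filter_mem_eq_inter, Finset.inter_eq_right.2 hT]

/-- Chebyshev -/
theorem cheb {ι : Type} [DecidableEq ι] (E : Finset ι) (x : ι → ℝ) (h0 : ∀ e, 0 ≤ x e)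
    (h1 : ∀ e, x e ≤ 1)
    (X : Finset ι → ℝ) (μ B : ℝ) (hμ : 1 < μ)
    (hX : ∑ S ∈ E.powerset, wt E x S * X S = μ)
    (hX2 : ∑ S ∈ E.powerset, wt E x S * X S ^ 2 ≤ μ ^ 2 + μ * B)
    (P : Finset ι → Prop) [DecidablePred P]
    (hP : ∀ S ∈ E.powerset, P S → X S ≤ 1) :
    ∑ S ∈ E.powerset, (if P S then wt E x S else 0) ≤ μ * B / (μ - 1) ^ 2 := by
  rw [le_div_iff₀ (by have : 0 < μ - 1 := by linarith
                      positivity), Finset.sum_mul]
  have h2 : ∀ S ∈ E.powerset, (if P S then wt E x S else 0) * (μ - 1) ^ 2 ≤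
      wt E x S * X S ^ 2 - 2 * μ * (wt E x S * X S) + μ ^ 2 * wt E x S := by
    intro S hS
    have hw := wt_nonneg E x h0 h1 S
    split_ifs with h
    · have h3 := hP S hS h
      have h4 : (μ - 1) ^ 2 ≤ (μ - X S) ^ 2 := by
        apply pow_le_pow_left₀ (by linarith)
        linarith
      nlinarith
    · have : 0 ≤ wt E x S * (X S - μ) ^ 2 := by positivity
      nlinarith
  refine le_trans (Finset.sum_le_sum h2) ?_
  rw [Finset.sum_add_distrib, Finset.sum_sub_distrib, ← Finset.mul_sum, ← Finset.mul_sum, hX,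
    sum_wt]
  nlinarith

open scoped Classical in
/-- number of isolated vertices -/
noncomputable def isoNum {V : Type} [Fintype V] (G : SimpleGraph V) : ℕ :=
  (univ.filter fun v : V => ∀ u, ¬ G.Adj v u).card

theorem disjoint_inc {V : Type} [Fintype V] [DecidableEq V] (v : V) (S : Finset (Sym2 V))
    (hS : S ⊆ prs V) :
    Disjoint S (inc v) ↔ ∀ u, ¬ (SimpleGraph.fromEdgeSet (S : Set (Sym2 V))).Adj v u := by
  rw [Finset.disjoint_left]
  constructor
  · intro h u hu
    rw [SimpleGraph.fromEdgeSet_adj, mem_coe] at hu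
    apply h hu.1
    unfold inc
    rw [mem_filter]
    exact ⟨hS hu.1, Sym2.mem_mk_left v u⟩
  · intro h e he hv
    unfold inc at hv
    rw [mem_filter, mem_prs] at hv
    obtain ⟨h1, h2⟩ := hv
    obtain ⟨y, rfl⟩ := Sym2.mem_iff_exists.mp h2
    apply h y
    rw [SimpleGraph.fromEdgeSet_adj, mem_coe]
    rw [Sym2.mk_isDiag_iff] at h1
    exact ⟨he, h1⟩

theorem inc_inter {V : Type} [Fintype V] [DecidableEq V] {u v : V} (huv : u ≠ v) :
    inc u ∩ inc v = {s(u, v)} := by
  ext e
  unfold inc
  simp only [mem_inter, mem_filter, mem_singleton, mem_prs]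
  constructor
  · rintro ⟨⟨_, h2⟩, ⟨_, h3⟩⟩
    exact (Sym2.mem_and_mem_iff huv).mp ⟨h2, h3⟩
  · rintro rfl
    rw [Sym2.mk_isDiag_iff]
    exact ⟨⟨huv, Sym2.mem_mk_left _ _⟩, ⟨huv, Sym2.mem_mk_right _ _⟩⟩

/-- probability that `v` is isolated -/
noncomputable def qq {V : Type} [Fintype V] [DecidableEq V] (x : Sym2 V → ℝ) (v : V) : ℝ :=
  ∏ e ∈ inc v, (1 - x e)

theorem qq_nonneg {V : Type} [Fintype V] [DecidableEq V] {x : Sym2 V → ℝ} (h1 : ∀ e, x e ≤ 1)
    (v : V) : 0 ≤ qq x v :=
  Finset.prod_nonneg fun e _ => by linarith [h1 e]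

theorem pair_bound {V : Type} [Fintype V] [DecidableEq V] (x : Sym2 V → ℝ) (h0 : ∀ e, 0 ≤ x e)
    (h1 : ∀ e, x e ≤ 1) (u v : V) :
    ∏ e ∈ inc u ∪ inc v, (1 - x e) ≤ qq x u * qq x v + (if u = v then qq x u else 0) +
      (if v ∈ univ.erase u then x s(u, v) * qq x u else 0) := by
  have hu := qq_nonneg h1 u
  have hv := qq_nonneg h1 v
  by_cases huv : u = v
  · subst huv
    rw [Finset.union_self, if_pos rfl, if_neg (by simp)]
    have h3 : ∏ e ∈ inc u, (1 - x e) = qq x u := rfl
    rw [h3]
    nlinarith
  · rw [if_neg huv, if_pos (by rw [mem_erase]; exact ⟨fun h => huv h.symm, mem_univ _⟩)]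
    have h2 := Finset.prod_union_inter (s₁ := inc u) (s₂ := inc v) (f := fun e => 1 - x e)
    rw [inc_inter huv, Finset.prod_singleton] at h2
    have h4 : s(u, v) ∈ inc v := by
      unfold inc
      rw [mem_filter, mem_prs, Sym2.mk_isDiag_iff]
      exact ⟨huv, Sym2.mem_mk_right _ _⟩
    -- the product over the union is `qq u` times the product over `inc v` without the pair
    have h5 : inc u ∪ inc v = inc u ∪ (inc v).erase s(u, v) := by
      ext e
      simp only [mem_union, mem_erase]
      constructor
      · rintro (h | h)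
        · exact Or.inl h
        · by_cases he : e = s(u, v)
          · left
            rw [he]
            unfold inc
            rw [mem_filter, mem_prs, Sym2.mk_isDiag_iff]
            exact ⟨huv, Sym2.mem_mk_left _ _⟩
          · exact Or.inr ⟨he, h⟩
      · rintro (h | h)
        · exact Or.inl h
        · exact Or.inr h.2
    have h6 : Disjoint (inc u) ((inc v).erase s(u, v)) := by
      rw [Finset.disjoint_left]
      intro e he hev
      rw [mem_erase] at hev
      have : e ∈ inc u ∩ inc v := mem_inter.mpr ⟨he, hev.2⟩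
      rw [inc_inter huv, mem_singleton] at this
      exact hev.1 this
    have h7 : ∏ e ∈ inc u ∪ inc v, (1 - x e) =
        qq x u * ∏ e ∈ (inc v).erase s(u, v), (1 - x e) := by
      rw [h5, Finset.prod_union h6]
      rfl
    have h8 : (1 - x s(u, v)) * ∏ e ∈ (inc v).erase s(u, v), (1 - x e) = qq x v :=
      Finset.mul_prod_erase (inc v) (fun e => 1 - x e) h4
    have h9 : ∏ e ∈ (inc v).erase s(u, v), (1 - x e) ≤ 1 := by
      apply Finset.prod_le_one
      · intro e _
        linarith [h1 e]
      · intro e _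
        linarith [h0 e]
    have h10 : 0 ≤ ∏ e ∈ (inc v).erase s(u, v), (1 - x e) :=
      Finset.prod_nonneg fun e _ => by linarith [h1 e]
    rw [h7, ← h8]
    have h11 : x s(u, v) * qq x u * ∏ e ∈ (inc v).erase s(u, v), (1 - x e) ≤
        x s(u, v) * qq x u * 1 :=
      mul_le_mul_of_nonneg_left h9 (mul_nonneg (h0 _) hu)
    nlinarith

theorem few_isolated {V : Type} [Fintype V] [DecidableEq V] (x : Sym2 V → ℝ)
    (h0 : ∀ e, 0 ≤ x e) (h1 : ∀ e, x e ≤ 1 / 2) (hn : 2 ≤ Fintype.card V)
    (hdeg : ∀ v : V, ∑ u ∈ univ.erase v, x s(v, u) ≤ Real.log (Fintype.card V) / 4) :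
    prob x (fun G => isoNum G ≤ 1) ≤
      (2 + Real.log (Fintype.card V)) / Real.sqrt (Fintype.card V) := by
  classical
  have h1' : ∀ e, x e ≤ 1 := fun e => by linarith [h1 e]
  obtain ⟨n, hn'⟩ : ∃ n, n = Fintype.card V := ⟨_, rfl⟩
  rw [← hn'] at hn hdeg ⊢
  have hn2 : (2 : ℝ) ≤ n := by exact_mod_cast hn
  have hn0 : (0 : ℝ) < n := by linarith
  obtain ⟨y, hy⟩ : ∃ y, y = Real.sqrt n := ⟨_, rfl⟩
  have hx2 : y ^ 2 = n := by rw [hy]; exact Real.sq_sqrt hn0.le
  have hx0 : 0 < y := by rw [hy]; exact Real.sqrt_pos.mpr hn0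
  have hx1 : 7 / 5 ≤ y := by nlinarith
  have hlogx : Real.log n = 2 * Real.log y := by
    rw [← hx2, Real.log_pow]
    norm_num
  have hlogx' : 1 - 1 / y ≤ Real.log y := by
    have := Real.one_sub_inv_le_log_of_pos hx0
    rwa [one_div]
  have hL0 : 0 ≤ Real.log n := Real.log_nonneg (by linarith)
  rw [← hy]
  have hprob : prob x (fun G => isoNum G ≤ 1) =
      ∑ S ∈ (prs V).powerset,
        (if isoNum (SimpleGraph.fromEdgeSet (S : Set (Sym2 V))) ≤ 1 then wt (prs V) x S else 0) := by
    unfold prob
    rw [sum_graphs]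
    apply Finset.sum_congr rfl
    intro S hS
    rw [Finset.mem_powerset] at hS
    rw [mass_fromEdgeSet x S hS]
    split_ifs <;> rfl
  rw [hprob]
  by_cases hcase : y ^ 2 - 4 * y + 2 ≤ 0
  · have h2 : ∑ S ∈ (prs V).powerset,
        (if isoNum (SimpleGraph.fromEdgeSet (S : Set (Sym2 V))) ≤ 1 then wt (prs V) x S else 0)
        ≤ 1 := by
      rw [← sum_wt (prs V) x]
      apply Finset.sum_le_sum
      intro S _
      have := wt_nonneg (prs V) x h0 h1' S
      split_ifs <;> linarith
    refine le_trans h2 ?_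
    rw [le_div_iff₀ hx0, one_mul, hlogx]
    have h3 : y ≤ 2 + 2 * (1 - 1 / y) := by
      have : y * y ≤ (2 + 2 * (1 - 1 / y)) * y := by
        have h4 : (2 + 2 * (1 - 1 / y)) * y = 4 * y - 2 := by
          field_simp
          ring
        rw [h4]
        nlinarith
      exact le_of_mul_le_mul_right this hx0
    linarith
  · push Not at hcase
    have hx3 : 17 / 5 ≤ y := by nlinarith
    set μ : ℝ := ∑ v : V, qq x v with hμ
    have hqv : ∀ v : V, 1 / y ≤ qq x v := by
      intro v
      have h2 : ∀ p : ℝ, 0 ≤ p → p ≤ 1 / 2 → Real.exp (-(2 * p)) ≤ 1 - p := by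
        intro p hp0 hp1
        rw [Real.exp_neg]
        have h3 : 1 + 2 * p ≤ Real.exp (2 * p) := by
          have := Real.add_one_le_exp (2 * p)
          linarith
        rw [inv_le_comm₀ (Real.exp_pos _) (by linarith)]
        refine le_trans ?_ h3
        rw [inv_le_comm₀ (by linarith) (by linarith), inv_eq_one_div,
          div_le_iff₀ (by linarith)]
        nlinarith
      calc 1 / y = Real.exp (-(Real.log n / 2)) := by
            rw [hlogx, Real.exp_neg, show 2 * Real.log y / 2 = Real.log y by ring,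
              Real.exp_log hx0, one_div]
        _ ≤ Real.exp (∑ e ∈ inc v, -(2 * x e)) := by
            apply Real.exp_le_exp.mpr
            have := hdeg v
            rw [Finset.sum_neg_distrib, ← Finset.mul_sum, sum_inc]
            linarith
        _ = ∏ e ∈ inc v, Real.exp (-(2 * x e)) := Real.exp_sum _ _
        _ ≤ qq x v := by
            apply Finset.prod_le_prod
            · intro e _
              exact (Real.exp_pos _).le
            · intro e _
              exact h2 _ (h0 e) (h1 e)
    have hμx : y ≤ μ := by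
      have h2 : ∑ v : V, 1 / y ≤ μ := Finset.sum_le_sum fun v _ => hqv v
      rw [Finset.sum_const, Finset.card_univ, ← hn', nsmul_eq_mul] at h2
      refine le_trans (le_of_eq ?_) h2
      rw [← hx2]
      field_simp
    have hμ1 : 1 < μ := by linarith
    set X : Finset (Sym2 V) → ℝ := fun S => ∑ v : V, dj S (inc v) with hX
    have hE1 : ∑ S ∈ (prs V).powerset, wt (prs V) x S * X S = μ := by
      simp only [hX, Finset.mul_sum]
      rw [Finset.sum_comm]
      apply Finset.sum_congr rfl
      intro v _
      rw [sum_wt_dj _ _ (inc_subset v)]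
      rfl
    have hE2 : ∑ S ∈ (prs V).powerset, wt (prs V) x S * X S ^ 2 ≤
        μ ^ 2 + μ * (1 + Real.log n / 4) := by
      have h2 : ∀ S ∈ (prs V).powerset, wt (prs V) x S * X S ^ 2 =
          ∑ u : V, ∑ v : V, wt (prs V) x S * dj S (inc u ∪ inc v) := by
        intro S _
        rw [sq]
        simp only [hX]
        rw [Finset.sum_mul_sum, Finset.mul_sum]
        apply Finset.sum_congr rfl
        intro u _
        rw [Finset.mul_sum]
        apply Finset.sum_congr rfl
        intro v _
        congr 1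
        exact (dj_union S (inc u) (inc v)).symm
      rw [Finset.sum_congr rfl h2, Finset.sum_comm]
      have h3 : ∀ u ∈ (univ : Finset V), ∑ S ∈ (prs V).powerset, ∑ v : V,
          wt (prs V) x S * dj S (inc u ∪ inc v) ≤
          qq x u * μ + qq x u + qq x u * (Real.log n / 4) := by
        intro u _
        rw [Finset.sum_comm]
        have h4 : ∀ v ∈ (univ : Finset V), ∑ S ∈ (prs V).powerset,
            wt (prs V) x S * dj S (inc u ∪ inc v) ≤
            qq x u * qq x v + (if u = v then qq x u else 0) +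
              (if v ∈ univ.erase u then x s(u, v) * qq x u else 0) := by
          intro v _
          rw [sum_wt_dj _ _ (Finset.union_subset (inc_subset u) (inc_subset v))]
          exact pair_bound x h0 h1' u v
        refine le_trans (Finset.sum_le_sum h4) ?_
        rw [Finset.sum_add_distrib, Finset.sum_add_distrib, ← Finset.mul_sum, ← hμ,
          Finset.sum_ite_eq, if_pos (mem_univ _), ← Finset.sum_filter]
        have h5 : ∑ v ∈ univ.filter (fun v => v ∈ univ.erase u), x s(u, v) * qq x u ≤
            qq x u * (Real.log n / 4) := by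
          rw [← Finset.sum_mul]
          have h6 : univ.filter (fun v => v ∈ univ.erase u) = univ.erase u := by
            ext v
            simp
          rw [h6]
          have := mul_le_mul_of_nonneg_left (hdeg u) (qq_nonneg h1' u)
          linarith
        linarith
      refine le_trans (Finset.sum_le_sum h3) ?_
      rw [Finset.sum_add_distrib, Finset.sum_add_distrib, ← Finset.sum_mul, ← Finset.sum_mul,
        ← hμ]
      nlinarith
    have hP : ∀ S ∈ (prs V).powerset,
        isoNum (SimpleGraph.fromEdgeSet (S : Set (Sym2 V))) ≤ 1 → X S ≤ 1 := by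
      intro S hS hiso
      rw [Finset.mem_powerset] at hS
      have h9' : X S = ((univ.filter fun v : V => Disjoint S (inc v)).card : ℝ) := by
        rw [Finset.card_filter]
        push_cast
        apply Finset.sum_congr rfl
        intro v _
        unfold dj
        split_ifs <;> rfl
      rw [h9']
      have h9 : (univ.filter fun v : V => Disjoint S (inc v)).card =
          isoNum (SimpleGraph.fromEdgeSet (S : Set (Sym2 V))) := by
        unfold isoNum
        congr 1
        ext v
        simp only [mem_filter, mem_univ, true_and]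
        exact disjoint_inc v S hS
      rw [h9]
      exact_mod_cast hiso
    have hch := cheb (prs V) x h0 h1' X μ (1 + Real.log n / 4) hμ1 hE1 hE2
      (fun S => isoNum (SimpleGraph.fromEdgeSet (S : Set (Sym2 V))) ≤ 1) hP
    refine le_trans hch ?_
    have hμ2 : μ ^ 2 / 2 ≤ (μ - 1) ^ 2 := by nlinarith
    have hμ0 : 0 < μ := by linarith
    calc μ * (1 + Real.log n / 4) / (μ - 1) ^ 2 ≤ μ * (1 + Real.log n / 4) / (μ ^ 2 / 2) := by
          apply div_le_div_of_nonneg_left _ (by positivity) hμ2
          positivity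
      _ = (2 + Real.log n / 2) / μ := by
          field_simp
          ring
      _ ≤ (2 + Real.log n / 2) / y := by
          apply div_le_div_of_nonneg_left _ hx0 hμx
          positivity
      _ ≤ (2 + Real.log n) / y := by
          apply div_le_div_of_nonneg_right _ hx0.le
          linarith

theorem not_injective_of_isolated {V : Type} [Fintype V] (G : SimpleGraph V) {u v : V}
    (hu : ∀ y, ¬ G.Adj u y) (hv : ∀ y, ¬ G.Adj v y) (k : ℕ) : col G k u = col G k v := by
  classical
  induction k with
  | zero => rfl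
  | succ k ih =>
    have h1 : ∀ w : V, (∀ y, ¬ G.Adj w y) → col G (k + 1) w = (col G k w, 0) := by
      intro w hw
      simp only [col]
      congr 1
      rw [Finset.filter_false_of_mem (fun y _ => hw y)]
      simp
    rw [h1 u hu, h1 v hv, ih]

end Pool.Agent.CRH
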