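import Pool.Agent.CRH.Defs

/-!
# MODULE Match: disjoint monochromatic pairs

Paper proof: induction on `s`. For `s = 0` nothing to do. For `s + 1`: `#(A.image κ) + 2 s + 2 ≤ #A + 1`
implies `#(A.image κ) < #A`, so there are `p ≠ q` in `A` with `κ p = κ q` (pigeonhole,
`Finset.exists_ne_map_eq_of_card_lt_of_maps_to`). Apply the induction hypothesis to `A \ {p, q}` (its
image is not larger, it has `#A - 2` elements) and extend with `Fin.cons`.
-/

namespace Pool.Agent.CRH

open Finset

open scoped Classical in
theorem exists_pairs {α γ : Type} (κ : α → γ) (s : ℕ) (A : Finset α)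
    (h : (A.image κ).card + 2 * s ≤ A.card + 1) :
    ∃ w w' : Fin s → α, Function.Injective w ∧ Function.Injective w' ∧ (∀ i j, w i ≠ w' j) ∧
      (∀ i, w i ∈ A) ∧ (∀ i, w' i ∈ A) ∧ ∀ i, κ (w i) = κ (w' i) := by
  induction s generalizing A with
  | zero =>
    exact ⟨Fin.elim0, Fin.elim0, fun i => i.elim0, fun i => i.elim0, fun i => i.elim0,
      fun i => i.elim0, fun i => i.elim0, fun i => i.elim0⟩
  | succ s ih =>
    have hlt : (A.image κ).card < A.card := by omega
    obtain ⟨p, hp, q, hq, hpq, hκ⟩ := Finset.exists_ne_map_eq_of_card_lt_of_maps_to hlt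
      (f := κ) (fun x hx => Finset.mem_coe.2 (Finset.mem_image_of_mem κ hx))
    have hq' : q ∈ A.erase p := Finset.mem_erase.2 ⟨hpq.symm, hq⟩
    have hc : ((A.erase p).erase q).card + 2 = A.card := by
      have h1 := Finset.card_erase_add_one hq'
      have h2 := Finset.card_erase_add_one hp
      omega
    have hi : (((A.erase p).erase q).image κ).card ≤ (A.image κ).card :=
      Finset.card_le_card (Finset.image_subset_image
        ((Finset.erase_subset _ _).trans (Finset.erase_subset _ _)))
    obtain ⟨w, w', h1, h2, h3, h4, h5, h6⟩ := ih ((A.erase p).erase q) (by omega)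
    have hw : ∀ i, w i ≠ q ∧ w i ≠ p ∧ w i ∈ A := fun i => by
      have := h4 i
      rw [Finset.mem_erase, Finset.mem_erase] at this
      exact this
    have hw' : ∀ i, w' i ≠ q ∧ w' i ≠ p ∧ w' i ∈ A := fun i => by
      have := h5 i
      rw [Finset.mem_erase, Finset.mem_erase] at this
      exact this
    refine ⟨Fin.cons p w, Fin.cons q w', ?_, ?_, ?_, ?_, ?_, ?_⟩
    · rw [Fin.cons_injective_iff]
      refine ⟨?_, h1⟩
      rintro ⟨i, hi⟩
      exact (hw i).2.1 hi
    · rw [Fin.cons_injective_iff]
      refine ⟨?_, h2⟩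
      rintro ⟨i, hi⟩
      exact (hw' i).1 hi
    · intro i j
      refine Fin.cases ?_ (fun i => ?_) i
      · refine Fin.cases ?_ (fun j => ?_) j
        · simpa using hpq
        · simpa using (hw' j).2.1.symm
      · refine Fin.cases ?_ (fun j => ?_) j
        · simpa using (hw i).1
        · simpa using h3 i j
    · intro i
      refine Fin.cases ?_ (fun i => ?_) i
      · simpa using hp
      · simpa using (hw i).2.2
    · intro i
      refine Fin.cases ?_ (fun i => ?_) i
      · simpa using hq
      · simpa using (hw' i).2.2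
    · intro i
      refine Fin.cases ?_ (fun i => ?_) i
      · simpa using hκ
      · simpa using h6 i

end Pool.Agent.CRH
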