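import Pool.Agent.CRH.Defs

/-!
# MODULE Numeric: the parameters

Paper proof. With `t = s^2` and `q = (1/2)^t`:
* `64 s + 1 ≤ 2^s` and `s^4 ≤ 2^s` (`s ≥ 16`), so `(64 s + 1)^s ≤ 2^t` and
  `(64 s^2)^(2s) = 2^(12 s) s^(4s) ≤ 2^(2 t)`.
* the first summand is `≤ q^(-3) * (q^64 + q^(-1) q^16) ≤ 2 q^12`.
* `(64 s^2 - 2 s)/8 ≥ 7 s^2`, so the second summand is at most `2 q^5`
  (`(1 + y)^n ≤ exp (n y) ≤ 1 + 2 n y` if `0 ≤ n y ≤ 1`).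
* sum `≤ 4 q^5 ≤ q^4`.
-/

namespace Pool.Agent.CRH

theorem numeric_pow4 (s : ℕ) (hs : 16 ≤ s) : s ^ 4 ≤ 2 ^ s := by
  induction s, hs using Nat.le_induction with
  | base => norm_num
  | succ k hk ih =>
    have h1 : (k + 1) ^ 4 ≤ 2 * k ^ 4 := by
      have : k ^ 4 = k * k ^ 3 := by ring
      nlinarith [Nat.zero_le (k ^ 3), Nat.zero_le (k ^ 2), Nat.mul_le_mul hk (le_refl (k ^ 3)),
        Nat.mul_le_mul hk (le_refl (k ^ 2)), Nat.mul_le_mul hk (le_refl k)]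
    calc (k + 1) ^ 4 ≤ 2 * k ^ 4 := h1
      _ ≤ 2 * 2 ^ k := Nat.mul_le_mul le_rfl ih
      _ = 2 ^ (k + 1) := by ring

theorem numeric_lin (s : ℕ) (hs : 16 ≤ s) : 64 * s + 1 ≤ 2 ^ s := by
  induction s, hs using Nat.le_induction with
  | base => norm_num
  | succ k hk ih =>
    calc 64 * (k + 1) + 1 ≤ 2 * (64 * k + 1) := by omega
      _ ≤ 2 * 2 ^ k := Nat.mul_le_mul le_rfl ih
      _ = 2 ^ (k + 1) := by ring

theorem numeric_exp (n : ℕ) (y : ℝ) (hy : 0 ≤ y) (h : n * y ≤ 1) :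
    (1 + y) ^ n - 1 ≤ 2 * (n * y) := by
  have h1 : (1 + y) ^ n ≤ Real.exp (n * y) := by
    rw [Real.exp_nat_mul]
    apply pow_le_pow_left₀ (by linarith)
    linarith [Real.add_one_le_exp y]
  have h0 : 0 ≤ n * y := by positivity
  have h2 : |Real.exp (n * y) - 1| ≤ 2 * |n * y| := by
    apply Real.abs_exp_sub_one_le
    rw [abs_of_nonneg h0]; exact h
  rw [abs_of_nonneg h0] at h2
  have h3 := le_abs_self (Real.exp (n * y) - 1)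
  linarith

theorem numeric (s : ℕ) (hs : 16 ≤ s) (n : ℕ) (hn : n ≤ 2 ^ s ^ 2) :
    (n : ℝ) * ((64 * s ^ 2 : ℕ) : ℝ) ^ (2 * s) * ((1 / 2) ^ (s * (64 * s)) +
        (((64 * s : ℕ) : ℝ) + 1) ^ s * (1 / 2) ^ (s * (64 * s) / 4)) +
      ((1 + n * (1 / 2 : ℝ) ^ ((64 * s ^ 2 - 2 * s) / 8)) ^ n - 1) ≤ (1 / 2) ^ (4 * s ^ 2) := by
  have hss : 16 * s ≤ s ^ 2 := by nlinarith
  obtain ⟨t, ht⟩ : ∃ t, t = s ^ 2 := ⟨_, rfl⟩
  have ht2 : 256 ≤ t := by nlinarith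
  obtain ⟨q, hq⟩ : ∃ q : ℝ, q = (1 / 2) ^ t := ⟨_, rfl⟩
  obtain ⟨Q, hQ⟩ : ∃ Q : ℝ, Q = 2 ^ t := ⟨_, rfl⟩
  have hqQ : Q * q = 1 := by
    rw [hq, hQ, ← mul_pow]; norm_num
  have hq0 : 0 < q := by rw [hq]; positivity
  have hQ0 : 0 < Q := by rw [hQ]; positivity
  have hq4 : q ≤ 1 / 4 := by
    rw [hq]
    calc (1 / 2 : ℝ) ^ t ≤ (1 / 2) ^ 2 := pow_le_pow_of_le_one (by norm_num) (by norm_num) (by omega)
      _ = 1 / 4 := by norm_num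
  have hnQ : (n : ℝ) ≤ Q := by
    rw [hQ, ht]; exact_mod_cast hn
  -- the power of `64 s^2`
  have hA : ((64 * s ^ 2 : ℕ) : ℝ) ^ (2 * s) ≤ Q ^ 2 := by
    have h1 : (64 * s ^ 2) ^ (2 * s) ≤ (2 ^ t) ^ 2 := by
      calc (64 * s ^ 2) ^ (2 * s) = 2 ^ (12 * s) * (s ^ 4) ^ s := by
            rw [mul_pow, ← pow_mul, ← pow_mul, show (64 : ℕ) = 2 ^ 6 by norm_num, ← pow_mul]
            congr 1 <;> ring_nf
        _ ≤ 2 ^ t * (2 ^ s) ^ s := by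
            apply Nat.mul_le_mul
            · exact Nat.pow_le_pow_right (by norm_num) (by omega)
            · exact Nat.pow_le_pow_left (numeric_pow4 s hs) s
        _ = (2 ^ t) ^ 2 := by
            rw [← pow_mul, show s * s = t by rw [ht]; ring]; ring
    rw [hQ]
    exact_mod_cast h1
  have hB : (((64 * s : ℕ) : ℝ) + 1) ^ s ≤ Q := by
    have h1 : (64 * s + 1) ^ s ≤ 2 ^ t := by
      calc (64 * s + 1) ^ s ≤ (2 ^ s) ^ s := Nat.pow_le_pow_left (numeric_lin s hs) s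
        _ = 2 ^ t := by rw [← pow_mul, ht]; ring_nf
    rw [hQ]
    exact_mod_cast h1
  have e1 : s * (64 * s) = t * 64 := by rw [ht]; ring
  have e2 : s * (64 * s) / 4 = t * 16 := by rw [e1]; omega
  have e3 : (1 / 2 : ℝ) ^ (s * (64 * s)) = q ^ 64 := by rw [e1, pow_mul, hq]
  have e4 : (1 / 2 : ℝ) ^ (s * (64 * s) / 4) = q ^ 16 := by rw [e2, pow_mul, hq]
  have e5 : (1 / 2 : ℝ) ^ (4 * s ^ 2) = q ^ 4 := by rw [← ht, mul_comm, pow_mul, hq]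
  have e6 : (1 / 2 : ℝ) ^ ((64 * s ^ 2 - 2 * s) / 8) ≤ q ^ 7 := by
    rw [hq, ← pow_mul]
    apply pow_le_pow_of_le_one (by norm_num) (by norm_num)
    omega
  rw [e3, e4, e5]
  obtain ⟨z, hz⟩ : ∃ z : ℝ, z = (1 / 2 : ℝ) ^ ((64 * s ^ 2 - 2 * s) / 8) := ⟨_, rfl⟩
  rw [← hz] at e6 ⊢
  have hz0 : 0 ≤ z := by rw [hz]; positivity
  have hn0 : (0 : ℝ) ≤ n := Nat.cast_nonneg n
  have first : (n : ℝ) * ((64 * s ^ 2 : ℕ) : ℝ) ^ (2 * s) * (q ^ 64 +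
      (((64 * s : ℕ) : ℝ) + 1) ^ s * q ^ 16) ≤ 2 * q ^ 12 := by
    calc (n : ℝ) * ((64 * s ^ 2 : ℕ) : ℝ) ^ (2 * s) * (q ^ 64 +
          (((64 * s : ℕ) : ℝ) + 1) ^ s * q ^ 16) ≤ Q * Q ^ 2 * (q ^ 64 + Q * q ^ 16) := by
          gcongr
      _ = (Q * q) ^ 3 * q ^ 61 + (Q * q) ^ 4 * q ^ 12 := by ring
      _ = q ^ 61 + q ^ 12 := by rw [hqQ]; ring
      _ ≤ q ^ 12 + q ^ 12 := by
          gcongr ?_ + _
          exact pow_le_pow_of_le_one hq0.le (by linarith) (by norm_num)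
      _ = 2 * q ^ 12 := by ring
  have hny : (n : ℝ) * (n * z) ≤ q ^ 5 := by
    calc (n : ℝ) * (n * z) ≤ Q * (Q * q ^ 7) := by gcongr
      _ = (Q * q) ^ 2 * q ^ 5 := by ring
      _ = q ^ 5 := by rw [hqQ]; ring
  have hq5 : q ^ 5 ≤ 1 := pow_le_one₀ hq0.le (by linarith)
  have second := numeric_exp n (n * z) (by positivity) (hny.trans hq5)
  have h12 : q ^ 12 ≤ q ^ 5 := pow_le_pow_of_le_one hq0.le (by linarith) (by norm_num)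
  have h45 : 4 * q ^ 5 ≤ q ^ 4 := by
    have : q ^ 5 = q ^ 4 * q := by ring
    rw [this]
    have h4 : 0 < q ^ 4 := by positivity
    nlinarith
  linarith

end Pool.Agent.CRH
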