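import Pool.Agent.CRH.Prob
import Pool.Agent.CRH.Diversity
import Pool.Agent.CRH.Links

/-!
# MODULE Pairs: the probability that `s` given pairs have equal colours after two rounds

Paper proof. The event is contained in `{2 tot < s m} ∪ {s m ≤ 2 tot, all pairs equal}`.
First event: `Pr_fiber` with `j (y, l) = s(x y, z y l)` (injective: if `{x y, z y l} = {x y', z y' l'}` then
`x y = x y'` because `x y ≠ z y' l'`; so `y = y'`, `z y l = z y l'`, `l = l'`). For fixed `a` and
`ζ : Y × Fin (2N') → Bool` and `G = gr G₀ H (extend j ζ a)`: `D G w x y = base y + #{l | ζ (y, l) = true}` with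
`base y = #{v | v ≠ w y.1, v not in the range of z y, (gr G₀ H a).Adj (x y) v}`: the pairs `{x y, v}` with `v`
not in the range of `z y` are not of the form `j (y', l')`; the pairs `{x y, z y l} = j (y, l)` are edges
of `H` with bit `ζ (y, l)`, `z y l ≠ w y.1` and `z y` is injective. So `diversity` gives
`≤ (1/2)^(s m)`.
Second event: `Pr_fiber` with `j = lk w x`; `tot` does not depend on the link bits (`D_link`), so for
given `a` the event is empty unless `s m ≤ 2 tot (gr G₀ H a) w x`, and then `links` applies.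
-/

namespace Pool.Agent.CRH

open Finset

/-- the pairs `{x y, z y l}` -/
def jz {V : Type} {s m N : ℕ} (x : Fin s × Fin m → V) (z : Fin s × Fin m → Fin N → V)
    (p : (Fin s × Fin m) × Fin N) : Sym2 V := s(x p.1, z p.1 p.2)

theorem jz_inj {V : Type} {H : SimpleGraph V} {s m N : ℕ}
    {w w' : Fin s → V} {x : Fin s × Fin m → V} {z : Fin s × Fin m → Fin N → V}
    (hc : IsCfg H s m N w w' x z) : Function.Injective (jz x z) := by
  rintro ⟨y, l⟩ ⟨y', l'⟩ h
  simp only [jz] at h
  rw [Sym2.eq_iff] at h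
  rcases h with ⟨h1, h2⟩ | ⟨h1, -⟩
  · have hy := hc.xinj h1
    subst hy
    have hl := hc.zinj y h2
    subst hl
    rfl
  · exact absurd h1.symm (hc.zx y' l' y)

theorem adj_jz {V : Type} (G₀ : SimpleGraph V) {H : SimpleGraph V} {s m N : ℕ}
    {w w' : Fin s → V} {x : Fin s × Fin m → V} {z : Fin s × Fin m → Fin N → V}
    (hc : IsCfg H s m N w w' x z) (a : Sym2 V → Bool) (ζ : (Fin s × Fin m) × Fin N → Bool)
    (y : Fin s × Fin m) (l : Fin N) :
    (gr G₀ H (Function.extend (jz x z) ζ a)).Adj (x y) (z y l) ↔ ζ (y, l) = true := by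
  have h1 : H.Adj (x y) (z y l) := hc.hz y l
  have h2 : Function.extend (jz x z) ζ a s(x y, z y l) = ζ (y, l) :=
    (jz_inj hc).extend_apply ζ a (y, l)
  simp only [gr, h1, if_true, h2]

theorem adj_jz_off {V : Type} (G₀ : SimpleGraph V) {H : SimpleGraph V} {s m N : ℕ}
    {w w' : Fin s → V} {x : Fin s × Fin m → V} {z : Fin s × Fin m → Fin N → V}
    (hc : IsCfg H s m N w w' x z) (a : Sym2 V → Bool) (ζ : (Fin s × Fin m) × Fin N → Bool)
    (y : Fin s × Fin m) (v : V) (hv : ∀ l, v ≠ z y l) :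
    (gr G₀ H (Function.extend (jz x z) ζ a)).Adj (x y) v ↔ (gr G₀ H a).Adj (x y) v := by
  have h2 : Function.extend (jz x z) ζ a s(x y, v) = a s(x y, v) := by
    apply Function.extend_apply'
    rintro ⟨⟨y', l'⟩, h⟩
    simp only [jz] at h
    rw [Sym2.eq_iff] at h
    rcases h with ⟨h1, h2⟩ | ⟨-, h1⟩
    · have hy := hc.xinj h1
      subst hy
      exact hv l' h2.symm
    · exact hc.zx y' l' y h1
  simp only [gr, h2]

open scoped Classical in
theorem D_jz {V : Type} [Fintype V] (G₀ : SimpleGraph V) {H : SimpleGraph V} {s m N : ℕ}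
    {w w' : Fin s → V} {x : Fin s × Fin m → V} {z : Fin s × Fin m → Fin N → V}
    (hc : IsCfg H s m N w w' x z) (a : Sym2 V → Bool) (ζ : (Fin s × Fin m) × Fin N → Bool)
    (y : Fin s × Fin m) :
    D (gr G₀ H (Function.extend (jz x z) ζ a)) w x y =
      (univ.filter fun v : V => (gr G₀ H a).Adj (x y) v ∧ v ≠ w y.1 ∧ ∀ l, v ≠ z y l).card
        + (univ.filter fun l => ζ (y, l) = true).card := by
  have hD : D (gr G₀ H (Function.extend (jz x z) ζ a)) w x y = (univ.filter fun v : V =>
      (gr G₀ H (Function.extend (jz x z) ζ a)).Adj (x y) v ∧ v ≠ w y.1).card := by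
    unfold D nb
    congr
  rw [hD]
  have hsplit : (univ.filter fun v : V =>
      (gr G₀ H (Function.extend (jz x z) ζ a)).Adj (x y) v ∧ v ≠ w y.1) =
      (univ.filter fun v : V => (gr G₀ H a).Adj (x y) v ∧ v ≠ w y.1 ∧ ∀ l, v ≠ z y l) ∪
      (univ.filter fun l => ζ (y, l) = true).image (z y) := by
    ext v
    simp only [mem_filter, mem_univ, true_and, mem_union, mem_image]
    constructor
    · rintro ⟨h1, h2⟩
      by_cases hv : ∀ l, v ≠ z y l
      · left
        exact ⟨(adj_jz_off G₀ hc a ζ y v hv).1 h1, h2, hv⟩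
      · right
        push Not at hv
        obtain ⟨l, rfl⟩ := hv
        exact ⟨l, (adj_jz G₀ hc a ζ y l).1 h1, rfl⟩
    · rintro (⟨h1, h2, h3⟩ | ⟨l, h1, rfl⟩)
      · exact ⟨(adj_jz_off G₀ hc a ζ y v h3).2 h1, h2⟩
      · exact ⟨(adj_jz G₀ hc a ζ y l).2 h1, hc.zw y l y.1⟩
  rw [hsplit, card_union_of_disjoint, card_image_of_injective _ (hc.zinj y)]
  rw [disjoint_left]
  intro v hv hv'
  simp only [mem_filter, mem_univ, true_and, mem_image] at hv hv'
  obtain ⟨l, -, rfl⟩ := hv'
  exact hv.2.2 l rfl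

theorem pairs {V : Type} [Fintype V] [DecidableEq V] (G₀ H : SimpleGraph V) {s m N' : ℕ}
    (hN : (16 * m) ^ 2 ≤ 2 * N' + 1)
    {w w' : Fin s → V} {x : Fin s × Fin m → V} {z : Fin s × Fin m → Fin (2 * N') → V}
    (hc : IsCfg H s m (2 * N') w w' x z) :
    Pr (fun a : Sym2 V → Bool =>
      ∀ i, col (gr G₀ H a) 2 (w i) = col (gr G₀ H a) 2 (w' i))
      ≤ (1 / 2) ^ (s * m) + ((m : ℝ) + 1) ^ s * (1 / 2) ^ (s * m / 4) := by
  classical
  have h0 : Pr (fun a : Sym2 V → Bool =>
      ∀ i, col (gr G₀ H a) 2 (w i) = col (gr G₀ H a) 2 (w' i)) ≤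
      Pr (fun a : Sym2 V → Bool => (2 * tot (gr G₀ H a) w x < s * m) ∨
        (s * m ≤ 2 * tot (gr G₀ H a) w x ∧
          ∀ i, col (gr G₀ H a) 2 (w i) = col (gr G₀ H a) 2 (w' i))) := by
    apply Pr_mono
    intro a ha
    rcases lt_or_ge (2 * tot (gr G₀ H a) w x) (s * m) with h | h
    · exact Or.inl h
    · exact Or.inr ⟨h, ha⟩
  refine h0.trans ((Pr_or _ _).trans (add_le_add ?_ ?_))
  · refine Pr_fiber (jz x z) (jz_inj hc) _ _ ?_
    intro a
    have h1 := diversity s m N' hN (fun y => (univ.filter fun v : V =>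
      (gr G₀ H a).Adj (x y) v ∧ v ≠ w y.1 ∧ ∀ l, v ≠ z y l).card)
    refine le_trans (Pr_mono ?_) h1
    intro ζ hζ
    unfold tot at hζ
    simp only [D_jz G₀ hc a ζ] at hζ
    convert hζ
  · refine Pr_fiber (lk w x) (lk_inj hc) _ _ ?_
    intro a
    by_cases ht : s * m ≤ 2 * tot (gr G₀ H a) w x
    · refine le_trans (Pr_mono ?_) (links G₀ H hc a ht)
      intro η hη
      exact hη.2
    · have h2 : Pr (fun η : Fin s × Fin m → Bool =>
          s * m ≤ 2 * tot (gr G₀ H (Function.extend (lk w x) η a)) w x ∧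
          ∀ i, col (gr G₀ H (Function.extend (lk w x) η a)) 2 (w i) =
            col (gr G₀ H (Function.extend (lk w x) η a)) 2 (w' i)) ≤ 0 := by
        have h3 : ∀ η : Fin s × Fin m → Bool,
            tot (gr G₀ H (Function.extend (lk w x) η a)) w x = tot (gr G₀ H a) w x := by
          intro η
          unfold tot
          simp only [D_link G₀ hc a η]
        have h5 : (fun η : Fin s × Fin m → Bool =>
          s * m ≤ 2 * tot (gr G₀ H (Function.extend (lk w x) η a)) w x ∧
          ∀ i, col (gr G₀ H (Function.extend (lk w x) η a)) 2 (w i) =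
            col (gr G₀ H (Function.extend (lk w x) η a)) 2 (w' i)) = fun _ => False := by
          funext η
          rw [h3]
          simp only [ht, false_and]
        rw [h5]
        simp [Pr]
      refine h2.trans ?_
      positivity

end Pool.Agent.CRH
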