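import Pool.Agent.CRH.Match

/-!
# MODULE Select: choice of independent equations

Let `q = #{v | f v ≠ v}`. Paper proof.
(1) `#(univ.image f) = |V| - q` (`f` is idempotent: its image is the set of fixed points). By
`exists_pairs` with `κ = f`, `A = univ`, `r = (q + 1) / 2` there are `u, v : Fin r → V`, injective with
disjoint ranges, with `f (u j) = f (v j)`. Note `q ≤ 2 r`.
(2) For each `j` and each `c ∈ (A (u j)).image f` choose `z j c ∈ A (u j)` with `f (z j c) = c`
(`z j c ≠ u j` because `H.Adj (u j) (z j c)`). Let `C j` be the set of the `c` in `(A (u j)).image f`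
with `z j c ≠ v j`; as only `c = f (v j)` can be excluded, `#(C j) ≥ R`.
(3) For a subset `P` of `Fin r` let `E_P` be the set of the `(j, c)`, `j ∈ P`, `c ∈ C j` such that
`z j c` is not `u i` or `v i` for any `i ∈ P`. Averaging over all `2^r` subsets `P`: for fixed
`(j, c)`, `c ∈ C j`: if `z j c` is not in any pair at all, half of the `P` (all `P` with `j ∈ P`) are
good, if `z j c ∈ {u i, v i}` (then `i ≠ j`, and `i` is unique) a quarter of the `P` (those with
`j ∈ P`, `i ∉ P`) are good. So `∑_P #E_P ≥ 2^r/4 * ∑_j #(C j) ≥ 2^r * r R / 4`, hence there is a `P`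
with `4 * #E_P ≥ r * R`, so `8 * #E_P ≥ q * R`.
(4) Let `E = {(u j, z j c) | (j, c) ∈ E_P}` (injective map, so `#E = #E_P`) and `v' (u j) = v j`.
-/

namespace Pool.Agent.CRH

open Finset

/-- Many subsets contain `j` and avoid a set `B` with at most one element. -/
lemma card_good_ge {r : ℕ} (j : Fin r) (B : Finset (Fin r)) (hjB : j ∉ B) (hB : B.card ≤ 1) :
    2 ^ r ≤ 4 * ((univ : Finset (Fin r)).powerset.filter fun P => j ∈ P ∧ ∀ i ∈ B, i ∉ P).card := by
  classical
  set S := (univ : Finset (Fin r)) \ insert j B with hS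
  have hScard : S.card + (insert j B).card = r := by
    rw [hS, card_sdiff_add_card_eq_card (subset_univ _), card_univ, Fintype.card_fin]
  have hb : (insert j B).card ≤ 2 := by
    have := card_insert_le j B
    omega
  have hinj : S.powerset.card ≤
      ((univ : Finset (Fin r)).powerset.filter fun P => j ∈ P ∧ ∀ i ∈ B, i ∉ P).card := by
    apply card_le_card_of_injOn (fun Q => insert j Q)
    · intro Q hQ
      have hQ' : Q ⊆ S := by simpa using hQ
      simp only [coe_filter, mem_powerset, Set.mem_ofPred_eq, subset_univ, true_and, mem_insert,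
        true_or, not_or]
      intro i hi
      refine ⟨fun h => hjB (h ▸ hi), fun h => ?_⟩
      have := hQ' h
      rw [hS, mem_sdiff] at this
      exact this.2 (mem_insert_of_mem hi)
    · intro Q hQ Q' hQ' h
      have hQ1 : Q ⊆ S := by simpa using hQ
      have hQ2 : Q' ⊆ S := by simpa using hQ'
      have hj1 : j ∉ Q := fun hj => (mem_sdiff.mp (hQ1 hj)).2 (mem_insert_self _ _)
      have hj2 : j ∉ Q' := fun hj => (mem_sdiff.mp (hQ2 hj)).2 (mem_insert_self _ _)
      have h' : insert j Q = insert j Q' := h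
      rw [← erase_insert hj1, ← erase_insert hj2, h']
  rw [card_powerset] at hinj
  have h1 : 2 ^ r = 2 ^ S.card * 2 ^ (insert j B).card := by rw [← pow_add, hScard]
  have h2 : 2 ^ (insert j B).card ≤ 2 ^ 2 := Nat.pow_le_pow_right (by norm_num) hb
  calc 2 ^ r = 2 ^ S.card * 2 ^ (insert j B).card := h1
    _ ≤ 2 ^ S.card * 2 ^ 2 := Nat.mul_le_mul_left _ h2
    _ = 4 * 2 ^ S.card := by ring
    _ ≤ _ := Nat.mul_le_mul_left _ hinj

open scoped Classical in
theorem select {V : Type} [Fintype V] [DecidableEq V] (H : SimpleGraph V) (A : V → Finset V)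
    (hA : ∀ u, ∀ y ∈ A u, H.Adj u y) (f : V → V) (hf : ∀ v, f (f v) = f v) (R : ℕ)
    (hR : ∀ u, R + 1 ≤ ((A u).image f).card) :
    ∃ (v' : V → V) (E : Finset (V × V)),
      (univ.filter fun v => f v ≠ v).card * R ≤ 8 * E.card ∧
      (∀ e ∈ E, H.Adj e.1 e.2 ∧ f (v' e.1) = f e.1) ∧
      (∀ e ∈ E, ∀ e' ∈ E, e.1 = e'.1 → f e.2 = f e'.2 → e = e') ∧
      (∀ e ∈ E, ∀ e' ∈ E, e.2 ≠ e'.1 ∧ e.2 ≠ v' e'.1 ∧ e.1 ≠ v' e'.1) := by
  set q := (univ.filter fun v => f v ≠ v).card with hq
  -- (1) the pairs
  have himg : (univ.image f).card + q = Fintype.card V := by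
    have h1 : univ.image f = univ.filter fun v => f v = v := by
      ext x
      simp only [mem_image, mem_univ, true_and, mem_filter]
      constructor
      · rintro ⟨y, rfl⟩
        exact hf y
      · intro h
        exact ⟨x, h⟩
    rw [h1, hq, ← card_univ]
    exact card_filter_add_card_filter_not _
  obtain ⟨r, hr1, hqr⟩ : ∃ r, 2 * r ≤ q + 1 ∧ q ≤ 2 * r := ⟨(q + 1) / 2, by omega, by omega⟩
  obtain ⟨u, v, hu, hv, huv, -, -, hfuv⟩ := exists_pairs f r (univ : Finset V) (by
    have h0 : ((univ : Finset V).image f).card + q = (univ : Finset V).card := by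
      rw [card_univ]
      exact himg
    have h2 : (@Finset.image V V (fun a b => Classical.propDecidable (a = b)) f univ).card =
        ((univ : Finset V).image f).card := by
      congr 1
      ext b
      simp only [mem_image]
    omega)
  -- (2) the representatives
  have hz : ∀ j : Fin r, ∀ c : V, ∃ z : V, c ∈ (A (u j)).image f → z ∈ A (u j) ∧ f z = c := by
    intro j c
    by_cases h : c ∈ (A (u j)).image f
    · obtain ⟨z, hz1, hz2⟩ := mem_image.mp h
      exact ⟨z, fun _ => ⟨hz1, hz2⟩⟩
    · exact ⟨c, fun h' => absurd h' h⟩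
  choose z hz using hz
  let C : Fin r → Finset V := fun j => ((A (u j)).image f).filter fun c => z j c ≠ v j
  have hC : ∀ j, R ≤ (C j).card := by
    intro j
    have h1 : ((A (u j)).image f).erase (f (v j)) ⊆ C j := by
      intro c hc
      rw [mem_erase] at hc
      rw [mem_filter]
      refine ⟨hc.2, fun h => hc.1 ?_⟩
      rw [← (hz j c hc.2).2, h]
    have h2 := card_le_card h1
    have h3 := pred_card_le_card_erase (s := (A (u j)).image f) (a := f (v j))
    have h4 := hR (u j)
    omega
  -- (3) averaging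
  let T : Finset (Fin r × V) := univ.filter fun p => p.2 ∈ C p.1
  let good : Finset (Fin r) → Fin r × V → Prop := fun P p =>
    p.1 ∈ P ∧ ∀ i ∈ P, z p.1 p.2 ≠ u i ∧ z p.1 p.2 ≠ v i
  have hTcard : r * R ≤ T.card := by
    have h1 : T.card = ∑ j : Fin r, (C j).card := by
      have : T = univ.biUnion fun j : Fin r => (C j).image fun c => (j, c) := by
        ext ⟨j, c⟩
        simp [T]
      rw [this, card_biUnion]
      · apply sum_congr rfl
        intro j _
        rw [card_image_of_injective]
        intro c c' h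
        simpa using h
      · intro j _ j' _ hjj
        rw [Function.onFun, disjoint_left]
        rintro ⟨a, b⟩ h1 h2
        simp only [mem_image, Prod.mk.injEq] at h1 h2
        obtain ⟨c, _, h3, _⟩ := h1
        obtain ⟨c', _, h4, _⟩ := h2
        exact hjj (h3.trans h4.symm)
    rw [h1]
    calc r * R = ∑ _j : Fin r, R := by simp
      _ ≤ _ := sum_le_sum fun j _ => hC j
  have hgood : ∀ p ∈ T, 2 ^ r ≤
      4 * ((univ : Finset (Fin r)).powerset.filter fun P => good P p).card := by
    rintro ⟨j, c⟩ hp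
    have hc : c ∈ (A (u j)).image f ∧ z j c ≠ v j := by
      simpa [T, C] using hp
    have hadj := hA (u j) (z j c) (hz j c hc.1).1
    have hne : z j c ≠ u j := hadj.ne'
    let B : Finset (Fin r) := univ.filter fun i => z j c = u i ∨ z j c = v i
    have hjB : j ∉ B := by
      simp only [B, mem_filter, mem_univ, true_and, not_or]
      exact ⟨hne, hc.2⟩
    have hB : B.card ≤ 1 := by
      rw [card_le_one]
      intro a ha b hb
      simp only [B, mem_filter, mem_univ, true_and] at ha hb
      rcases ha with ha | ha <;> rcases hb with hb | hb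
      · exact hu (ha.symm.trans hb)
      · exact absurd (ha.symm.trans hb) (huv a b)
      · exact absurd (hb.symm.trans ha) (huv b a)
      · exact hv (ha.symm.trans hb)
    refine (card_good_ge j B hjB hB).trans (Nat.mul_le_mul_left _ (card_le_card ?_))
    intro P hP
    rw [mem_filter] at hP ⊢
    refine ⟨hP.1, hP.2.1, fun i hi => ?_⟩
    have : i ∉ B := fun h => hP.2.2 i h hi
    simpa only [B, mem_filter, mem_univ, true_and, not_or] using this
  obtain ⟨P, hP⟩ : ∃ P : Finset (Fin r), r * R ≤ 4 * (T.filter fun p => good P p).card := by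
    by_contra hcon
    push Not at hcon
    have h1 : ∑ P ∈ (univ : Finset (Fin r)).powerset, 4 * (T.filter fun p => good P p).card <
        ∑ P ∈ (univ : Finset (Fin r)).powerset, r * R :=
      sum_lt_sum_of_nonempty ⟨∅, by simp⟩ fun P _ => hcon P
    rw [sum_const, card_powerset, card_univ, Fintype.card_fin, smul_eq_mul, ← mul_sum] at h1
    have h2 : ∑ P ∈ (univ : Finset (Fin r)).powerset, (T.filter fun p => good P p).card =
        ∑ p ∈ T, ((univ : Finset (Fin r)).powerset.filter fun P => good P p).card := by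
      simp only [card_filter]
      exact sum_comm
    rw [h2, mul_sum] at h1
    have h3 : ∑ _p ∈ T, 2 ^ r ≤
        ∑ p ∈ T, 4 * ((univ : Finset (Fin r)).powerset.filter fun P => good P p).card :=
      sum_le_sum hgood
    rw [sum_const, smul_eq_mul] at h3
    have h4 : 2 ^ r * (r * R) ≤ 2 ^ r * T.card := Nat.mul_le_mul_left _ hTcard
    rw [mul_comm T.card] at h3
    omega
  -- (4) the result
  let EP := T.filter fun p => good P p
  have hEP : ∀ p ∈ EP, p.2 ∈ (A (u p.1)).image f ∧ p.1 ∈ P ∧
      ∀ i ∈ P, z p.1 p.2 ≠ u i ∧ z p.1 p.2 ≠ v i := by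
    intro p hp
    rw [mem_filter] at hp
    obtain ⟨hp1, hp2⟩ := hp
    simp only [T, C, mem_filter, mem_univ, true_and] at hp1
    exact ⟨hp1.1, hp2⟩
  have hfz : ∀ p ∈ EP, f (z p.1 p.2) = p.2 := fun p hp => (hz p.1 p.2 (hEP p hp).1).2
  have hinj : Set.InjOn (fun p : Fin r × V => (u p.1, z p.1 p.2)) (EP : Set (Fin r × V)) := by
    intro p hp p' hp' h
    simp only [Prod.mk.injEq] at h
    have h1 : p.1 = p'.1 := hu h.1
    have h2 : p.2 = p'.2 := by
      rw [← hfz p hp, ← hfz p' hp', h.2]
    exact Prod.ext h1 h2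
  refine ⟨Function.extend u v id, EP.image fun p => (u p.1, z p.1 p.2), ?_, ?_, ?_, ?_⟩
  · rw [card_image_of_injOn hinj]
    calc q * R ≤ 2 * r * R := Nat.mul_le_mul_right _ hqr
      _ = 2 * (r * R) := by ring
      _ ≤ 2 * (4 * EP.card) := Nat.mul_le_mul_left _ hP
      _ = 8 * EP.card := by ring
  · intro e he
    obtain ⟨p, hp, rfl⟩ := mem_image.mp he
    simp only
    rw [hu.extend_apply]
    exact ⟨hA _ _ (hz p.1 p.2 (hEP p hp).1).1, (hfuv p.1).symm⟩
  · intro e he e' he' h1 h2
    obtain ⟨p, hp, rfl⟩ := mem_image.mp he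
    obtain ⟨p', hp', rfl⟩ := mem_image.mp he'
    simp only at h1 h2
    have h3 : p.1 = p'.1 := hu h1
    have h4 : p.2 = p'.2 := by
      rw [← hfz p hp, ← hfz p' hp', h2]
    have : p = p' := Prod.ext h3 h4
    rw [this]
  · intro e he e' he'
    obtain ⟨p, hp, rfl⟩ := mem_image.mp he
    obtain ⟨p', hp', rfl⟩ := mem_image.mp he'
    simp only
    rw [hu.extend_apply]
    have h1 := (hEP p hp).2.2 p'.1 (hEP p' hp').2.1
    exact ⟨h1.1, h1.2, huv _ _⟩

end Pool.Agent.CRH
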