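import Pool.Agent.CRH.Prob
import Pool.Agent.CRH.Select

/-!
# MODULE Part: a given partition is equitable with small probability

Paper proof. Take `v'`, `E` from `select`. Let `B = {s(u, z) | (u, z) ∈ E}` (finset of `Sym2 V`); the map
`(u, z) ↦ s(u, z)` is injective on `E` because `z ≠ u'` for all `(u, z), (u', z') ∈ E`; so
`#B = #E ≥ q R / 8 ≥ (R/8) q`. By `Pr_determined` it is enough: if `Eqt (gr a) f`, `Eqt (gr a') f` and
`a = a'` off `B` then `a = a'`. Let `(u, z) ∈ E`, `c = f z`. By `Eqt` (as `f (v' u) = f u`):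
`nb (gr a) u {f = c} = nb (gr a) (v' u) {f = c}` and the same for `a'`. The pairs `{v' u, y}` are not in
`B` (`v' u ≠ u'`, `v' u ≠ z'` for all `(u', z') ∈ E`), so the right sides are equal for `a` and `a'`
(`gr a` and `gr a'` have the same adjacency at pairs outside `B`). Hence the left sides are equal.
Among the pairs `{u, y}` with `f y = c` only `y = z` can be in `B` (if `{u, y} = {u', z'}` with
`(u', z') ∈ E` then `u = u'`, `y = z'` because `u ≠ z'`, and then `f z' = f z` gives `z' = z`). So
`z` is adjacent to `u` in `gr a` iff it is in `gr a'`, and as `H.Adj u z`, `a s(u,z) = a' s(u,z)`.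
Finally `(1/2)^#B ≤ (1/2)^(R/8*q)`.
-/

namespace Pool.Agent.CRH

open Finset

theorem gr_adj_congr {V : Type} (G₀ H : SimpleGraph V) (a a' : Sym2 V → Bool) (u y : V)
    (h : a s(u, y) = a' s(u, y)) : (gr G₀ H a).Adj u y ↔ (gr G₀ H a').Adj u y := by
  simp only [gr]
  rw [h]

theorem gr_adj_of_adj {V : Type} (G₀ H : SimpleGraph V) (a : Sym2 V → Bool) (u y : V)
    (h : H.Adj u y) : (gr G₀ H a).Adj u y ↔ a s(u, y) = true := by
  simp only [gr]
  rw [if_pos h]

open scoped Classical in
theorem nb_congr {V : Type} [Fintype V] (G G' : SimpleGraph V) (u : V) (P : V → Prop)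
    (h : ∀ y, G.Adj u y ↔ G'.Adj u y) : nb G u P = nb G' u P := by
  unfold nb
  refine congrArg Finset.card (Finset.filter_congr ?_)
  intro y _
  rw [h y]

open scoped Classical in
theorem adj_of_nb_eq {V : Type} [Fintype V] (G G' : SimpleGraph V) (u z : V) (P : V → Prop)
    (hP : P z) (hn : nb G u P = nb G' u P) (h : ∀ y, y ≠ z → P y → (G.Adj u y ↔ G'.Adj u y)) :
    G.Adj u z ↔ G'.Adj u z := by
  unfold nb at hn
  set F := univ.filter (fun y => G.Adj u y ∧ P y) with hF
  set F' := univ.filter (fun y => G'.Adj u y ∧ P y) with hF'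
  have h5 : F.erase z = F'.erase z := by
    ext y
    simp only [hF, hF', Finset.mem_erase, Finset.mem_filter, Finset.mem_univ, true_and]
    constructor
    · rintro ⟨h1, h2, h3⟩
      exact ⟨h1, (h y h1 h3).1 h2, h3⟩
    · rintro ⟨h1, h2, h3⟩
      exact ⟨h1, (h y h1 h3).2 h2, h3⟩
  have h6 : z ∈ F ↔ z ∈ F' := by
    constructor
    · intro hz
      by_contra hz'
      have c1 := Finset.card_erase_of_mem hz
      have c2 := Finset.erase_eq_of_notMem hz'
      have c3 : 0 < F.card := Finset.card_pos.2 ⟨z, hz⟩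
      rw [h5, c2] at c1
      omega
    · intro hz
      by_contra hz'
      have c1 := Finset.card_erase_of_mem hz
      have c2 := Finset.erase_eq_of_notMem hz'
      have c3 : 0 < F'.card := Finset.card_pos.2 ⟨z, hz⟩
      rw [← h5, c2] at c1
      omega
  simpa [hF, hF', hP] using h6

open scoped Classical in
theorem part_bound {V : Type} [Fintype V] [DecidableEq V] (G₀ H : SimpleGraph V)
    (A : V → Finset V) (hA : ∀ u, ∀ y ∈ A u, H.Adj u y) (f : V → V) (hf : ∀ v, f (f v) = f v)
    (R : ℕ) (hR : ∀ u, R + 1 ≤ ((A u).image f).card) :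
    Pr (fun a : Sym2 V → Bool => Eqt (gr G₀ H a) f)
      ≤ (1 / 2) ^ (R / 8 * (univ.filter fun v => f v ≠ v).card) := by
  obtain ⟨v', E, hE1, hE2, hE3, hE4⟩ := select H A hA f hf R hR
  set B : Finset (Sym2 V) := E.image (fun e => s(e.1, e.2)) with hB
  have hinj : Set.InjOn (fun e : V × V => s(e.1, e.2)) (E : Set (V × V)) := by
    intro e he e' he' hee
    have he1 : e ∈ E := he
    have he2 : e' ∈ E := he'
    simp only [Sym2.eq_iff] at hee
    rcases hee with ⟨h1, h2⟩ | ⟨h1, h2⟩
    · exact Prod.ext h1 h2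
    · exact absurd h2 (hE4 e he1 e' he2).1
  have hcard : B.card = E.card := Finset.card_image_of_injOn hinj
  have hdet : Pr (fun a : Sym2 V → Bool => Eqt (gr G₀ H a) f) ≤ (1 / 2) ^ B.card := by
    apply Pr_determined
    intro a a' ha ha' hoff
    funext e
    by_cases heB : e ∈ B
    · obtain ⟨⟨u, z⟩, huz, rfl⟩ := Finset.mem_image.1 heB
      have hAdj : H.Adj u z := (hE2 _ huz).1
      have hfu : f (v' u) = f u := (hE2 _ huz).2
      have h1 := ha u (v' u) hfu.symm (f z)
      have h2 := ha' u (v' u) hfu.symm (f z)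
      have h3 : nb (gr G₀ H a) (v' u) (fun y => f y = f z)
          = nb (gr G₀ H a') (v' u) (fun y => f y = f z) := by
        apply nb_congr
        intro y
        have : s(v' u, y) ∉ B := by
          intro hmem
          obtain ⟨⟨u', z'⟩, hu'z', heq⟩ := Finset.mem_image.1 hmem
          simp only [Sym2.eq_iff] at heq
          rcases heq with ⟨h, _⟩ | ⟨_, h⟩
          · exact (hE4 _ hu'z' _ huz).2.2 h
          · exact (hE4 _ hu'z' _ huz).2.1 h
        exact gr_adj_congr G₀ H a a' (v' u) y (hoff _ this)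
      have h4 : nb (gr G₀ H a) u (fun y => f y = f z) = nb (gr G₀ H a') u (fun y => f y = f z) := by
        rw [h1, h2, h3]
      have h6 := adj_of_nb_eq (gr G₀ H a) (gr G₀ H a') u z (fun y => f y = f z) rfl h4 (by
        intro y hyz hfy
        have : s(u, y) ∉ B := by
          intro hmem
          obtain ⟨⟨u', z'⟩, hu'z', heq⟩ := Finset.mem_image.1 hmem
          simp only [Sym2.eq_iff] at heq
          rcases heq with ⟨h, h'⟩ | ⟨_, h⟩
          · have hz'z : f z' = f z := by rw [h']; exact hfy
            have := hE3 _ hu'z' _ huz h hz'z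
            simp only [Prod.mk.injEq] at this
            exact hyz (h' ▸ this.2)
          · exact (hE4 _ hu'z' _ huz).1 h
        exact gr_adj_congr G₀ H a a' u y (hoff _ this))
      rw [gr_adj_of_adj G₀ H a u z hAdj, gr_adj_of_adj G₀ H a' u z hAdj] at h6
      exact Bool.eq_iff_iff.2 h6
    · exact hoff e heB
  refine hdet.trans ?_
  apply pow_le_pow_of_le_one (by norm_num) (by norm_num)
  rw [hcard]
  have h1 : R / 8 * 8 ≤ R := Nat.div_mul_le_self R 8
  have h2 : R / 8 * 8 * (univ.filter fun v => f v ≠ v).card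
      ≤ R * (univ.filter fun v => f v ≠ v).card := Nat.mul_le_mul_right _ h1
  have h3 : R / 8 * 8 * (univ.filter fun v => f v ≠ v).card
      = 8 * (R / 8 * (univ.filter fun v => f v ≠ v).card) := by ring
  have h4 : R * (univ.filter fun v => f v ≠ v).card
      = (univ.filter fun v => f v ≠ v).card * R := by ring
  omega

end Pool.Agent.CRH
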