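import Pool.Agent.CRH.Part

/-!
# MODULE PartUnion: union bound over all partitions

Paper proof. Union bound (`Pr_union`) over all `f : V → V` with `f ≠ id`, `f ∘ f = f` and
`R + 1 ≤ #(f (A u))` for all `u`; each event has probability `≤ x^(#{v | f v ≠ v})`,
`x = (1/2)^(R/8)` (`part_bound`, `pow_mul`). All terms are nonnegative and the sum over ALL functions
`f : V → V` is `∑_f ∏_v (if f v = v then 1 else x) = ∏_v ∑_u (if u = v then 1 else x)
= (1 + (|V| - 1) x)^|V| ≤ (1 + |V| x)^|V|`; the term `f = id` is `1`, so the sum over `f ≠ id` is at most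
`(1 + |V| x)^|V| - 1`.
-/

namespace Pool.Agent.CRH

open Finset

open scoped Classical in
theorem part_union {V : Type} [Fintype V] [DecidableEq V] (G₀ H : SimpleGraph V)
    (A : V → Finset V) (hA : ∀ u, ∀ y ∈ A u, H.Adj u y) (R : ℕ) :
    Pr (fun a : Sym2 V → Bool => ∃ f : V → V, f ≠ id ∧ (∀ v, f (f v) = f v) ∧
        (∀ u, R + 1 ≤ ((A u).image f).card) ∧ Eqt (gr G₀ H a) f)
      ≤ (1 + Fintype.card V * (1 / 2 : ℝ) ^ (R / 8)) ^ Fintype.card V - 1 := by
  set x : ℝ := (1 / 2 : ℝ) ^ (R / 8) with hx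
  have hx0 : 0 ≤ x := by positivity
  set I : Finset (V → V) := univ.filter fun f : V → V => f ≠ id ∧ (∀ v, f (f v) = f v) ∧
    ∀ u, R + 1 ≤ ((A u).image f).card with hI
  have h1 : (fun a : Sym2 V → Bool => ∃ f : V → V, f ≠ id ∧ (∀ v, f (f v) = f v) ∧
        (∀ u, R + 1 ≤ ((A u).image f).card) ∧ Eqt (gr G₀ H a) f) =
      fun a => ∃ f ∈ I, Eqt (gr G₀ H a) f := by
    funext a
    apply propext
    constructor
    · rintro ⟨f, h1, h2, h3, h4⟩
      exact ⟨f, by simp only [hI, mem_filter, mem_univ, true_and]; exact ⟨h1, h2, h3⟩, h4⟩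
    · rintro ⟨f, hf, h4⟩
      simp only [hI, mem_filter, mem_univ, true_and] at hf
      exact ⟨f, hf.1, hf.2.1, hf.2.2, h4⟩
  rw [h1]
  refine (Pr_union I (fun f a => Eqt (gr G₀ H a) f)).trans ?_
  -- the weight of a function
  let wt : (V → V) → ℝ := fun f => ∏ v : V, if f v = v then 1 else x
  have hwt : ∀ f : V → V, wt f = x ^ (univ.filter fun v => f v ≠ v).card := by
    intro f
    simp only [wt]
    rw [Finset.prod_ite, Finset.prod_const_one, one_mul, Finset.prod_const]
  have hwt0 : ∀ f, 0 ≤ wt f := by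
    intro f
    rw [hwt]
    positivity
  have h2 : ∀ f ∈ I, Pr (fun a : Sym2 V → Bool => Eqt (gr G₀ H a) f) ≤ wt f := by
    intro f hf
    simp only [hI, mem_filter, mem_univ, true_and] at hf
    refine (part_bound G₀ H A hA f hf.2.1 R hf.2.2).trans (le_of_eq ?_)
    rw [hwt, hx, ← pow_mul]
  refine (Finset.sum_le_sum h2).trans ?_
  have h3 : ∑ f : V → V, wt f = (1 + ((Fintype.card V : ℝ) - 1) * x) ^ Fintype.card V := by
    simp only [wt]
    have hprod := Finset.prod_univ_sum (fun _ : V => (univ : Finset V))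
      (fun v u => if u = v then (1 : ℝ) else x)
    rw [Fintype.piFinset_univ] at hprod
    rw [← hprod]
    have h4 : ∀ v : V, (∑ u : V, if u = v then (1 : ℝ) else x) =
        1 + ((Fintype.card V : ℝ) - 1) * x := by
      intro v
      rw [Finset.sum_ite, Finset.sum_const, Finset.sum_const]
      have h5 : (univ.filter fun u : V => u = v) = {v} := by
        ext u
        simp
      have h6 : (univ.filter fun u : V => ¬ u = v) = univ.erase v := by
        ext u
        simp
      rw [h5, h6, card_singleton, card_erase_of_mem (mem_univ v), card_univ, nsmul_eq_mul,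
        nsmul_eq_mul, Nat.cast_sub (Fintype.card_pos_iff.mpr ⟨v⟩)]
      push_cast
      ring
    simp only [h4, prod_const, card_univ]
  have h5 : ∑ f ∈ I, wt f + 1 ≤ ∑ f : V → V, wt f := by
    have h6 : id ∉ I := by
      simp [hI]
    have h7 : wt id = 1 := by
      simp [wt]
    calc ∑ f ∈ I, wt f + 1 = ∑ f ∈ insert id I, wt f := by
          rw [sum_insert h6, h7, add_comm]
      _ ≤ ∑ f : V → V, wt f :=
          Finset.sum_le_sum_of_subset_of_nonneg (subset_univ _) fun f _ _ => hwt0 f
  rw [h3] at h5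
  have h8 : (1 + ((Fintype.card V : ℝ) - 1) * x) ^ Fintype.card V ≤
      (1 + Fintype.card V * x) ^ Fintype.card V := by
    rcases Nat.eq_zero_or_pos (Fintype.card V) with h | h
    · rw [h]
      simp
    · have h9 : (1 : ℝ) ≤ Fintype.card V := by exact_mod_cast h
      apply pow_le_pow_left₀
      · have := mul_nonneg (sub_nonneg.2 h9) hx0
        linarith
      · nlinarith
  linarith

end Pool.Agent.CRH
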