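import Pool.Agent.CRH.Defs

/-!
# MODULE Prob: elementary facts on `Pr` (uniform measure on `β → Bool`)

* `Pr_nonneg`, `Pr_le_one`, `Pr_mono`, `Pr_or`, `Pr_union`: cardinalities of filters.
* `Pr_fiber`: double counting of the pairs `(a, η)` with `S (extend j η a)`; the map
  `(a, η) ↦ (extend j η a, a ∘ j)` is an involution of `(β → Bool) × (κ → Bool)`.
* `Pr_determined`: the restriction map to the complement of `B` is injective on `{a | S a}`.
-/

namespace Pool.Agent.CRH

open Finset

theorem Pr_nonneg {β : Type} [Fintype β] (S : (β → Bool) → Prop) : 0 ≤ Pr S := by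
  unfold Pr
  positivity

theorem card_fun_bool_cast {β : Type} [Fintype β] [DecidableEq β] :
    ((Fintype.card (β → Bool) : ℕ) : ℝ) = 2 ^ Fintype.card β := by
  simp

theorem Pr_le_one {β : Type} [Fintype β] (S : (β → Bool) → Prop) : Pr S ≤ 1 := by
  classical
  unfold Pr
  rw [div_le_one (by positivity), ← card_fun_bool_cast]
  exact_mod_cast (card_filter_le _ _)

theorem Pr_mono {β : Type} [Fintype β] {S T : (β → Bool) → Prop} (h : ∀ a, S a → T a) :
    Pr S ≤ Pr T := by
  classical
  unfold Pr
  apply div_le_div_of_nonneg_right _ (by positivity)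
  exact_mod_cast card_le_card (monotone_filter_right _ (fun a _ ha => h a ha))

theorem Pr_or {β : Type} [Fintype β] (S T : (β → Bool) → Prop) :
    Pr (fun a => S a ∨ T a) ≤ Pr S + Pr T := by
  classical
  unfold Pr
  rw [← add_div]
  apply div_le_div_of_nonneg_right _ (by positivity)
  have e : (univ.filter fun a : β → Bool => S a ∨ T a) =
      (univ.filter fun a => S a) ∪ (univ.filter fun a => T a) := filter_or _ _ _
  have := card_union_le (univ.filter fun a => S a) (univ.filter fun a : β → Bool => T a)
  rw [← e] at this
  beta_reduce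
  norm_cast
  convert this

theorem Pr_union {β ι : Type} [Fintype β] (I : Finset ι) (S : ι → (β → Bool) → Prop) :
    Pr (fun a => ∃ i ∈ I, S i a) ≤ ∑ i ∈ I, Pr (S i) := by
  classical
  induction I using Finset.induction_on with
  | empty =>
    simp [Pr]
  | insert i I hi ih =>
    rw [sum_insert hi]
    calc Pr (fun a => ∃ k ∈ insert i I, S k a) ≤ Pr (fun a => S i a ∨ ∃ k ∈ I, S k a) := by
          apply Pr_mono
          rintro a ⟨k, hk, hS⟩
          rcases mem_insert.1 hk with rfl | hk
          · exact Or.inl hS
          · exact Or.inr ⟨k, hk, hS⟩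
      _ ≤ Pr (S i) + Pr (fun a => ∃ k ∈ I, S k a) := Pr_or _ _
      _ ≤ _ := by linarith

/-- Conditioning on the bits outside the range of `j`. -/
theorem Pr_fiber {β κ : Type} [Fintype β] [Fintype κ] (j : κ → β) (hj : Function.Injective j)
    (S : (β → Bool) → Prop) (c : ℝ)
    (h : ∀ a : β → Bool, Pr (fun η : κ → Bool => S (Function.extend j η a)) ≤ c) : Pr S ≤ c := by
  classical
  have inv : ∀ p : (β → Bool) × (κ → Bool),
      (Function.extend j (p.1 ∘ j) (Function.extend j p.2 p.1),
        (Function.extend j p.2 p.1) ∘ j) = p := by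
    rintro ⟨a, η⟩
    ext x
    · simp only
      by_cases hx : ∃ y, j y = x
      · obtain ⟨y, rfl⟩ := hx
        rw [hj.extend_apply]; rfl
      · rw [Function.extend_apply' _ _ _ hx, Function.extend_apply' _ _ _ hx]
    · simp only [Function.comp]
      rw [hj.extend_apply]
  have key : (univ.filter fun p : (β → Bool) × (κ → Bool) => S (Function.extend j p.2 p.1)).card =
      (univ.filter fun p : (β → Bool) × (κ → Bool) => S p.1).card := by
    apply card_nbij' (fun p => (Function.extend j p.2 p.1, p.1 ∘ j))
      (fun p => (Function.extend j p.2 p.1, p.1 ∘ j))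
    · intro p hp
      simp only [coe_filter, mem_univ, true_and, Set.mem_ofPred_eq] at hp ⊢
      exact hp
    · intro p hp
      simp only [coe_filter, mem_univ, true_and, Set.mem_ofPred_eq] at hp ⊢
      have := congrArg Prod.fst (inv p)
      simp only at this
      rw [this]; exact hp
    · intro p _
      exact inv p
    · intro p _
      exact inv p
  have lhs : (univ.filter fun p : (β → Bool) × (κ → Bool) => S (Function.extend j p.2 p.1)).card =
      ∑ a : β → Bool, (univ.filter fun η : κ → Bool => S (Function.extend j η a)).card := by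
    rw [card_filter, Fintype.sum_prod_type]
    apply sum_congr rfl
    intro a _
    rw [card_filter]
  have rhs : (univ.filter fun p : (β → Bool) × (κ → Bool) => S p.1).card =
      (univ.filter fun a : β → Bool => S a).card * 2 ^ Fintype.card κ := by
    rw [card_filter, Fintype.sum_prod_type, card_filter, sum_mul]
    apply sum_congr rfl
    intro a _
    by_cases ha : S a <;> simp [ha]
  have hb : ∀ a : β → Bool, ((univ.filter fun η : κ → Bool => S (Function.extend j η a)).card : ℝ)
      ≤ c * 2 ^ Fintype.card κ := by
    intro a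
    have := h a
    unfold Pr at this
    rwa [div_le_iff₀ (by positivity)] at this
  have tot : ((univ.filter fun a : β → Bool => S a).card : ℝ) * 2 ^ Fintype.card κ ≤
      2 ^ Fintype.card β * (c * 2 ^ Fintype.card κ) := by
    have e : (((univ.filter fun a : β → Bool => S a).card * 2 ^ Fintype.card κ : ℕ) : ℝ) =
        ∑ a : β → Bool, ((univ.filter fun η : κ → Bool => S (Function.extend j η a)).card : ℝ) := by
      rw [← rhs, ← key, lhs]
      push_cast
      rfl
    push_cast at e
    rw [e]
    calc _ ≤ ∑ _a : β → Bool, c * 2 ^ Fintype.card κ := sum_le_sum (fun a _ => hb a)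
      _ = _ := by
        rw [sum_const, card_univ, nsmul_eq_mul, card_fun_bool_cast]
  unfold Pr
  rw [div_le_iff₀ (by positivity)]
  have h2 : (0 : ℝ) < 2 ^ Fintype.card κ := by positivity
  by_contra hcon
  push Not at hcon
  have := mul_lt_mul_of_pos_right hcon h2
  linarith [tot, this]

/-- If on the event `S` the bits in `B` are determined by the other bits then `Pr S ≤ 2^(-#B)`. -/
theorem Pr_determined {β : Type} [Fintype β] (B : Finset β) (S : (β → Bool) → Prop)
    (h : ∀ a a' : β → Bool, S a → S a' → (∀ e, e ∉ B → a e = a' e) → a = a') :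
    Pr S ≤ (1 / 2) ^ B.card := by
  classical
  have h1 : (univ.filter fun a : β → Bool => S a).card ≤
      (univ : Finset ({e // e ∉ B} → Bool)).card := by
    apply card_le_card_of_injOn (fun a e => a e.1)
    · intro a _
      simp
    · intro a ha a' ha' haa
      simp only [coe_filter, mem_univ, true_and, Set.mem_ofPred_eq] at ha ha'
      apply h a a' ha ha'
      intro e he
      exact congrFun haa ⟨e, he⟩
  have h2 : (univ : Finset ({e // e ∉ B} → Bool)).card = 2 ^ (Fintype.card β - B.card) := by
    rw [card_univ, Fintype.card_fun, Fintype.card_bool]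
    congr 1
    rw [Fintype.card_subtype_compl]
    simp
  have h3 : B.card ≤ Fintype.card β := card_le_univ B
  unfold Pr
  rw [div_le_iff₀ (by positivity)]
  calc ((univ.filter fun a : β → Bool => S a).card : ℝ) ≤
        ((2 ^ (Fintype.card β - B.card) : ℕ) : ℝ) := by
        exact_mod_cast (h1.trans_eq h2)
    _ = (1 / 2) ^ B.card * 2 ^ Fintype.card β := by
        push_cast
        obtain ⟨k, hk⟩ := Nat.exists_eq_add_of_le h3
        rw [hk, Nat.add_sub_cancel_left, pow_add, ← mul_assoc, ← mul_pow]
        norm_num

end Pool.Agent.CRH
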