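import Pool.Agent.CRH.Prob
import Pool.Agent.CRH.Match

/-!
# MODULE Rainbow: almost all colours in the sets `A u` are different

Paper proof. If `#image + 2 s ≤ M0 = #(A u)` then by `exists_pairs` there are `w, w' : Fin s → V` with
values in `A u`, injective, disjoint, with `col 2 (w i) = col 2 (w' i)` for all `i`. Union bound over
`u` and over the pairs `(w, w')` of functions with values in `A u` (there are `M0^s * M0^s` of them,
`Fintype.piFinset`), each event having probability at most `c`. (`0 ≤ c` is only needed when there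
is some triple; if there is no admissible `(w, w')` then the event is empty or the sum is over an
empty set; note the hypothesis `hc0`.)
-/

namespace Pool.Agent.CRH

open Finset

open scoped Classical in
theorem rainbow {V : Type} [Fintype V] [DecidableEq V] (G₀ H : SimpleGraph V) (s M0 : ℕ) (c : ℝ)
    (hc0 : 0 ≤ c)
    (hc : ∀ w w' : Fin s → V, Function.Injective w → Function.Injective w' →
      (∀ i j, w i ≠ w' j) →
      Pr (fun a : Sym2 V → Bool =>
        ∀ i, col (gr G₀ H a) 2 (w i) = col (gr G₀ H a) 2 (w' i)) ≤ c)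
    (A : V → Finset V) (hA : ∀ u, (A u).card = M0) :
    Pr (fun a : Sym2 V → Bool => ∃ u, ((A u).image (col (gr G₀ H a) 2)).card + 2 * s ≤ M0)
      ≤ Fintype.card V * (M0 : ℝ) ^ (2 * s) * c := by
  let I : Finset (Σ _ : V, (Fin s → V) × (Fin s → V)) :=
    (univ : Finset V).sigma fun u =>
      (Fintype.piFinset fun _ : Fin s => A u) ×ˢ (Fintype.piFinset fun _ : Fin s => A u)
  let S : (Σ _ : V, (Fin s → V) × (Fin s → V)) → (Sym2 V → Bool) → Prop := fun q a =>
    (Function.Injective q.2.1 ∧ Function.Injective q.2.2 ∧ ∀ i j, q.2.1 i ≠ q.2.2 j) ∧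
      ∀ i, col (gr G₀ H a) 2 (q.2.1 i) = col (gr G₀ H a) 2 (q.2.2 i)
  have hI : (I.card : ℝ) = Fintype.card V * (M0 : ℝ) ^ (2 * s) := by
    have h1 : I.card = Fintype.card V * (M0 ^ s * M0 ^ s) := by
      rw [Finset.card_sigma]
      simp only [Finset.card_product, Fintype.card_piFinset, Finset.prod_const, Finset.card_univ,
        Fintype.card_fin, hA, Finset.sum_const, smul_eq_mul]
    rw [h1]
    push_cast
    ring
  have h1 : Pr (fun a : Sym2 V → Bool => ∃ u, ((A u).image (col (gr G₀ H a) 2)).card + 2 * s ≤ M0)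
      ≤ Pr (fun a : Sym2 V → Bool => ∃ q ∈ I, S q a) := by
    apply Pr_mono
    rintro a ⟨u, hu⟩
    have hu' : ((A u).image (col (gr G₀ H a) 2)).card + 2 * s ≤ (A u).card + 1 := by
      rw [hA u]
      omega
    obtain ⟨w, w', h1, h2, h3, h4, h5, h6⟩ := exists_pairs (col (gr G₀ H a) 2) s (A u) hu'
    refine ⟨⟨u, w, w'⟩, ?_, ⟨h1, h2, h3⟩, h6⟩
    rw [Finset.mem_sigma]
    refine ⟨Finset.mem_univ _, ?_⟩
    rw [Finset.mem_product, Fintype.mem_piFinset, Fintype.mem_piFinset]
    exact ⟨h4, h5⟩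
  refine le_trans h1 (le_trans (Pr_union I S) ?_)
  have h2 : ∀ q ∈ I, Pr (S q) ≤ c := by
    intro q _
    by_cases hq : Function.Injective q.2.1 ∧ Function.Injective q.2.2 ∧ ∀ i j, q.2.1 i ≠ q.2.2 j
    · exact le_trans (Pr_mono fun a ha => ha.2) (hc q.2.1 q.2.2 hq.1 hq.2.1 hq.2.2)
    · have h0 : Pr (fun _ : Sym2 V → Bool => False) = 0 := by
        simp [Pr]
      exact le_trans (Pr_mono fun a ha => hq ha.1) (by rw [h0]; exact hc0)
  calc ∑ q ∈ I, Pr (S q) ≤ ∑ q ∈ I, c := Finset.sum_le_sum h2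
    _ = I.card * c := by rw [Finset.sum_const, nsmul_eq_mul]
    _ = Fintype.card V * (M0 : ℝ) ^ (2 * s) * c := by rw [hI]

end Pool.Agent.CRH
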