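import Pool.Agent.CRH.Defs

/-!
# MODULE Stable: the stable partition

Paper proof. (1) `col G (k+1) u = col G (k+1) v` implies `col G k u = col G k v` (first component), so
for `j ≤ k`, `col G k u = col G k v → col G j u = col G j v`.
(2) Let `P k` be the proposition: for all `u v`, `col G k u = col G k v → col G (k+1) u = col G (k+1) v`.
`P k → P (k+1)`: if the level `k` colour determines the level `k+1` colour then the multiset of the
level `k+1` colours of the neighbours of `u` is the image of the multiset of the level `k` colours
under a fixed function (colour `k` ↦ colour `k+1`), and `col (k+1) u = col (k+1) v` gives equality of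
the multisets of level `k` colours.
(3) If `P k` fails then `#(univ.image (col G (k+1))) > #(univ.image (col G k))` (the map from the level
`k+1` colours onto the level `k` colours is not injective). If `P k` failed for all `k < n` (`n = |V|`)
then `#(univ.image (col G n)) ≥ n + 1`, impossible (start: at least `1` class as `V` is nonempty). So
`P k` for some `k < n`, and by (2) `P n` holds.
(4) Let `f v` be a chosen representative of the class of `v` for `col G n`: e.g.
`f v = Classical.choose (⟨v, rfl⟩ : ∃ u, col G n u = col G n v)`-like with the choice depending only on
`col G n v` (for instance `Function.invFun (col G n) (col G n v)`, `V` is nonempty). So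
`col G n (f v) = col G n v` and `f u = f v ↔ col G n u = col G n v`. `f (f v) = f v`. `f ≠ id` because
`col G n` is not injective. `f u = f v → col G 2 u = col G 2 v` by (1) as `2 ≤ n`. `Eqt`: let
`f u = f v`; then `col G (n+1) u = col G (n+1) v` by `P n`, so the multisets of the `col G n`-colours of
the neighbours agree; for each `c`, `nb G u (f · = c)` is the number of the neighbours `y` with
`f y = c`, i.e. (as `f y = invFun (col G n) (col G n y)`) the number of elements `d` of this multiset with
`invFun (col G n) d = c`; so it is the same for `u` and `v`.
-/

namespace Pool.Agent.CRH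

open Finset

private theorem col_succ {V : Type} [Fintype V] (G : SimpleGraph V) {k : ℕ} {u v : V}
    (h : col G (k + 1) u = col G (k + 1) v) : col G k u = col G k v :=
  congrArg Prod.fst h

theorem col_mono {V : Type} [Fintype V] (G : SimpleGraph V) {j k : ℕ} (hjk : j ≤ k) {u v : V}
    (h : col G k u = col G k v) : col G j u = col G j v := by
  induction k with
  | zero =>
    have : j = 0 := by omega
    subst this
    exact h
  | succ k ih =>
    rcases Nat.lt_or_ge k j with h1 | h1
    · have : j = k + 1 := by omega
      subst this
      exact h
    · exact ih h1 (col_succ G h)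

/-- the level `k` colour determines the level `k + 1` colour -/
private def StP {V : Type} [Fintype V] (G : SimpleGraph V) (k : ℕ) : Prop :=
  ∀ u v, col G k u = col G k v → col G (k + 1) u = col G (k + 1) v

private def cfst {k : ℕ} (d : Col (k + 1)) : Col k := Prod.fst d

private theorem cfst_col {V : Type} [Fintype V] (G : SimpleGraph V) (k : ℕ) (u : V) :
    cfst (col G (k + 1) u) = col G k u := rfl

open scoped Classical in
private theorem stP_succ {V : Type} [Fintype V] (G : SimpleGraph V) (k : ℕ) (h : StP G k) :
    StP G (k + 1) := by
  intro u v huv
  have hf : (col G (k + 1)).FactorsThrough (col G k) := fun a b hab => h a b hab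
  have : Nonempty (Col (k + 1)) := ⟨col G (k + 1) u⟩
  obtain ⟨e, he⟩ := (Function.factorsThrough_iff (col G (k + 1))).1 hf
  refine Prod.ext huv ?_
  have h2 := congrArg Prod.snd huv
  change (univ.filter fun y => G.Adj u y).val.map (col G (k + 1)) =
    (univ.filter fun y => G.Adj v y).val.map (col G (k + 1))
  change (univ.filter fun y => G.Adj u y).val.map (col G k) =
    (univ.filter fun y => G.Adj v y).val.map (col G k) at h2
  rw [he, ← Multiset.map_map, ← Multiset.map_map, h2]

private theorem stP_mono {V : Type} [Fintype V] (G : SimpleGraph V) {j k : ℕ} (hjk : j ≤ k)
    (h : StP G j) : StP G k := by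
  induction k with
  | zero =>
    have : j = 0 := by omega
    subst this
    exact h
  | succ k ih =>
    rcases Nat.lt_or_ge k j with h1 | h1
    · have : j = k + 1 := by omega
      subst this
      exact h
    · exact stP_succ G k (ih h1)

open scoped Classical in
private theorem st_card {V : Type} [Fintype V] [Nonempty V] (G : SimpleGraph V) (k : ℕ)
    (h : ∀ j < k, ¬ StP G j) : k + 1 ≤ (univ.image (col G k)).card := by
  induction k with
  | zero =>
    have : (univ.image (col G 0)).Nonempty := by
      rw [Finset.image_nonempty]
      exact univ_nonempty
    exact this.card_pos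
  | succ k ih =>
    have h1 := ih (fun j hj => h j (by omega))
    by_contra hcon
    have h2 : (univ.image (col G (k + 1))).card ≤ (univ.image (col G k)).card := by omega
    have h3 : (univ.image (col G (k + 1))).image cfst = univ.image (col G k) := by
      rw [Finset.image_image]
      congr 1
    have h4 : ((univ.image (col G (k + 1))).image cfst).card =
        (univ.image (col G (k + 1))).card := by
      apply le_antisymm Finset.card_image_le
      rw [h3]
      by_contra h6
      omega
    have h5 := Finset.card_image_iff.1 h4
    apply h k (by omega)
    intro u v huv
    apply h5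
    · exact Finset.mem_coe.2 (Finset.mem_image_of_mem _ (mem_univ _))
    · exact Finset.mem_coe.2 (Finset.mem_image_of_mem _ (mem_univ _))
    · rw [cfst_col, cfst_col]
      exact huv

theorem exists_stable {V : Type} [Fintype V] (G : SimpleGraph V) (hn : 2 ≤ Fintype.card V)
    (h : ¬ Function.Injective (col G (Fintype.card V))) :
    ∃ f : V → V, f ≠ id ∧ (∀ v, f (f v) = f v) ∧ Eqt G f ∧
      ∀ u v, f u = f v → col G 2 u = col G 2 v := by
  classical
  have hV : Nonempty V := Fintype.card_pos_iff.1 (by omega)
  set N := Fintype.card V with hN
  have hP : StP G N := by
    by_contra hcon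
    have h1 : ∀ j < N, ¬ StP G j := fun j hj hj2 => hcon (stP_mono G hj.le hj2)
    have h2 := st_card G N h1
    have h3 : (univ.image (col G N)).card ≤ N := Finset.card_image_le
    omega
  have hinv : ∀ v, col G N (Function.invFun (col G N) (col G N v)) = col G N v := fun v =>
    Function.invFun_eq ⟨v, rfl⟩
  refine ⟨fun v => Function.invFun (col G N) (col G N v), ?_, ?_, ?_, ?_⟩
  · intro hid
    apply h
    intro u v huv
    have h1 := congrFun hid u
    have h2 := congrFun hid v
    simp only [id] at h1 h2
    rw [← h1, ← h2, huv]
  · intro v
    simp only
    rw [hinv]
  · intro u v huv c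
    have h1 : col G N u = col G N v := by
      rw [← hinv u, ← hinv v]
      exact congrArg _ huv
    have h2 := congrArg Prod.snd (hP u v h1)
    change (univ.filter fun y => G.Adj u y).val.map (col G N) =
      (univ.filter fun y => G.Adj v y).val.map (col G N) at h2
    have h3 : ∀ w, nb G w (fun y => Function.invFun (col G N) (col G N y) = c) =
        ((univ.filter fun y => G.Adj w y).val.map (col G N)).countP
          (fun d => Function.invFun (col G N) d = c) := by
      intro w
      rw [Multiset.countP_map]
      unfold nb
      rw [← Finset.filter_filter]
      rfl
    rw [h3, h3, h2]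
  · intro u v huv
    apply col_mono G hn
    rw [← hinv u, ← hinv v]
    exact congrArg _ huv

end Pool.Agent.CRH
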