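import Mathlib

/-!
# MODULE TwoStep: random subsets of a finite set in two steps, and a tail bound

Paper proofs. (1) `two_step`: swap the sums on the right; the coefficient of `Φ S`, `S ⊆ E`, is
`∑_{S ⊆ F ⊆ E} (2p)^#F (1-2p)^(#E-#F) / 2^#F = ∑_{F' ⊆ E \ S} p^(#S + #F') (1-2p)^(#(E\S) - #F')
= p^#S (p + 1 - 2p)^#(E\S)` (`F = S ∪ F'`, `Finset.sum_pow_mul_eq_add_pow`).
(2) `tail`: `[#(F ∩ T) < d] ≤ 2^d * (1/2)^#(F ∩ T)` and
`∑_{F ⊆ E} (2p)^#F (1-2p)^(#E-#F) (1/2)^#(F ∩ T) = ∏_{e ∈ E} (2p * (if e ∈ T then 1/2 else 1) + (1 - 2p))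
= (1 - p)^#T` (`Finset.prod_add`, `T ⊆ E`).
-/

namespace Pool.Agent.CRH

open Finset

open scoped Classical in
theorem twoStep_inner {ι : Type} (E S : Finset ι) (hS : S ⊆ E) (p : ℝ) :
    ∑ F ∈ Finset.Icc S E, p ^ F.card * (1 - 2 * p) ^ (E.card - F.card) =
      p ^ S.card * (1 - p) ^ (E.card - S.card) := by
  rw [Finset.Icc_eq_image_powerset hS, Finset.sum_image]
  · have h1 : ∀ F ∈ (E \ S).powerset, p ^ (S ∪ F).card * (1 - 2 * p) ^ (E.card - (S ∪ F).card) =
        p ^ S.card * (p ^ F.card * (1 - 2 * p) ^ ((E \ S).card - F.card)) := by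
      intro F hF
      rw [Finset.mem_powerset] at hF
      have hd : Disjoint S F := by
        rw [Finset.disjoint_left]
        intro a ha hb
        exact (Finset.mem_sdiff.1 (hF hb)).2 ha
      have hc : (S ∪ F).card = S.card + F.card := Finset.card_union_of_disjoint hd
      have hc2 : (E \ S).card = E.card - S.card := Finset.card_sdiff_of_subset hS
      rw [hc, hc2, pow_add, Nat.sub_sub, mul_assoc]
    rw [Finset.sum_congr rfl h1, ← Finset.mul_sum, Finset.sum_pow_mul_eq_add_pow,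
      Finset.card_sdiff_of_subset hS]
    congr 2
    ring
  · intro F hF F' hF' h
    simp only [Finset.coe_powerset, Set.mem_preimage, Set.mem_powerset_iff, Finset.coe_subset] at hF hF'
    have h' : S ∪ F = S ∪ F' := h
    have e : ∀ F : Finset ι, F ⊆ E \ S → (S ∪ F) \ S = F := by
      intro F hF
      ext a
      simp only [Finset.mem_sdiff, Finset.mem_union]
      constructor
      · rintro ⟨h1 | h1, h2⟩
        · exact absurd h1 h2
        · exact h1
      · intro h1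
        exact ⟨Or.inr h1, (Finset.mem_sdiff.1 (hF h1)).2⟩
    rw [← e F hF, ← e F' hF', h']

open scoped Classical in
theorem two_step {ι : Type} (E : Finset ι) (p : ℝ) (Φ : Finset ι → ℝ) :
    ∑ S ∈ E.powerset, p ^ S.card * (1 - p) ^ (E.card - S.card) * Φ S =
      ∑ F ∈ E.powerset, (2 * p) ^ F.card * (1 - 2 * p) ^ (E.card - F.card) *
        ((∑ S ∈ F.powerset, Φ S) / 2 ^ F.card) := by
  have h1 : ∀ F ∈ E.powerset, (2 * p) ^ F.card * (1 - 2 * p) ^ (E.card - F.card) *
      ((∑ S ∈ F.powerset, Φ S) / 2 ^ F.card) =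
      ∑ S ∈ F.powerset, p ^ F.card * (1 - 2 * p) ^ (E.card - F.card) * Φ S := by
    intro F _
    rw [← Finset.mul_sum, mul_pow]
    field_simp
  rw [Finset.sum_congr rfl h1]
  have h2 : ∑ F ∈ E.powerset, ∑ S ∈ F.powerset,
      p ^ F.card * (1 - 2 * p) ^ (E.card - F.card) * Φ S =
      ∑ S ∈ E.powerset, ∑ F ∈ Finset.Icc S E,
        p ^ F.card * (1 - 2 * p) ^ (E.card - F.card) * Φ S := by
    apply Finset.sum_comm'
    intro F S
    simp only [Finset.mem_powerset, Finset.mem_Icc]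
    constructor
    · rintro ⟨h1, h2⟩
      exact ⟨⟨h2, h1⟩, h2.trans h1⟩
    · rintro ⟨⟨h1, h2⟩, _⟩
      exact ⟨h2, h1⟩
  rw [h2]
  refine Finset.sum_congr rfl fun S hS => ?_
  rw [← Finset.sum_mul, twoStep_inner E S (Finset.mem_powerset.1 hS)]

open scoped Classical in
theorem tail {ι : Type} (E T : Finset ι) (hT : T ⊆ E) (p : ℝ) (h0 : 0 ≤ p) (h1 : p ≤ 1 / 2)
    (d : ℕ) :
    ∑ F ∈ E.powerset, (2 * p) ^ F.card * (1 - 2 * p) ^ (E.card - F.card) *
        (if (F ∩ T).card < d then 1 else 0) ≤ 2 ^ d * (1 - p) ^ T.card := by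
  have hq : 0 ≤ 1 - 2 * p := by linarith
  have h2 : ∀ F ∈ E.powerset, (2 * p) ^ F.card * (1 - 2 * p) ^ (E.card - F.card) *
        (if (F ∩ T).card < d then 1 else 0) ≤
        2 ^ d * ((∏ e ∈ F, (2 * p * (if e ∈ T then 1 / 2 else 1))) *
          ∏ _e ∈ E \ F, (1 - 2 * p)) := by
    intro F hF
    rw [Finset.mem_powerset] at hF
    have e1 : ∏ _e ∈ E \ F, (1 - 2 * p) = (1 - 2 * p) ^ (E.card - F.card) := by
      rw [Finset.prod_const, Finset.card_sdiff_of_subset hF]
    have e2 : ∏ e ∈ F, (2 * p * (if e ∈ T then 1 / 2 else 1)) =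
        (2 * p) ^ F.card * (1 / 2) ^ (F ∩ T).card := by
      rw [Finset.prod_mul_distrib, Finset.prod_const, Finset.prod_ite, Finset.prod_const,
        Finset.prod_const_one, mul_one, Finset.filter_mem_eq_inter]
    rw [e1, e2]
    have e3 : (if (F ∩ T).card < d then (1 : ℝ) else 0) ≤ 2 ^ d * (1 / 2) ^ (F ∩ T).card := by
      split_ifs with h
      · have e4 : (2 : ℝ) ^ d = 2 ^ (d - (F ∩ T).card) * 2 ^ (F ∩ T).card := by
          rw [← pow_add]
          congr 1
          omega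
        have e5 : (2 : ℝ) ^ (F ∩ T).card * (1 / 2) ^ (F ∩ T).card = 1 := by
          rw [← mul_pow]
          norm_num
        rw [e4, mul_assoc, e5, mul_one]
        exact one_le_pow₀ (by norm_num)
      · positivity
    have e6 : 0 ≤ (2 * p) ^ F.card * (1 - 2 * p) ^ (E.card - F.card) := by positivity
    calc (2 * p) ^ F.card * (1 - 2 * p) ^ (E.card - F.card) *
          (if (F ∩ T).card < d then 1 else 0)
        ≤ (2 * p) ^ F.card * (1 - 2 * p) ^ (E.card - F.card) *
          (2 ^ d * (1 / 2) ^ (F ∩ T).card) := mul_le_mul_of_nonneg_left e3 e6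
      _ = _ := by ring
  refine (Finset.sum_le_sum h2).trans (le_of_eq ?_)
  rw [← Finset.mul_sum, ← Finset.prod_add]
  congr 1
  have h3 : ∀ e ∈ E, 2 * p * (if e ∈ T then (1 : ℝ) / 2 else 1) + (1 - 2 * p) =
      if e ∈ T then 1 - p else 1 := by
    intro e _
    split_ifs <;> ring
  rw [Finset.prod_congr rfl h3, Finset.prod_ite, Finset.prod_const, Finset.prod_const_one, mul_one,
    Finset.filter_mem_eq_inter, Finset.inter_eq_right.2 hT]

/-- total mass one -/
theorem mass {ι : Type} (E : Finset ι) (p : ℝ) :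
    ∑ F ∈ E.powerset, (2 * p) ^ F.card * (1 - 2 * p) ^ (E.card - F.card) = 1 := by
  rw [Finset.sum_pow_mul_eq_add_pow]
  have : 2 * p + (1 - 2 * p) = 1 := by ring
  rw [this, one_pow]

end Pool.Agent.CRH
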