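import Pool.Agent.CRH.Pairs
import Pool.Agent.CRH.CfgEx
import Pool.Agent.CRH.Rainbow
import Pool.Agent.CRH.PartUnion
import Pool.Agent.CRH.Stable
import Pool.Agent.CRH.Numeric

/-!
# MODULE Uniform: the theorem for fair bits

Paper proof. `m = 64 s`, `N' = 2^19 s^2`, `M0 = 64 s^2`, `R = M0 - 2 s`; for every `u` choose `A u`, a set of
`M0` neighbours of `u` in `H`. If `col (gr a) n` is not injective, `exists_stable` gives `f`. Then either
there is a `u` with `#((A u).image (col 2)) + 2 s ≤ M0` (`rainbow`, with `c` from `pairs` and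
`cfg_exists`), or for all `u`: `#((A u).image f) ≥ #((A u).image (col 2)) ≥ R + 1` (`part_union`).
Sum: `numeric`.
-/

namespace Pool.Agent.CRH

open Finset

theorem exists_nbrs {V : Type} [Fintype V] (H : SimpleGraph V) (M : ℕ) (h : ∀ v, M ≤ dg H v) :
    ∃ A : V → Finset V, (∀ u, (A u).card = M) ∧ ∀ u, ∀ y ∈ A u, H.Adj u y := by
  classical
  have h1 : ∀ u, ∃ B : Finset V, B ⊆ (univ.filter fun y => H.Adj u y) ∧ B.card = M := by
    intro u
    have := h u
    unfold dg at this
    obtain ⟨B, hB, hc⟩ := Finset.exists_subset_card_eq this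
    refine ⟨B, ?_, hc⟩
    intro y hy
    have := hB hy
    simpa using this
  choose A hA hc using h1
  refine ⟨A, hc, fun u y hy => ?_⟩
  have := hA u hy
  simpa using this

theorem uniform {V : Type} [Fintype V] [DecidableEq V] (G₀ H : SimpleGraph V) (s : ℕ)
    (hs : 16 ≤ s) (hn2 : 2 ≤ Fintype.card V) (hn : Fintype.card V ≤ 2 ^ s ^ 2)
    (hdeg : ∀ v, 2 ^ 21 * s ^ 2 ≤ dg H v) :
    Pr (fun a : Sym2 V → Bool => ¬ Function.Injective (col (gr G₀ H a) (Fintype.card V)))
      ≤ (1 / 2) ^ (4 * s ^ 2) := by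
  classical
  have hs2 : 16 * s ≤ s ^ 2 := by nlinarith
  obtain ⟨A, hAc, hA⟩ := exists_nbrs H (64 * s ^ 2) (fun v => le_trans (by nlinarith) (hdeg v))
  set c : ℝ := (1 / 2) ^ (s * (64 * s)) + (((64 * s : ℕ) : ℝ) + 1) ^ s * (1 / 2) ^ (s * (64 * s) / 4)
    with hcdef
  have hc0 : 0 ≤ c := by positivity
  have hpair : ∀ w w' : Fin s → V, Function.Injective w → Function.Injective w' →
      (∀ i j, w i ≠ w' j) →
      Pr (fun a : Sym2 V → Bool =>
        ∀ i, col (gr G₀ H a) 2 (w i) = col (gr G₀ H a) 2 (w' i)) ≤ c := by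
    intro w w' hw hw' hd
    obtain ⟨x, z, hc⟩ := cfg_exists H s (64 * s) (2 * (2 ^ 19 * s ^ 2)) w w' hw hw' hd
      (fun v => le_trans (by nlinarith) (hdeg v))
    exact pairs G₀ H (by nlinarith) hc
  have h1 := rainbow G₀ H s (64 * s ^ 2) c hc0 hpair A hAc
  have h2 := part_union G₀ H A hA (64 * s ^ 2 - 2 * s)
  have h3 := numeric s hs (Fintype.card V) hn
  have h4 : Pr (fun a : Sym2 V → Bool =>
      ¬ Function.Injective (col (gr G₀ H a) (Fintype.card V))) ≤
      Pr (fun a : Sym2 V → Bool =>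
        (∃ u, ((A u).image (col (gr G₀ H a) 2)).card + 2 * s ≤ 64 * s ^ 2) ∨
        (∃ f : V → V, f ≠ id ∧ (∀ v, f (f v) = f v) ∧
        (∀ u, (64 * s ^ 2 - 2 * s) + 1 ≤ ((A u).image f).card) ∧ Eqt (gr G₀ H a) f)) := by
    apply Pr_mono
    intro a ha
    obtain ⟨f, hf1, hf2, hf3, hf4⟩ := exists_stable (gr G₀ H a) hn2 ha
    by_cases hu : ∃ u, ((A u).image (col (gr G₀ H a) 2)).card + 2 * s ≤ 64 * s ^ 2
    · exact Or.inl hu
    · right
      refine ⟨f, hf1, hf2, fun u => ?_, hf3⟩
      push Not at hu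
      have h5 := hu u
      have h6 : ((A u).image (col (gr G₀ H a) 2)).card ≤ ((A u).image f).card := by
        have : (A u).image (col (gr G₀ H a) 2) =
            ((A u).image f).image (col (gr G₀ H a) 2) := by
          rw [Finset.image_image]
          apply Finset.image_congr
          intro y _
          exact hf4 y (f y) (hf2 y).symm
        rw [this]
        exact Finset.card_image_le
      omega
  refine le_trans h4 (le_trans (Pr_or _ _) ?_)
  refine le_trans (add_le_add h1 h2) ?_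
  exact h3

end Pool.Agent.CRH
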