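import Pool.Agent.CRH.Indep

/-!
# Random graphs with independent edges: the upper bound for the failure probability
-/

namespace Pool.Agent.CRH

open Finset

theorem inc_subset {V : Type} [Fintype V] [DecidableEq V] (v : V) : inc v ⊆ prs V := by
  unfold inc
  exact Finset.filter_subset _ _

/-- the pairs at `v` are the pairs `{v, u}`, `u ≠ v` -/
theorem sum_inc {V : Type} [Fintype V] [DecidableEq V] (v : V) (f : Sym2 V → ℝ) :
    ∑ e ∈ inc v, f e = ∑ u ∈ univ.erase v, f s(v, u) := by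
  symm
  apply Finset.sum_bij (fun u _ => s(v, u))
  · intro u hu
    rw [mem_erase] at hu
    unfold inc
    rw [mem_filter, mem_prs, Sym2.mk_isDiag_iff]
    exact ⟨fun h => hu.1 h.symm, Sym2.mem_mk_left v u⟩
  · intro u₁ _ u₂ _ h
    exact Sym2.congr_right.mp h
  · intro e he
    unfold inc at he
    rw [mem_filter, mem_prs] at he
    obtain ⟨h1, h2⟩ := he
    obtain ⟨y, rfl⟩ := Sym2.mem_iff_exists.mp h2
    refine ⟨y, ?_, rfl⟩
    rw [mem_erase]
    rw [Sym2.mk_isDiag_iff] at h1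
    exact ⟨fun h => h1 h.symm, mem_univ _⟩
  · intro u _
    rfl

theorem dg_fromEdgeSet {V : Type} [Fintype V] [DecidableEq V]
    (F : Finset (Sym2 V)) (hF : F ⊆ prs V) (v : V) :
    dg (SimpleGraph.fromEdgeSet (F : Set (Sym2 V))) v = (F ∩ inc v).card := by
  classical
  unfold dg
  apply Finset.card_bij (fun y _ => s(v, y))
  · intro y hy
    simp only [mem_filter, mem_univ, true_and, SimpleGraph.fromEdgeSet_adj, mem_coe] at hy
    rw [mem_inter]
    unfold inc
    rw [mem_filter]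
    exact ⟨hy.1, hF hy.1, Sym2.mem_mk_left v y⟩
  · intro y₁ _ y₂ _ h
    exact Sym2.congr_right.mp h
  · intro e he
    rw [mem_inter] at he
    unfold inc at he
    rw [mem_filter] at he
    obtain ⟨h1, h2, h3⟩ := he
    obtain ⟨y, rfl⟩ := Sym2.mem_iff_exists.mp h3
    refine ⟨y, ?_, rfl⟩
    simp only [mem_filter, mem_univ, true_and, SimpleGraph.fromEdgeSet_adj, mem_coe]
    refine ⟨h1, ?_⟩
    rw [mem_prs, Sym2.mk_isDiag_iff] at h2
    exact h2

/-- indicator of a small intersection -/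
noncomputable def low {ι : Type} [DecidableEq ι] (T : Finset ι) (d : ℕ) (F : Finset ι) : ℝ :=
  if (F ∩ T).card < d then 1 else 0

theorem low_nonneg {ι : Type} [DecidableEq ι] (T : Finset ι) (d : ℕ) (F : Finset ι) :
    0 ≤ low T d F := by
  unfold low
  split_ifs <;> norm_num

theorem tailW {ι : Type} [DecidableEq ι] (E T : Finset ι) (hT : T ⊆ E) (x : ι → ℝ)
    (h0 : ∀ e, 0 ≤ x e) (h1 : ∀ e, x e ≤ 1) (d : ℕ) :
    ∑ F ∈ E.powerset, wF E x F * low T d F ≤ 2 ^ d * ∏ e ∈ T, (1 - ns x e) := by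
  have h2 : ∀ F ∈ E.powerset, wF E x F * low T d F ≤
        2 ^ d * ((∏ e ∈ F, (2 * ns x e * (if e ∈ T then 1 / 2 else 1))) *
          ∏ e ∈ E \ F, (1 - 2 * ns x e)) := by
    intro F hF
    rw [Finset.mem_powerset] at hF
    have e2 : ∏ e ∈ F, (2 * ns x e * (if e ∈ T then 1 / 2 else 1)) =
        (∏ e ∈ F, (2 * ns x e)) * (1 / 2) ^ (F ∩ T).card := by
      rw [Finset.prod_mul_distrib]
      congr 1
      rw [Finset.prod_ite, Finset.prod_const,
        Finset.prod_const_one, mul_one, Finset.filter_mem_eq_inter]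
    rw [e2]
    have e3 : low T d F ≤ 2 ^ d * (1 / 2) ^ (F ∩ T).card := by
      unfold low
      split_ifs with h
      · have e4 : (2 : ℝ) ^ d = 2 ^ (d - (F ∩ T).card) * 2 ^ (F ∩ T).card := by
          rw [← pow_add]
          congr 1
          omega
        have e5 : (2 : ℝ) ^ (F ∩ T).card * (1 / 2) ^ (F ∩ T).card = 1 := by
          rw [← mul_pow]
          norm_num
        rw [e4, mul_assoc, e5, mul_one]
        exact one_le_pow₀ (by norm_num)
      · positivity
    have e6 := wF_nonneg E x h0 h1 F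
    calc wF E x F * low T d F
        ≤ wF E x F * (2 ^ d * (1 / 2) ^ (F ∩ T).card) := mul_le_mul_of_nonneg_left e3 e6
      _ = _ := by unfold wF; ring
  refine (Finset.sum_le_sum h2).trans (le_of_eq ?_)
  rw [← Finset.mul_sum, ← Finset.prod_add]
  congr 1
  have h3 : ∀ e ∈ E, 2 * ns x e * (if e ∈ T then (1 : ℝ) / 2 else 1) + (1 - 2 * ns x e) =
      if e ∈ T then 1 - ns x e else 1 := by
    intro e _
    split_ifs <;> ring
  rw [Finset.prod_congr rfl h3, Finset.prod_ite, Finset.prod_const_one, mul_one,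
    Finset.filter_mem_eq_inter, Finset.inter_eq_right.2 hT]

/-- main estimate with parameters -/
theorem prob_le {V : Type} [Fintype V] [DecidableEq V] (x : Sym2 V → ℝ) (h0 : ∀ e, 0 ≤ x e)
    (h1 : ∀ e, x e ≤ 1) (s : ℕ)
    (hs : 16 ≤ s) (hn2 : 2 ≤ Fintype.card V) (hn : Fintype.card V ≤ 2 ^ s ^ 2) :
    prob x (fun G => ¬ Function.Injective (col G (Fintype.card V)))
      ≤ ∑ v : V, 2 ^ (2 ^ 21 * s ^ 2) * (∏ e ∈ inc v, (1 - ns x e)) + (1 / 2) ^ (4 * s ^ 2) := by
  obtain ⟨d, hd⟩ : ∃ d, d = 2 ^ 21 * s ^ 2 := ⟨_, rfl⟩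
  rw [prob_eq]
  have e2 : ∀ F ∈ (prs V).powerset,
      wF (prs V) x F * Pr (fun a : Sym2 V → Bool => ¬ Function.Injective
        (col (gr (base x) (SimpleGraph.fromEdgeSet (F : Set (Sym2 V))) a) (Fintype.card V))) ≤
      (∑ v : V, wF (prs V) x F * low (inc v) d F) + wF (prs V) x F * (1 / 2) ^ (4 * s ^ 2) := by
    intro F hF
    rw [Finset.mem_powerset] at hF
    rw [← Finset.mul_sum, ← mul_add]
    apply mul_le_mul_of_nonneg_left _ (wF_nonneg _ x h0 h1 F)
    have hnn : 0 ≤ ∑ v : V, low (inc v) d F := Finset.sum_nonneg fun v _ => low_nonneg _ d F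
    have h5 : (0 : ℝ) ≤ (1 / 2) ^ (4 * s ^ 2) := by positivity
    by_cases hlow : ∀ v, 2 ^ 21 * s ^ 2 ≤ dg (SimpleGraph.fromEdgeSet (F : Set (Sym2 V))) v
    · have hu := uniform (base x) (SimpleGraph.fromEdgeSet (F : Set (Sym2 V))) s hs hn2 hn hlow
      linarith
    · push Not at hlow
      obtain ⟨v, hv⟩ := hlow
      rw [← hd, dg_fromEdgeSet F hF v] at hv
      have h6 : low (inc v) d F = 1 := by
        unfold low
        rw [if_pos hv]
      have h2 : (1 : ℝ) ≤ ∑ v : V, low (inc v) d F := by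
        rw [← h6]
        exact Finset.single_le_sum (fun v _ => low_nonneg (inc v) d F) (Finset.mem_univ v)
      have h4 := Pr_le_one (fun a : Sym2 V → Bool => ¬ Function.Injective
        (col (gr (base x) (SimpleGraph.fromEdgeSet (F : Set (Sym2 V))) a) (Fintype.card V)))
      linarith
  refine le_trans (Finset.sum_le_sum e2) ?_
  rw [Finset.sum_add_distrib, Finset.sum_comm, ← Finset.sum_mul, sum_wF, one_mul, ← hd]
  apply add_le_add _ le_rfl
  apply Finset.sum_le_sum
  intro v _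
  exact tailW (prs V) (inc v) (inc_subset v) x h0 h1 d

theorem partA (A : ℕ) : ∃ C : ℕ, ∀ n : ℕ, 2 ≤ n → ∀ x : Sym2 (Fin n) → ℝ,
    (∀ e, 0 ≤ x e) → (∀ e, x e ≤ 1) →
    (∀ v : Fin n, C * Real.log n ≤ ∑ u ∈ univ.erase v, min (x s(v, u)) (1 - x s(v, u))) →
    prob x (fun G => ¬ Function.Injective (col G n)) ≤ 1 / (n : ℝ) ^ A := by
  classical
  obtain ⟨K, hK⟩ : ∃ K : ℕ, K = 2 ^ 21 * (2 * A + 580) := ⟨_, rfl⟩
  refine ⟨2 * K + A + 2, fun n hn x h0 h1 hdeg => ?_⟩
  have hn0 : (0 : ℝ) < n := by positivity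
  have hn2 : (2 : ℝ) ≤ n := by exact_mod_cast hn
  obtain ⟨t, ht⟩ : ∃ t : ℕ, t = Nat.clog 2 n := ⟨_, rfl⟩
  have ht1 : 1 ≤ t := ht ▸ Nat.clog_pos (by norm_num) hn
  have hnt : n ≤ 2 ^ t := ht ▸ Nat.le_pow_clog (by norm_num) n
  have htn : 2 ^ t ≤ n ^ 2 := by
    have h1 : 2 ^ (t - 1) < n := by
      have := Nat.pow_pred_clog_lt_self (b := 2) (by norm_num) (show 1 < n by omega)
      simpa [ht] using this
    have h2 : 2 ^ t = 2 * 2 ^ (t - 1) := by
      rw [← pow_succ']
      congr 1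
      omega
    nlinarith
  obtain ⟨s, hs⟩ : ∃ s : ℕ, s = 17 + Nat.sqrt ((A + 1) * t) := ⟨_, rfl⟩
  have hs16 : 16 ≤ s := by omega
  have hs_lo : (A + 1) * t ≤ s ^ 2 := by
    have := Nat.lt_succ_sqrt ((A + 1) * t)
    simp only [Nat.succ_eq_add_one] at this
    nlinarith
  have hs_hi : s ^ 2 ≤ (2 * A + 580) * t := by
    have := Nat.sqrt_le ((A + 1) * t)
    have h3 : s ^ 2 ≤ 578 + 2 * ((A + 1) * t) := by
      have h4 : s ^ 2 ≤ 2 * 17 ^ 2 + 2 * (Nat.sqrt ((A + 1) * t) * Nat.sqrt ((A + 1) * t)) := by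
        rw [hs]
        have : ∀ a : ℕ, (17 + a) ^ 2 ≤ 2 * 17 ^ 2 + 2 * (a * a) := by
          intro a
          have : (0 : ℤ) ≤ ((17 : ℤ) - a) ^ 2 := sq_nonneg _
          zify
          nlinarith
        exact this _
      omega
    nlinarith
  have hn' : n ≤ 2 ^ s ^ 2 := by
    refine le_trans hnt (Nat.pow_le_pow_right (by norm_num) (le_trans ?_ hs_lo))
    nlinarith
  have hmain := prob_le x h0 h1 s hs16 (by simpa using hn) (by simpa using hn')
  rw [Fintype.card_fin] at hmain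
  refine le_trans hmain ?_
  -- second term
  have hB : (1 / 2 : ℝ) ^ (4 * s ^ 2) ≤ 1 / 2 * (1 / (n : ℝ) ^ A) := by
    have h1 : (1 / 2 : ℝ) ^ (4 * s ^ 2) ≤ (1 / 2 : ℝ) ^ (4 * ((A + 1) * t)) :=
      pow_le_pow_of_le_one (by norm_num) (by norm_num) (by omega)
    have h2 : (1 / 2 : ℝ) ^ (4 * ((A + 1) * t)) ≤ (1 / (n : ℝ)) ^ (A + 1) := by
      have h3 : (1 / 2 : ℝ) ^ t ≤ 1 / n := by
        rw [one_div_pow]
        apply one_div_le_one_div_of_le hn0
        exact_mod_cast hnt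
      calc (1 / 2 : ℝ) ^ (4 * ((A + 1) * t)) = (((1 / 2 : ℝ) ^ t) ^ (A + 1)) ^ 4 := by
            rw [← pow_mul, ← pow_mul]
            congr 1
            ring
        _ ≤ (((1 / 2 : ℝ) ^ t) ^ (A + 1)) ^ 1 := by
            apply pow_le_pow_of_le_one (by positivity) _ (by norm_num)
            apply pow_le_one₀ (by positivity)
            apply pow_le_one₀ (by positivity) (by norm_num)
        _ ≤ (1 / (n : ℝ)) ^ (A + 1) := by
            rw [pow_one]
            exact pow_le_pow_left₀ (by positivity) h3 _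
    refine le_trans h1 (le_trans h2 ?_)
    rw [pow_succ, one_div_pow, mul_comm]
    apply mul_le_mul_of_nonneg_right _ (by positivity)
    exact one_div_le_one_div_of_le (by norm_num) hn2
  have hA : ∑ v : Fin n, (2 : ℝ) ^ (2 ^ 21 * s ^ 2) * (∏ e ∈ inc v, (1 - ns x e)) ≤
      1 / 2 * (1 / (n : ℝ) ^ A) := by
    have h1 : ∀ v : Fin n, (2 : ℝ) ^ (2 ^ 21 * s ^ 2) * (∏ e ∈ inc v, (1 - ns x e)) ≤
        (n : ℝ) ^ (2 * K) * (1 / (n : ℝ) ^ (2 * K + A + 2)) := by
      intro v
      apply mul_le_mul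
      · have h2 : (2 : ℝ) ^ (2 ^ 21 * s ^ 2) ≤ (2 : ℝ) ^ (t * K) := by
          apply pow_le_pow_right₀ (by norm_num)
          rw [hK]
          nlinarith
        refine le_trans h2 ?_
        rw [pow_mul, pow_mul]
        apply pow_le_pow_left₀ (by positivity)
        exact_mod_cast htn
      · have h3 : (∏ e ∈ inc v, (1 - ns x e)) ≤ Real.exp (-(∑ e ∈ inc v, ns x e)) := by
          rw [← Finset.sum_neg_distrib, Real.exp_sum]
          apply Finset.prod_le_prod
          · intro e _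
            linarith [ns_le x e]
          · intro e _
            have := Real.add_one_le_exp (-ns x e)
            linarith
        refine le_trans h3 ?_
        have h5 := hdeg v
        have h6 : Real.exp (-(∑ e ∈ inc v, ns x e)) ≤
            Real.exp (-(((2 * K + A + 2 : ℕ) : ℝ) * Real.log n)) := by
          apply Real.exp_le_exp.mpr
          rw [sum_inc]
          unfold ns
          linarith
        refine le_trans h6 (le_of_eq ?_)
        rw [Real.exp_neg, Real.exp_nat_mul, Real.exp_log hn0, one_div]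
      · apply Finset.prod_nonneg
        intro e _
        linarith [ns_le x e]
      · positivity
    refine le_trans (Finset.sum_le_sum fun v _ => h1 v) ?_
    rw [Finset.sum_const, Finset.card_univ, Fintype.card_fin, nsmul_eq_mul]
    have hn0' : (n : ℝ) ≠ 0 := hn0.ne'
    have h7 : (n : ℝ) * ((n : ℝ) ^ (2 * K) * (1 / (n : ℝ) ^ (2 * K + A + 2))) =
        1 / (n : ℝ) * (1 / (n : ℝ) ^ A) := by
      field_simp
      ring
    rw [h7]
    apply mul_le_mul_of_nonneg_right _ (by positivity)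
    exact one_div_le_one_div_of_le (by norm_num) hn2
  linarith

end Pool.Agent.CRH
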